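import Pool.Agent.Lib.MP_6947cd_al.L.BoxDataB
import Pool.Agent.Lib.MP_6947cd_al.L.TeD1

/-!
Problem MP_6947cd_al (Chollet).  CASE B, rows `j`: boxes (generated).
-/

set_option autoImplicit false
set_option linter.defProp false
set_option maxRecDepth 20000

namespace Pool.Agent.Lib.MP_6947cd_al
namespace CB

open Ent Ent.Pk Fr Fr.WT CA

/-! box `yB15_34` -/

def P15_34 : BQ := ⟨(nat_lit 8), (nat_lit 4), (nat_lit 4), (nat_lit 0), (nat_lit 8), (nat_lit 900), (nat_lit 920), (nat_lit 90), [(nat_lit 180), (nat_lit 330), (nat_lit 650)], (nat_lit 141728000), (nat_lit 16000000), (nat_lit 16000000000)⟩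
def q15_34 : PC := ⟨(nat_lit 1000), [(nat_lit 90000), (nat_lit 180000), (nat_lit 330000), (nat_lit 650000)], (nat_lit 79228162532711081671548469249000000), (nat_lit 15858272000000), (nat_lit 15858272000000), (nat_lit 10000000)⟩
def r15_34 : List PC := [⟨(nat_lit 1297), [(nat_lit 90451), (nat_lit 180704), (nat_lit 330824), (nat_lit 650880)], (nat_lit 79638247501992015679039947720837866), (nat_lit 16287857851520), (nat_lit 16297809775040), (nat_lit 10050112)⟩, ⟨(nat_lit 1907), [(nat_lit 92075), (nat_lit 182226), (nat_lit 333641), (nat_lit 657376)], (nat_lit 80487652632518861776240543859170476), (nat_lit 17067412469120), (nat_lit 17097804370240), (nat_lit 10230556)⟩]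
def s15_34 : List PB := [⟨(nat_lit 25940), (nat_lit 1447216000000), [(nat_lit 180704), (nat_lit 330824), (nat_lit 650880)], (nat_lit 79638247501992015679039947720837866), (nat_lit 1142187764694144), (nat_lit 1142197716617664), (nat_lit 47520)⟩, ⟨(nat_lit 38140), (nat_lit 1473200000000), [(nat_lit 182226), (nat_lit 333641), (nat_lit 657376)], (nat_lit 80487652632518861776240543859170476), (nat_lit 1142967319311744), (nat_lit 1142997711212864), (nat_lit 145120)⟩]
def n15_34 : List KN := [⟨(nat_lit 650), (nat_lit 330), (nat_lit 15702173), (nat_lit 7360548)⟩, ⟨(nat_lit 330), (nat_lit 180), (nat_lit 24534081), (nat_lit 15702173)⟩, ⟨(nat_lit 180), (nat_lit 90), (nat_lit 38632330), (nat_lit 24534081)⟩]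
def w15_34 : List ℕ := [(nat_lit 47520), (nat_lit 145120)]
def par15_34 : parC yB15_34 P15_34 s15_34 r15_34 q15_34 n15_34 w15_34 = true := by decide +kernel

def p15_34_0 : PF := (PF.cons (PF.cons (PF.cons (PF.leaf (nat_lit 994166) (nat_lit 3362733) (nat_lit 63746079) (nat_lit 3362733) [(nat_lit 0), (nat_lit 0), (nat_lit 0)]) (PF.cons (PF.leaf (nat_lit 1159959) (nat_lit 269384) (nat_lit 63413600) (nat_lit 3425828) [(nat_lit 269384), (nat_lit 0), (nat_lit 0)]) (PF.cons (PF.leaf (nat_lit 1359534) (nat_lit 296637) (nat_lit 63020116) (nat_lit 3495421) [(nat_lit 296637), (nat_lit 0), (nat_lit 0)]) (PF.cons (PF.leaf (nat_lit 1587013) (nat_lit 321869) (nat_lit 62574798) (nat_lit 3568406) [(nat_lit 321869), (nat_lit 0), (nat_lit 0)]) (PF.cons (PF.leaf (nat_lit 1839515) (nat_lit 345493) (nat_lit 62084219) (nat_lit 3642618) [(nat_lit 345493), (nat_lit 0), (nat_lit 0)]) (PF.cons (PF.leaf (nat_lit 2114643) (nat_lit 367742) (nat_lit 61553617) (nat_lit 3716484) [(nat_lit 367742),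 (nat_lit 0), (nat_lit 0)]) (PF.cons (PF.leaf (nat_lit 2410413) (nat_lit 388751) (nat_lit 60987464) (nat_lit 3788842) [(nat_lit 388751), (nat_lit 0), (nat_lit 0)]) (PF.cons (PF.leaf (nat_lit 2724855) (nat_lit 408604) (nat_lit 60389747) (nat_lit 3858831) [(nat_lit 408604), (nat_lit 0), (nat_lit 0)]) (PF.cons (PF.leaf (nat_lit 3056309) (nat_lit 427360) (nat_lit 59764112) (nat_lit 3925813)
 [(nat_lit 427360), (nat_lit 0), (nat_lit 0)]) (PF.cons (PF.leaf (nat_lit 3403066) (nat_lit 445060) (nat_lit 59113947) (nat_lit 3989324) [(nat_lit 445060), (nat_lit 0), (nat_lit 0)]) (PF.cons (PF.leaf (nat_lit 3763552) (nat_lit 461735) (nat_lit 58442426) (nat_lit 4049034) [(nat_lit 461735), (nat_lit 0), (nat_lit 0)]) (PF.cons (PF.leaf (nat_lit 4136262) (nat_lit 477414) (nat_lit 57752533) (nat_lit 4104722) [(nat_lit 477414), (nat_lit 0), (nat_lit 0)]) (PF.cons (PF.leaf (nat_lit 4519746) (nat_lit 492123) (nat_lit 57047075) (nat_lit 4156250) [(nat_lit 492123), (nat_lit 0), (nat_lit 0)])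 (PF.cons (PF.leaf (nat_lit 4912666) (nat_lit 505890) (nat_lit 56328690) (nat_lit 4203551) [(nat_lit 505890), (nat_lit 0), (nat_lit 0)]) (PF.cons (PF.leaf (nat_lit 5313696) (nat_lit 518739) (nat_lit 55599849) (nat_lit 4246612) [(nat_lit 518739), (nat_lit 0), (nat_lit 0)]) (PF.cons (PF.leaf (nat_lit 5721580) (nat_lit 530698) (nat_lit 54862862) (nat_lit 4285466) [(nat_lit 530698), (nat_lit 0), (nat_lit 0)]) (PF.cons PF.nil (PF.cons PF.nil (PF.cons PF.nil (PF.cons PF.nil PF.nil)))))))))))))))))))) (PF.cons (PF.cons (PF.leaf (nat_lit 1694449) (nat_lit 1610632) (nat_lit 61844804) (nat_lit 3653375) [(nat_lit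
 0), (nat_lit 1610632), (nat_lit 0)]) (PF.cons (PF.leaf (nat_lit 1923268) (nat_lit 347084) (nat_lit 61386919) (nat_lit 3715971) [(nat_lit 347084), (nat_lit 1658838), (nat_lit 0)]) (PF.cons (PF.leaf (nat_lit 2178877) (nat_lit 369593) (nat_lit 60882183) (nat_lit 3780022) [(nat_lit 369593), (nat_lit 1707420), (nat_lit 0)]) (PF.cons (PF.leaf (nat_lit 2457163) (nat_lit 390613) (nat_lit 60337715) (nat_lit 3843894) [(nat_lit 390613), (nat_lit 1755361), (nat_lit 0)]) (PF.cons (PF.leaf (nat_lit 2755645) (nat_lit 410338) (nat_lit 59759012) (nat_lit 3906437) [(nat_lit 410338), (nat_lit 1802009), (nat_lit 0)]) (PF.cons (PF.leaf (nat_lit 3072155) (nat_lit 428884) (nat_lit 59150638) (nat_lit 3966820) [(nat_lit 428884), (nat_lit 1846929), (nat_lit 0)]) (PF.cons (PF.leaf (nat_lit 3404808) (nat_lit 446330) (nat_lit 58516562) (nat_lit 4024441) [(nat_lit 446330), (nat_lit 1889826), (nat_lit 0)]) (PF.cons (PF.leaf (nat_lit 3751873) (nat_lit 462729) (nat_lit 57860332) (nat_lit 4078869)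 [(nat_lit 462729), (nat_lit 1930504), (nat_lit 0)]) (PF.cons (PF.leaf (nat_lit 4111745) (nat_lit 478124) (nat_lit 57185177) (nat_lit 4129803) [(nat_lit 478124), (nat_lit 1968838), (nat_lit 0)]) (PF.cons (PF.leaf (nat_lit
 4482910) (nat_lit 492550) (nat_lit 56494066) (nat_lit 4177043) [(nat_lit 492550), (nat_lit 2004751), (nat_lit 0)]) (PF.cons (PF.leaf (nat_lit 4863967) (nat_lit 506039) (nat_lit 55789737) (nat_lit 4220472) [(nat_lit 506039), (nat_lit 2038211), (nat_lit 0)]) (PF.cons (PF.leaf (nat_lit 5253589) (nat_lit 518621) (nat_lit 55074727) (nat_lit 4260032) [(nat_lit 518621), (nat_lit 2069211), (nat_lit 0)]) (PF.cons (PF.leaf (nat_lit 5650509) (nat_lit 530328) (nat_lit 54351383) (nat_lit 4295719) [(nat_lit 530328), (nat_lit 2097772), (nat_lit 0)]) (PF.cons (PF.leaf (nat_lit 6053555) (nat_lit 541187) (nat_lit 53621873) (nat_lit 4327570) [(nat_lit 541187), (nat_lit 2123932), (nat_lit 0)]) (PF.cons PF.nil (PF.cons PF.nil (PF.cons PF.nil (PF.cons PF.nil PF.nil))))))))))))))))))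 (PF.cons (PF.cons (PF.leaf (nat_lit 2523930) (nat_lit 1787477) (nat_lit 59634672) (nat_lit 3899186) [(nat_lit 0), (nat_lit 1787477), (nat_lit 0)]) (PF.cons (PF.leaf (nat_lit 2801307) (nat_lit 410324) (nat_lit 59086443) (nat_lit 3953631) [(nat_lit 410324), (nat_lit 1829206), (nat_lit 0)]) (PF.cons (PF.leaf (nat_lit 3099725) (nat_lit 429014) (nat_lit 58503711) (nat_lit 4007045) [(nat_lit 429014), (nat_lit 1870013), (nat_lit
 0)]) (PF.cons (PF.leaf (nat_lit 3415990) (nat_lit 446457) (nat_lit 57892082) (nat_lit 4058574) [(nat_lit 446457), (nat_lit 1909392), (nat_lit 0)]) (PF.cons (PF.leaf (nat_lit 3747937) (nat_lit 462766) (nat_lit 57256102) (nat_lit 4107619) [(nat_lit 462766), (nat_lit 1947013), (nat_lit 0)]) (PF.cons (PF.leaf (nat_lit 4093683) (nat_lit 478019) (nat_lit 56599636) (nat_lit 4153763) [(nat_lit 478019), (nat_lit 1982658), (nat_lit 0)]) (PF.cons (PF.leaf (nat_lit 4451545) (nat_lit 492274) (nat_lit 55926066) (nat_lit 4196720) [(nat_lit 492274), (nat_lit 2016190),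 (nat_lit 0)]) (PF.cons (PF.leaf (nat_lit 4819994) (nat_lit 505577) (nat_lit 55238413) (nat_lit 4236306) [(nat_lit 505577), (nat_lit 2047526), (nat_lit 0)]) (PF.cons (PF.leaf (nat_lit 5197623) (nat_lit 517968) (nat_lit 54539402) (nat_lit 4272411) [(nat_lit 517968), (nat_lit 2076625), (nat_lit 0)]) (PF.cons (PF.leaf (nat_lit 5583115) (nat_lit 529484) (nat_lit 53831507) (nat_lit 4304988) [(nat_lit 529484), (nat_lit 2103479), (nat_lit 0)]) (PF.cons (PF.leaf (nat_lit 5975241) (nat_lit 540158) (nat_lit 53116985) (nat_lit 4334037) [(nat_lit 540158), (nat_lit 2128105), (nat_lit 0)]) (PF.cons (PF.leaf (nat_lit 6372916) (nat_lit 550022)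
 (nat_lit 52397891) (nat_lit 4359596) [(nat_lit 550022), (nat_lit 2150536), (nat_lit 0)]) (PF.cons (PF.leaf (nat_lit 6775066) (nat_lit 559111) (nat_lit 51676100) (nat_lit 4381731) [(nat_lit 559111), (nat_lit 2170822), (nat_lit 0)]) (PF.cons PF.nil (PF.cons PF.nil (PF.cons PF.nil PF.nil)))))))))))))))) (PF.cons (PF.cons (PF.leaf (nat_lit 3443342) (nat_lit 1929122) (nat_lit 57229134) (nat_lit 4092311) [(nat_lit 0), (nat_lit 1929122), (nat_lit 0)]) (PF.cons (PF.leaf (nat_lit 3756502) (nat_lit 461514) (nat_lit 56621394) (nat_lit 4135676) [(nat_lit 461514), (nat_lit 1963409), (nat_lit 0)]) (PF.cons (PF.leaf (nat_lit 4085797) (nat_lit 476859) (nat_lit 55989612) (nat_lit 4176870) [(nat_lit 476859), (nat_lit 1996203), (nat_lit 0)]) (PF.cons (PF.leaf (nat_lit 4428614) (nat_lit 491117) (nat_lit 55338217) (nat_lit 4215468) [(nat_lit 491117), (nat_lit 2027257), (nat_lit 0)]) (PF.cons (PF.leaf (nat_lit 4783160) (nat_lit 504368) (nat_lit 54670896) (nat_lit 4251187) [(nat_lit 504368),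 (nat_lit 2056419), (nat_lit 0)]) (PF.cons (PF.leaf (nat_lit 5147788) (nat_lit 516673) (nat_lit 53990817) (nat_lit 4283846) [(nat_lit 516673), (nat_lit 2083594), (nat_lit 0)]) (PF.cons (PF.leaf (nat_lit 5521072)
 (nat_lit 528083) (nat_lit 53300757) (nat_lit 4313342) [(nat_lit 528083), (nat_lit 2108738), (nat_lit 0)]) (PF.cons (PF.leaf (nat_lit 5901685) (nat_lit 538641) (nat_lit 52603183) (nat_lit 4339631) [(nat_lit 538641), (nat_lit 2131836), (nat_lit 0)]) (PF.cons (PF.leaf (nat_lit 6288434) (nat_lit 548386) (nat_lit 51900298) (nat_lit 4362716) [(nat_lit 548386), (nat_lit 2152901), (nat_lit 0)]) (PF.cons (PF.leaf (nat_lit 6680246) (nat_lit 557356) (nat_lit 51194081) (nat_lit 4382633) [(nat_lit 557356), (nat_lit 2171962), (nat_lit 0)]) (PF.cons (PF.leaf (nat_lit 7076086) (nat_lit 565585) (nat_lit 50486313) (nat_lit 4399446) [(nat_lit 565585), (nat_lit 2189066), (nat_lit 0)]) (PF.cons PF.nil (PF.cons PF.nil (PF.cons PF.nil PF.nil)))))))))))))) (PF.cons (PF.cons (PF.leaf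 (nat_lit 4419141) (nat_lit 2038196) (nat_lit 54722469) (nat_lit 4233555) [(nat_lit 0), (nat_lit 2038196), (nat_lit 0)]) (PF.cons (PF.leaf (nat_lit 4757049) (nat_lit 502179) (nat_lit 54081126) (nat_lit 4265293) [(nat_lit 502179), (nat_lit 2065053), (nat_lit 0)]) (PF.cons (PF.leaf (nat_lit 5106934) (nat_lit 514561) (nat_lit 53424303) (nat_lit 4294457) [(nat_lit 514561), (nat_lit 2090231), (nat_lit 0)]) (PF.cons (PF.leaf
 (nat_lit 5466688) (nat_lit 525991) (nat_lit 52755466) (nat_lit 4320864) [(nat_lit 525991), (nat_lit 2113626), (nat_lit 0)]) (PF.cons (PF.leaf (nat_lit 5834768) (nat_lit 536533) (nat_lit 52077538) (nat_lit 4344411) [(nat_lit 536533), (nat_lit 2135182), (nat_lit 0)]) (PF.cons (PF.leaf (nat_lit 6209826) (nat_lit 546239) (nat_lit 51393041) (nat_lit 4365053) [(nat_lit 546239), (nat_lit 2154880), (nat_lit 0)]) (PF.cons (PF.leaf (nat_lit 6590664) (nat_lit 555155) (nat_lit 50704179) (nat_lit 4382792) [(nat_lit 555155), (nat_lit 2172726), (nat_lit 0)]) (PF.cons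 (PF.leaf (nat_lit 6976194) (nat_lit 563323) (nat_lit 50012894) (nat_lit 4397662) [(nat_lit 563323), (nat_lit 2188747), (nat_lit 0)]) (PF.cons (PF.leaf (nat_lit 7365428) (nat_lit 570781) (nat_lit 49320904) (nat_lit 4409722) [(nat_lit 570781), (nat_lit 2202982), (nat_lit 0)]) (PF.cons PF.nil (PF.cons PF.nil (PF.cons PF.nil PF.nil)))))))))))) (PF.cons (PF.cons (PF.leaf (nat_lit 5423760) (nat_lit 2118262) (nat_lit 52189839) (nat_lit 4327660) [(nat_lit 0), (nat_lit 2118262), (nat_lit 0)]) (PF.cons (PF.leaf (nat_lit 5777234) (nat_lit 533665) (nat_lit 51535593) (nat_lit 4348441) [(nat_lit 533665), (nat_lit 2138222), (nat_lit 0)]) (PF.cons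
 (PF.leaf (nat_lit 6139272) (nat_lit 543450) (nat_lit 50872625) (nat_lit 4366648) [(nat_lit 543450), (nat_lit 2156527), (nat_lit 0)]) (PF.cons (PF.leaf (nat_lit 6508123) (nat_lit 552407) (nat_lit 50203604) (nat_lit 4382234) [(nat_lit 552407), (nat_lit 2173150), (nat_lit 0)]) (PF.cons (PF.leaf (nat_lit 6882539) (nat_lit 560590) (nat_lit 49530798) (nat_lit 4395196) [(nat_lit 560590), (nat_lit 2188091), (nat_lit 0)]) (PF.cons (PF.leaf (nat_lit 7261418) (nat_lit 568046) (nat_lit 48856160) (nat_lit 4405564) [(nat_lit 568046), (nat_lit 2201371), (nat_lit 0)]) (PF.cons (PF.leaf (nat_lit 7643770) (nat_lit 574817) (nat_lit 48181385) (nat_lit 4413393) [(nat_lit 574817), (nat_lit 2213026), (nat_lit 0)]) (PF.cons (PF.leaf (nat_lit 8028707) (nat_lit 580941) (nat_lit 47507956) (nat_lit 4418757) [(nat_lit 580941), (nat_lit 2223101), (nat_lit 0)]) (PF.cons PF.nil (PF.cons PF.nil PF.nil)))))))))) (PF.cons (PF.cons (PF.leaf (nat_lit 6435543) (nat_lit 2173284) (nat_lit 49688120) (nat_lit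 4380984) [(nat_lit 0), (nat_lit 2173284), (nat_lit 0)]) (PF.cons (PF.leaf (nat_lit 6797232) (nat_lit 557259) (nat_lit 49036707) (nat_lit 4392058) [(nat_lit 557259), (nat_lit 2187131), (nat_lit 0)]) (PF.cons (PF.leaf
 (nat_lit 7164725) (nat_lit 564802) (nat_lit 48381715) (nat_lit 4400765) [(nat_lit 564802), (nat_lit 2199454), (nat_lit 0)]) (PF.cons (PF.leaf (nat_lit 7536592) (nat_lit 571631) (nat_lit 47725169) (nat_lit 4407131) [(nat_lit 571631), (nat_lit 2210269), (nat_lit 0)]) (PF.cons (PF.leaf (nat_lit 7911824) (nat_lit 577795) (nat_lit 47068786) (nat_lit 4411205) [(nat_lit 577795), (nat_lit 2219606), (nat_lit 0)]) (PF.cons (PF.leaf (nat_lit 8289528) (nat_lit 583336) (nat_lit 46414042) (nat_lit 4413054) [(nat_lit 583336), (nat_lit 2227505), (nat_lit 0)]) (PF.cons PF.nil (PF.cons PF.nil PF.nil)))))))) (PF.cons (PF.cons (PF.leaf (nat_lit 7438250) (nat_lit 2207230) (nat_lit 47257948) (nat_lit 4400251) [(nat_lit 0), (nat_lit 2207230), (nat_lit 0)]) (PF.cons (PF.leaf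 (nat_lit 7802470) (nat_lit 574175) (nat_lit 46620735) (nat_lit 4403073) [(nat_lit 574175), (nat_lit 2215832), (nat_lit 0)]) (PF.cons (PF.leaf (nat_lit 8170320) (nat_lit 579810) (nat_lit 45983722) (nat_lit 4403828) [(nat_lit 579810), (nat_lit 2223091), (nat_lit 0)]) (PF.cons (PF.leaf (nat_lit 8540629) (nat_lit 584838) (nat_lit 45348417) (nat_lit 4402575) [(nat_lit 584838), (nat_lit 2229043), (nat_lit 0)]) (PF.cons PF.nil (PF.cons
 PF.nil PF.nil)))))) (PF.cons (PF.cons (PF.leaf (nat_lit 8420265) (nat_lit 2223813) (nat_lit 44926442) (nat_lit 4391860) [(nat_lit 0), (nat_lit 2223813), (nat_lit 0)]) (PF.cons (PF.leaf (nat_lit 8782750) (nat_lit 585525) (nat_lit 44311186) (nat_lit 4387882) [(nat_lit 585525), (nat_lit 2228027), (nat_lit 0)]) (PF.cons (PF.leaf (nat_lit 9147193) (nat_lit 589558) (nat_lit 43698804) (nat_lit 4382162) [(nat_lit 589558), (nat_lit 2231091), (nat_lit 0)]) (PF.cons PF.nil PF.nil)))) (PF.cons (PF.cons (PF.leaf (nat_lit 9373727) (nat_lit 2226356) (nat_lit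 42710063) (nat_lit 4361544) [(nat_lit 0), (nat_lit 2226356), (nat_lit 0)]) (PF.cons PF.nil PF.nil)) (PF.cons PF.nil (PF.cons PF.nil (PF.cons PF.nil PF.nil))))))))))))) (PF.cons (PF.cons (PF.cons (PF.leaf (nat_lit 2842210) (nat_lit 3978057) (nat_lit 56656786) (nat_lit 3978057) [(nat_lit 0), (nat_lit 0), (nat_lit 6473969)]) (PF.cons (PF.leaf (nat_lit 3088524) (nat_lit 398994) (nat_lit 56181903) (nat_lit 4017804) [(nat_lit 398994), (nat_lit 0), (nat_lit 6510110)]) (PF.cons (PF.leaf (nat_lit 3359300) (nat_lit 419614) (nat_lit 55665859) (nat_lit 4057711) [(nat_lit 419614), (nat_lit 0), (nat_lit 6546012)]) (PF.cons (PF.leaf (nat_lit 3649997)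
 (nat_lit 438243) (nat_lit 55116783) (nat_lit 4096728) [(nat_lit 438243), (nat_lit 0), (nat_lit 6580572)]) (PF.cons (PF.leaf (nat_lit 3957745) (nat_lit 455232) (nat_lit 54540726) (nat_lit 4134144) [(nat_lit 455232), (nat_lit 0), (nat_lit 6613010)]) (PF.cons (PF.leaf (nat_lit 4280229) (nat_lit 470814) (nat_lit 53942495) (nat_lit 4169470) [(nat_lit 470814), (nat_lit 0), (nat_lit 6642772)]) (PF.cons (PF.leaf (nat_lit 4615492) (nat_lit 485151) (nat_lit 53326072) (nat_lit 4202366) [(nat_lit 485151), (nat_lit 0), (nat_lit 6669464)]) (PF.cons (PF.leaf (nat_lit 4961826) (nat_lit 498362) (nat_lit 52694852) (nat_lit 4232607) [(nat_lit 498362), (nat_lit 0), (nat_lit 6692818)]) (PF.cons (PF.leaf (nat_lit 5317751) (nat_lit 510539) (nat_lit 52051787) (nat_lit 4260051) [(nat_lit 510539), (nat_lit 0), (nat_lit 6712661)]) (PF.cons (PF.leaf (nat_lit 5681868) (nat_lit 521757) (nat_lit 51399479) (nat_lit 4284619) [(nat_lit 521757), (nat_lit 0), (nat_lit 6728898)]) (PF.cons (PF.leaf (nat_lit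 6052944) (nat_lit 532079) (nat_lit 50740236) (nat_lit 4306284) [(nat_lit 532079), (nat_lit 0), (nat_lit 6741492)]) (PF.cons (PF.leaf (nat_lit 6429894) (nat_lit 541561) (nat_lit 50076124) (nat_lit 4325053) [(nat_lit
 541561), (nat_lit 0), (nat_lit 6750457)]) (PF.cons (PF.leaf (nat_lit 6811638) (nat_lit 550250) (nat_lit 49408990) (nat_lit 4340966) [(nat_lit 550250), (nat_lit 0), (nat_lit 6755845)]) (PF.cons (PF.leaf (nat_lit 7197236) (nat_lit 558192) (nat_lit 48740491) (nat_lit 4354086) [(nat_lit 558192), (nat_lit 0), (nat_lit 6757737)]) (PF.cons PF.nil (PF.cons PF.nil (PF.cons PF.nil (PF.cons PF.nil PF.nil)))))))))))))))))) (PF.cons (PF.cons (PF.leaf (nat_lit 3687218) (nat_lit 1939063) (nat_lit 54443634) (nat_lit 4122606) [(nat_lit 0), (nat_lit 1939063), (nat_lit 6603508)]) (PF.cons (PF.leaf (nat_lit 3972679) (nat_lit 451044) (nat_lit 53903759) (nat_lit 4154891) [(nat_lit 451044), (nat_lit 1968780), (nat_lit 6630336)]) (PF.cons (PF.leaf (nat_lit 4276355) (nat_lit 467224)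 (nat_lit 53335993) (nat_lit 4185845) [(nat_lit 467224), (nat_lit 1997314), (nat_lit 6655211)]) (PF.cons (PF.leaf (nat_lit 4594961) (nat_lit 481942) (nat_lit 52746074) (nat_lit 4214956) [(nat_lit 481942), (nat_lit 2024357), (nat_lit 6677596)]) (PF.cons (PF.leaf (nat_lit 4926299) (nat_lit 495395) (nat_lit 52138486) (nat_lit 4241886) [(nat_lit 495395), (nat_lit 2049730), (nat_lit 6697126)]) (PF.cons (PF.leaf (nat_lit 5268475)
 (nat_lit 507724) (nat_lit 51516888) (nat_lit 4266410) [(nat_lit 507724), (nat_lit 2073331), (nat_lit 6713559)]) (PF.cons (PF.leaf (nat_lit 5619950) (nat_lit 519033) (nat_lit 50884363) (nat_lit 4288392) [(nat_lit 519033), (nat_lit 2095109), (nat_lit 6726748)]) (PF.cons (PF.leaf (nat_lit 5979268) (nat_lit 529404) (nat_lit 50243556) (nat_lit 4307758) [(nat_lit 529404), (nat_lit 2115050), (nat_lit 6736616)]) (PF.cons (PF.leaf (nat_lit 6345197) (nat_lit 538906) (nat_lit 49596769) (nat_lit 4324481) [(nat_lit 538906), (nat_lit 2133165), (nat_lit 6743143)])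 (PF.cons (PF.leaf (nat_lit 6716618) (nat_lit 547597) (nat_lit 48946026) (nat_lit 4338570) [(nat_lit 547597), (nat_lit 2149481), (nat_lit 6746352)]) (PF.cons (PF.leaf (nat_lit 7092517) (nat_lit 555529) (nat_lit 48293114) (nat_lit 4350063) [(nat_lit 555529), (nat_lit 2164041), (nat_lit 6746301)]) (PF.cons (PF.leaf (nat_lit 7471959) (nat_lit 562745) (nat_lit 47639616) (nat_lit 4359020) [(nat_lit 562745), (nat_lit 2176897), (nat_lit 6743074)]) (PF.cons (PF.leaf (nat_lit 7854103) (nat_lit 569289) (nat_lit 46986938) (nat_lit 4365516) [(nat_lit 569289), (nat_lit 2188107), (nat_lit 6736775)]) (PF.cons PF.nil (PF.cons PF.nil (PF.cons PF.nil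
 PF.nil)))))))))))))))) (PF.cons (PF.cons (PF.leaf (nat_lit 4592513) (nat_lit 2032237) (nat_lit 52132997) (nat_lit 4227130) [(nat_lit 0), (nat_lit 2032237), (nat_lit 6684211)]) (PF.cons (PF.leaf (nat_lit 4905067) (nat_lit 491120) (nat_lit 51556240) (nat_lit 4250589) [(nat_lit 491120), (nat_lit 2055478), (nat_lit 6699905)]) (PF.cons (PF.leaf (nat_lit 5231096) (nat_lit 503859) (nat_lit 50961432) (nat_lit 4272116) [(nat_lit 503859), (nat_lit 2077286), (nat_lit 6712971)]) (PF.cons (PF.leaf (nat_lit 5568045) (nat_lit 515447) (nat_lit 50352739) (nat_lit 4291482) [(nat_lit 515447), (nat_lit 2097531), (nat_lit 6723183)]) (PF.cons (PF.leaf (nat_lit 5914202) (nat_lit 526010) (nat_lit 49733516) (nat_lit 4308550) [(nat_lit 526010), (nat_lit 2116145), (nat_lit 6730412)]) (PF.cons (PF.leaf (nat_lit 6268046) (nat_lit 535644) (nat_lit 49106550) (nat_lit 4323244) [(nat_lit 535644), (nat_lit 2133100), (nat_lit 6734594)]) (PF.cons (PF.leaf (nat_lit 6628292) (nat_lit 544425) (nat_lit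 48474202) (nat_lit 4335538) [(nat_lit 544425), (nat_lit 2148399), (nat_lit 6735720)]) (PF.cons (PF.leaf (nat_lit 6993795) (nat_lit 552417) (nat_lit 47838504) (nat_lit 4345441) [(nat_lit 552417), (nat_lit 2162063),
 (nat_lit 6733819)]) (PF.cons (PF.leaf (nat_lit 7363535) (nat_lit 559674) (nat_lit 47201221) (nat_lit 4352988) [(nat_lit 559674), (nat_lit 2174126), (nat_lit 6728953)]) (PF.cons (PF.leaf (nat_lit 7736591) (nat_lit 566245) (nat_lit 46563892) (nat_lit 4358235) [(nat_lit 566245), (nat_lit 2184635), (nat_lit 6721204)]) (PF.cons (PF.leaf (nat_lit 8112143) (nat_lit 572172) (nat_lit 45927871) (nat_lit 4361252) [(nat_lit 572172), (nat_lit 2193643), (nat_lit 6710676)]) (PF.cons PF.nil (PF.cons PF.nil (PF.cons PF.nil PF.nil)))))))))))))) (PF.cons (PF.cons (PF.leaf (nat_lit 5530967) (nat_lit 2099821) (nat_lit 49797241) (nat_lit 4293974) [(nat_lit 0), (nat_lit 2099821), (nat_lit 6718131)]) (PF.cons (PF.leaf (nat_lit 5861177) (nat_lit 521642) (nat_lit 49204589) (nat_lit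 4308704) [(nat_lit 521642), (nat_lit 2117024), (nat_lit 6722803)]) (PF.cons (PF.leaf (nat_lit 6201111) (nat_lit 531583) (nat_lit 48601216) (nat_lit 4321364) [(nat_lit 531583), (nat_lit 2132775), (nat_lit 6724735)]) (PF.cons (PF.leaf (nat_lit 6548782) (nat_lit 540587) (nat_lit 47990185) (nat_lit 4331879) [(nat_lit 540587), (nat_lit 2147036), (nat_lit 6723877)]) (PF.cons (PF.leaf (nat_lit 6902808) (nat_lit 548743) (nat_lit
 47374004) (nat_lit 4340218) [(nat_lit 548743), (nat_lit 2159796), (nat_lit 6720225)]) (PF.cons (PF.leaf (nat_lit 7261993) (nat_lit 556123) (nat_lit 46754777) (nat_lit 4346389) [(nat_lit 556123), (nat_lit 2171070), (nat_lit 6713815)]) (PF.cons (PF.leaf (nat_lit 7625296) (nat_lit 562787) (nat_lit 46134290) (nat_lit 4350424) [(nat_lit 562787), (nat_lit 2180888), (nat_lit 6704708)]) (PF.cons (PF.leaf (nat_lit 7991786) (nat_lit 568786) (nat_lit 45514076) (nat_lit 4352374) [(nat_lit 568786), (nat_lit 2189289), (nat_lit 6692989)]) (PF.cons (PF.leaf (nat_lit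 8360632) (nat_lit 574166) (nat_lit 44895460) (nat_lit 4352304) [(nat_lit 574166), (nat_lit 2196320), (nat_lit 6678755)]) (PF.cons PF.nil (PF.cons PF.nil (PF.cons PF.nil PF.nil)))))))))))) (PF.cons (PF.cons (PF.leaf (nat_lit 6481735) (nat_lit 2145445) (nat_lit 47488744) (nat_lit 4327592) [(nat_lit 0), (nat_lit 2145445), (nat_lit 6710695)]) (PF.cons (PF.leaf (nat_lit 6822193) (nat_lit 544327) (nat_lit 46895597) (nat_lit 4334383) [(nat_lit 544327), (nat_lit 2157274), (nat_lit 6705406)]) (PF.cons (PF.leaf (nat_lit 7169448) (nat_lit 551954) (nat_lit 46297139) (nat_lit 4339206) [(nat_lit 551954), (nat_lit 2167749), (nat_lit 6697561)])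
 (PF.cons (PF.leaf (nat_lit 7521903) (nat_lit 558807) (nat_lit 45695622) (nat_lit 4342063) [(nat_lit 558807), (nat_lit 2176875), (nat_lit 6687199)]) (PF.cons (PF.leaf (nat_lit 7878453) (nat_lit 564955) (nat_lit 45092914) (nat_lit 4342983) [(nat_lit 564955), (nat_lit 2184677), (nat_lit 6674385)]) (PF.cons (PF.leaf (nat_lit 8238174) (nat_lit 570453) (nat_lit 44490582) (nat_lit 4342015) [(nat_lit 570453), (nat_lit 2191186), (nat_lit 6659200)]) (PF.cons (PF.leaf (nat_lit 8600206) (nat_lit 575351) (nat_lit 43889955) (nat_lit 4339218) [(nat_lit 575351), (nat_lit 2196447), (nat_lit 6641741)]) (PF.cons (PF.leaf (nat_lit 8963814) (nat_lit 579691) (nat_lit 43292172) (nat_lit 4334663) [(nat_lit 579691), (nat_lit 2200506), (nat_lit 6622112)]) (PF.cons PF.nil (PF.cons PF.nil PF.nil)))))))))) (PF.cons (PF.cons (PF.leaf (nat_lit 7429179) (nat_lit 2172611) (nat_lit 45244104) (nat_lit 4333114) [(nat_lit 0), (nat_lit 2172611), (nat_lit 6668537)]) (PF.cons (PF.leaf (nat_lit 7774177)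 (nat_lit 560547) (nat_lit 44661422) (nat_lit 4333043) [(nat_lit 560547), (nat_lit 2179810), (nat_lit 6654745)]) (PF.cons (PF.leaf (nat_lit 8123691) (nat_lit 566254) (nat_lit 44077347) (nat_lit 4331216) [(nat_lit 566254),
 (nat_lit 2185804), (nat_lit 6638715)]) (PF.cons (PF.leaf (nat_lit 8476421) (nat_lit 571321) (nat_lit 43493532) (nat_lit 4327675) [(nat_lit 571321), (nat_lit 2190622), (nat_lit 6620530)]) (PF.cons (PF.leaf (nat_lit 8831506) (nat_lit 575799) (nat_lit 42911352) (nat_lit 4322478) [(nat_lit 575799), (nat_lit 2194300), (nat_lit 6600283)]) (PF.cons (PF.leaf (nat_lit 9188180) (nat_lit 579735) (nat_lit 42331960) (nat_lit 4315690) [(nat_lit 579735), (nat_lit 2196881), (nat_lit 6578077)]) (PF.cons PF.nil (PF.cons PF.nil PF.nil)))))))) (PF.cons (PF.cons (PF.leaf (nat_lit 8361954) (nat_lit 2184553) (nat_lit 43087533) (nat_lit 4315612) [(nat_lit 0), (nat_lit 2184553), (nat_lit 6598348)]) (PF.cons (PF.leaf (nat_lit 8707188) (nat_lit 571453) (nat_lit 42522789) (nat_lit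 4309818) [(nat_lit 571453), (nat_lit 2187859), (nat_lit 6577593)]) (PF.cons (PF.leaf (nat_lit 9055184) (nat_lit 575572) (nat_lit 41959424) (nat_lit 4302520) [(nat_lit 575572), (nat_lit 2190126), (nat_lit 6554962)]) (PF.cons (PF.leaf (nat_lit 9404858) (nat_lit 579160) (nat_lit 41398643) (nat_lit 4293780) [(nat_lit 579160), (nat_lit 2191391), (nat_lit 6530556)]) (PF.cons PF.nil (PF.cons PF.nil PF.nil)))))) (PF.cons (PF.cons (PF.leaf
 (nat_lit 9272163) (nat_lit 2184149) (nat_lit 41033748) (nat_lit 4279729) [(nat_lit 0), (nat_lit 2184149), (nat_lit 6506290)]) (PF.cons (PF.leaf (nat_lit 9614472) (nat_lit 578018) (nat_lit 40491744) (nat_lit 4269295) [(nat_lit 578018), (nat_lit 2184246), (nat_lit 6480029)]) (PF.cons (PF.leaf (nat_lit 9958180) (nat_lit 580830) (nat_lit 39953021) (nat_lit 4257612) [(nat_lit 580830), (nat_lit 2183466), (nat_lit 6452252)]) (PF.cons PF.nil PF.nil)))) (PF.cons (PF.cons (PF.leaf (nat_lit 10154598) (nat_lit 2173891) (nat_lit 39090409) (nat_lit 4229528)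 [(nat_lit 0), (nat_lit 2173891), (nat_lit 6397741)]) (PF.cons PF.nil PF.nil)) (PF.cons PF.nil (PF.cons PF.nil PF.nil))))))))))) (PF.cons (PF.cons (PF.cons (PF.leaf (nat_lit 4751026) (nat_lit 4199267) (nat_lit 49663640) (nat_lit 4199267) [(nat_lit 0), (nat_lit 0), (nat_lit 6622952)]) (PF.cons (PF.leaf (nat_lit 5036167) (nat_lit 474025) (nat_lit 49157148) (nat_lit 4216553) [(nat_lit 474025), (nat_lit 0), (nat_lit 6630542)]) (PF.cons (PF.leaf (nat_lit 5337304) (nat_lit 488076) (nat_lit 48628022) (nat_lit 4232428) [(nat_lit 488076), (nat_lit 0), (nat_lit 6636103)]) (PF.cons (PF.leaf (nat_lit 5651152) (nat_lit 500576) (nat_lit 48081688) (nat_lit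
 4246608) [(nat_lit 500576), (nat_lit 0), (nat_lit 6639393)]) (PF.cons (PF.leaf (nat_lit 5975526) (nat_lit 511771) (nat_lit 47522276) (nat_lit 4258917) [(nat_lit 511771), (nat_lit 0), (nat_lit 6640266)]) (PF.cons (PF.leaf (nat_lit 6308658) (nat_lit 521839) (nat_lit 46953075) (nat_lit 4269255) [(nat_lit 521839), (nat_lit 0), (nat_lit 6638641)]) (PF.cons (PF.leaf (nat_lit 6649074) (nat_lit 530913) (nat_lit 46376777) (nat_lit 4277572) [(nat_lit 530913), (nat_lit 0), (nat_lit 6634490)]) (PF.cons (PF.leaf (nat_lit 6995509) (nat_lit 539095) (nat_lit 45795636) (nat_lit 4283857) [(nat_lit 539095), (nat_lit 0), (nat_lit 6627823)]) (PF.cons (PF.leaf (nat_lit 7346865) (nat_lit 546470) (nat_lit 45211564) (nat_lit 4288128) [(nat_lit 546470), (nat_lit 0), (nat_lit 6618679)]) (PF.cons (PF.leaf (nat_lit 7702156) (nat_lit 553105) (nat_lit 44626202) (nat_lit 4290422) [(nat_lit 553105), (nat_lit 0), (nat_lit 6607118)]) (PF.cons (PF.leaf (nat_lit 8060516) (nat_lit 559061) (nat_lit 44040967)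 (nat_lit 4290794) [(nat_lit 559061), (nat_lit 0), (nat_lit 6593219)]) (PF.cons (PF.leaf (nat_lit 8421163) (nat_lit 564388) (nat_lit 43457088) (nat_lit 4289307) [(nat_lit 564388), (nat_lit 0), (nat_lit 6577072)])
 (PF.cons PF.nil (PF.cons PF.nil PF.nil)))))))))))))) (PF.cons (PF.cons (PF.leaf (nat_lit 5624961) (nat_lit 2072234) (nat_lit 47532735) (nat_lit 4245706) [(nat_lit 0), (nat_lit 2072234), (nat_lit 6629068)]) (PF.cons (PF.leaf (nat_lit 5931206) (nat_lit 505638) (nat_lit 47003472) (nat_lit 4256003) [(nat_lit 505638), (nat_lit 2087664), (nat_lit 6628017)]) (PF.cons (PF.leaf (nat_lit 6248939) (nat_lit 516331) (nat_lit 46460333) (nat_lit 4264621) [(nat_lit 516331), (nat_lit 2101776), (nat_lit 6624709)]) (PF.cons (PF.leaf (nat_lit 6575733) (nat_lit 525869) (nat_lit 45907070) (nat_lit 4271454) [(nat_lit 525869), (nat_lit 2114515), (nat_lit 6619082)]) (PF.cons (PF.leaf (nat_lit 6909950) (nat_lit 534404) (nat_lit 45346637) (nat_lit 4276451) [(nat_lit 534404), (nat_lit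 2125866), (nat_lit 6611120)]) (PF.cons (PF.leaf (nat_lit 7250224) (nat_lit 542052) (nat_lit 44781426) (nat_lit 4279601) [(nat_lit 542052), (nat_lit 2135840), (nat_lit 6600842)]) (PF.cons (PF.leaf (nat_lit 7595388) (nat_lit 548904) (nat_lit 44213421) (nat_lit 4280918) [(nat_lit 548904), (nat_lit 2144463), (nat_lit 6588292)]) (PF.cons (PF.leaf (nat_lit 7944451) (nat_lit 555034) (nat_lit 43644290) (nat_lit 4280438) [(nat_lit
 555034), (nat_lit 2151774), (nat_lit 6573533)]) (PF.cons (PF.leaf (nat_lit 8296531) (nat_lit 560504) (nat_lit 43075452) (nat_lit 4278210) [(nat_lit 560504), (nat_lit 2157819), (nat_lit 6556646)]) (PF.cons (PF.leaf (nat_lit 8650829) (nat_lit 565368) (nat_lit 42508119) (nat_lit 4274295) [(nat_lit 565368), (nat_lit 2162649), (nat_lit 6537717)]) (PF.cons PF.nil (PF.cons PF.nil PF.nil)))))))))))) (PF.cons (PF.cons (PF.leaf (nat_lit 6517860) (nat_lit 2111511) (nat_lit 45416534) (nat_lit 4264735) [(nat_lit 0), (nat_lit 2111511), (nat_lit 6602260)]) (PF.cons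 (PF.leaf (nat_lit 6837087) (nat_lit 528743) (nat_lit 44881207) (nat_lit 4268459) [(nat_lit 528743), (nat_lit 2122052), (nat_lit 6593147)]) (PF.cons (PF.leaf (nat_lit 7164451) (nat_lit 536849) (nat_lit 44338163) (nat_lit 4270515) [(nat_lit 536849), (nat_lit 2131351), (nat_lit 6581866)]) (PF.cons (PF.leaf (nat_lit 7498088) (nat_lit 544055) (nat_lit 43790059) (nat_lit 4270889) [(nat_lit 544055), (nat_lit 2139405), (nat_lit 6568443)]) (PF.cons (PF.leaf (nat_lit 7836732) (nat_lit 550465) (nat_lit 43239027) (nat_lit 4269594) [(nat_lit 550465), (nat_lit 2146232), (nat_lit 6552931)]) (PF.cons (PF.leaf (nat_lit 8179319) (nat_lit 556162)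
 (nat_lit 42686816) (nat_lit 4266662) [(nat_lit 556162), (nat_lit 2151863), (nat_lit 6535397)]) (PF.cons (PF.leaf (nat_lit 8524955) (nat_lit 561211) (nat_lit 42134883) (nat_lit 4262141) [(nat_lit 561211), (nat_lit 2156339), (nat_lit 6515919)]) (PF.cons (PF.leaf (nat_lit 8872814) (nat_lit 565670) (nat_lit 41584456) (nat_lit 4256086) [(nat_lit 565670), (nat_lit 2159703), (nat_lit 6494585)]) (PF.cons (PF.leaf (nat_lit 9222222) (nat_lit 569585) (nat_lit 41036574) (nat_lit 4248562) [(nat_lit 569585), (nat_lit 2162004), (nat_lit 6471489)]) (PF.cons PF.nil PF.nil)))))))))) (PF.cons (PF.cons (PF.leaf (nat_lit 7413666) (nat_lit 2134116) (nat_lit 43351453) (nat_lit 4260271) [(nat_lit 0), (nat_lit 2134116), (nat_lit 6547369)]) (PF.cons (PF.leaf (nat_lit 7739801) (nat_lit 545168) (nat_lit 42821599) (nat_lit 4258203) [(nat_lit 545168), (nat_lit 2140450), (nat_lit 6531245)]) (PF.cons (PF.leaf (nat_lit 8071532) (nat_lit 551218) (nat_lit 42288380) (nat_lit 4254610) [(nat_lit 551218),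 (nat_lit 2145670), (nat_lit 6513186)]) (PF.cons (PF.leaf (nat_lit 8407378) (nat_lit 556552) (nat_lit 41753696) (nat_lit 4249525) [(nat_lit 556552), (nat_lit 2149800), (nat_lit 6493267)]) (PF.cons (PF.leaf (nat_lit
 8746385) (nat_lit 561243) (nat_lit 41219094) (nat_lit 4242990) [(nat_lit 561243), (nat_lit 2152873), (nat_lit 6471567)]) (PF.cons (PF.leaf (nat_lit 9087691) (nat_lit 565352) (nat_lit 40685847) (nat_lit 4235061) [(nat_lit 565352), (nat_lit 2154930), (nat_lit 6448174)]) (PF.cons (PF.leaf (nat_lit 9430602) (nat_lit 568932) (nat_lit 40155021) (nat_lit 4225795) [(nat_lit 568932), (nat_lit 2156013), (nat_lit 6423180)]) (PF.cons PF.nil PF.nil)))))))) (PF.cons (PF.cons (PF.leaf (nat_lit 8300773) (nat_lit 2143020) (nat_lit 41361200) (nat_lit 4236374) [(nat_lit 0), (nat_lit 2143020), (nat_lit 6469578)]) (PF.cons (PF.leaf (nat_lit 8629262) (nat_lit 556255) (nat_lit 40844622) (nat_lit 4229410) [(nat_lit 556255), (nat_lit 2145811), (nat_lit 6447638)]) (PF.cons (PF.leaf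 (nat_lit 8961424) (nat_lit 560650) (nat_lit 40327729) (nat_lit 4221121) [(nat_lit 560650), (nat_lit 2147636), (nat_lit 6424057)]) (PF.cons (PF.leaf (nat_lit 9296044) (nat_lit 564466) (nat_lit 39811887) (nat_lit 4211558) [(nat_lit 564466), (nat_lit 2148529), (nat_lit 6398924)]) (PF.cons (PF.leaf (nat_lit 9632389) (nat_lit 567758) (nat_lit 39298216) (nat_lit 4200778) [(nat_lit 567758), (nat_lit 2148530), (nat_lit 6372330)])
 (PF.cons PF.nil PF.nil)))))) (PF.cons (PF.cons (PF.leaf (nat_lit 9170979) (nat_lit 2140818) (nat_lit 39460258) (nat_lit 4196852) [(nat_lit 0), (nat_lit 2140818), (nat_lit 6373804)]) (PF.cons (PF.leaf (nat_lit 9498466) (nat_lit 563053) (nat_lit 38962026) (nat_lit 4185879) [(nat_lit 563053), (nat_lit 2140680), (nat_lit 6347226)]) (PF.cons (PF.leaf (nat_lit 9828144) (nat_lit 566107) (nat_lit 38465583) (nat_lit 4173792) [(nat_lit 566107), (nat_lit 2139722), (nat_lit 6319305)]) (PF.cons PF.nil PF.nil)))) (PF.cons (PF.cons (PF.leaf (nat_lit 10018698) (nat_lit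 2129737) (nat_lit 37656442) (nat_lit 4145089) [(nat_lit 0), (nat_lit 2129737), (nat_lit 6264426)]) (PF.cons (PF.leaf (nat_lit 10342732) (nat_lit 566404) (nat_lit 37179635) (nat_lit 4130920) [(nat_lit 566404), (nat_lit 2127214), (nat_lit 6234281)]) PF.nil)) (PF.cons PF.nil (PF.cons PF.nil (PF.cons PF.nil PF.nil)))))))))) (PF.cons (PF.cons (PF.cons (PF.leaf (nat_lit 6551180) (nat_lit 4194738) (nat_lit 43459618) (nat_lit 4194738) [(nat_lit 0), (nat_lit 0), (nat_lit 6484818)]) (PF.cons (PF.leaf (nat_lit 6848326) (nat_lit 510252) (nat_lit 42982192) (nat_lit 4196380) [(nat_lit 510252), (nat_lit 0), (nat_lit 6473329)]) (PF.cons (PF.leaf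
 (nat_lit 7155484) (nat_lit 519341) (nat_lit 42493803) (nat_lit 4196576) [(nat_lit 519341), (nat_lit 0), (nat_lit 6459916)]) (PF.cons (PF.leaf (nat_lit 7470338) (nat_lit 527301) (nat_lit 41997765) (nat_lit 4195297) [(nat_lit 527301), (nat_lit 0), (nat_lit 6444615)]) (PF.cons (PF.leaf (nat_lit 7791354) (nat_lit 534300) (nat_lit 41496642) (nat_lit 4192544) [(nat_lit 534300), (nat_lit 0), (nat_lit 6427473)]) (PF.cons (PF.leaf (nat_lit 8117271) (nat_lit 540465) (nat_lit 40992477) (nat_lit 4188341) [(nat_lit 540465), (nat_lit 0), (nat_lit 6408555)]) (PF.cons (PF.leaf (nat_lit 8447082) (nat_lit 545893) (nat_lit 40486937) (nat_lit 4182724) [(nat_lit 545893), (nat_lit 0), (nat_lit 6387929)]) (PF.cons (PF.leaf (nat_lit 8779858) (nat_lit 550663) (nat_lit 39981398) (nat_lit 4175741) [(nat_lit 550663), (nat_lit 0), (nat_lit 6365675)]) (PF.cons (PF.leaf (nat_lit 9114840) (nat_lit 554840) (nat_lit 39477016) (nat_lit 4167445) [(nat_lit 554840), (nat_lit 0), (nat_lit 6341875)]) (PF.cons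 (PF.leaf (nat_lit 9451362) (nat_lit 558478) (nat_lit 38974762) (nat_lit 4157897) [(nat_lit 558478), (nat_lit 0), (nat_lit 6316615)]) (PF.cons PF.nil (PF.cons PF.nil PF.nil)))))))))))) (PF.cons (PF.cons (PF.leaf
 (nat_lit 7397128) (nat_lit 2092422) (nat_lit 41568681) (nat_lit 4183298) [(nat_lit 0), (nat_lit 2092422), (nat_lit 6421470)]) (PF.cons (PF.leaf (nat_lit 7704157) (nat_lit 527919) (nat_lit 41090386) (nat_lit 4179961) [(nat_lit 527919), (nat_lit 2098367), (nat_lit 6404059)]) (PF.cons (PF.leaf (nat_lit 8018171) (nat_lit 534636) (nat_lit 40606290) (nat_lit 4175268) [(nat_lit 534636), (nat_lit 2103247), (nat_lit 6384911)]) (PF.cons (PF.leaf (nat_lit 8337407) (nat_lit 540500) (nat_lit 40118685) (nat_lit 4169240) [(nat_lit 540500), (nat_lit 2107083), (nat_lit 6364100)]) (PF.cons (PF.leaf (nat_lit 8660751) (nat_lit 545623) (nat_lit 39629381) (nat_lit 4161916) [(nat_lit 545623), (nat_lit 2109908), (nat_lit 6341703)]) (PF.cons (PF.leaf (nat_lit 8987211) (nat_lit 550090)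 (nat_lit 39139845) (nat_lit 4153340) [(nat_lit 550090), (nat_lit 2111761), (nat_lit 6317803)]) (PF.cons (PF.leaf (nat_lit 9315990) (nat_lit 553972) (nat_lit 38651277) (nat_lit 4143564) [(nat_lit 553972), (nat_lit 2112685), (nat_lit 6292483)]) (PF.cons (PF.leaf (nat_lit 9646382) (nat_lit 557325) (nat_lit 38164677) (nat_lit 4132644) [(nat_lit 557325), (nat_lit 2112727), (nat_lit 6265827)]) (PF.cons PF.nil (PF.cons PF.nil
 PF.nil)))))))))) (PF.cons (PF.cons (PF.leaf (nat_lit 8240740) (nat_lit 2099677) (nat_lit 39736922) (nat_lit 4155183) [(nat_lit 0), (nat_lit 2099677), (nat_lit 6339117)]) (PF.cons (PF.leaf (nat_lit 8552545) (nat_lit 539868) (nat_lit 39266565) (nat_lit 4147578) [(nat_lit 539868), (nat_lit 2102297), (nat_lit 6316735)]) (PF.cons (PF.leaf (nat_lit 8869115) (nat_lit 544755) (nat_lit 38793950) (nat_lit 4138775) [(nat_lit 544755), (nat_lit 2103991), (nat_lit 6292864)]) (PF.cons (PF.leaf (nat_lit 9189059) (nat_lit 548978) (nat_lit 38320690) (nat_lit 4128819)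 [(nat_lit 548978), (nat_lit 2104793), (nat_lit 6267593)]) (PF.cons (PF.leaf (nat_lit 9511509) (nat_lit 552615) (nat_lit 37848077) (nat_lit 4117762) [(nat_lit 552615), (nat_lit 2104742), (nat_lit 6241009)]) (PF.cons (PF.leaf (nat_lit 9835709) (nat_lit 555728) (nat_lit 37377165) (nat_lit 4105657) [(nat_lit 555728), (nat_lit 2103878), (nat_lit 6213196)]) (PF.cons PF.nil (PF.cons PF.nil PF.nil)))))))) (PF.cons (PF.cons (PF.leaf (nat_lit 9073106) (nat_lit 2096662) (nat_lit 37980025) (nat_lit 4113567) [(nat_lit 0), (nat_lit 2096662), (nat_lit 6241744)]) (PF.cons (PF.leaf (nat_lit 9385969) (nat_lit 547358) (nat_lit 37523333) (nat_lit 4102431)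
 [(nat_lit 547358), (nat_lit 2096534), (nat_lit 6215361)]) (PF.cons (PF.leaf (nat_lit 9701925) (nat_lit 550803) (nat_lit 37066815) (nat_lit 4090276) [(nat_lit 550803), (nat_lit 2095620), (nat_lit 6187751)]) (PF.cons (PF.leaf (nat_lit 10019845) (nat_lit 553721) (nat_lit 36611616) (nat_lit 4077156) [(nat_lit 553721), (nat_lit 2093956), (nat_lit 6159002)]) (PF.cons PF.nil (PF.cons PF.nil PF.nil)))))) (PF.cons (PF.cons (PF.leaf (nat_lit 9888079) (nat_lit 2085449) (nat_lit 36306789) (nat_lit 4061315) [(nat_lit 0), (nat_lit 2085449), (nat_lit 6132970)]) (PF.cons (PF.leaf (nat_lit 10199282) (nat_lit 551331) (nat_lit 35867341) (nat_lit 4047340) [(nat_lit 551331), (nat_lit 2083082), (nat_lit 6103490)]) (PF.cons (PF.leaf (nat_lit 10512302) (nat_lit 553626) (nat_lit 35429716) (nat_lit 4032523) [(nat_lit 553626), (nat_lit 2080057), (nat_lit 6073029)]) (PF.cons PF.nil PF.nil)))) (PF.cons (PF.cons (PF.leaf (nat_lit 10681543) (nat_lit 2067771) (nat_lit 34721247) (nat_lit 4000913)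 [(nat_lit 0), (nat_lit 2067771), (nat_lit 6015932)]) (PF.cons PF.nil PF.nil)) (PF.cons PF.nil (PF.cons PF.nil PF.nil)))))))) (PF.cons (PF.cons (PF.cons (PF.leaf (nat_lit 8185556) (nat_lit 4072758) (nat_lit 38204227)
 (nat_lit 4072758) [(nat_lit 0), (nat_lit 0), (nat_lit 6207956)]) (PF.cons (PF.leaf (nat_lit 8480214) (nat_lit 522080) (nat_lit 37778730) (nat_lit 4064958) [(nat_lit 522080), (nat_lit 0), (nat_lit 6185760)]) (PF.cons (PF.leaf (nat_lit 8781031) (nat_lit 527735) (nat_lit 37348684) (nat_lit 4056042) [(nat_lit 527735), (nat_lit 0), (nat_lit 6162153)]) (PF.cons (PF.leaf (nat_lit 9086325) (nat_lit 532587) (nat_lit 36916065) (nat_lit 4046054) [(nat_lit 532587), (nat_lit 0), (nat_lit 6137232)]) (PF.cons (PF.leaf (nat_lit 9395048) (nat_lit 536749) (nat_lit 36482420) (nat_lit 4035041) [(nat_lit 536749), (nat_lit 0), (nat_lit 6111088)]) (PF.cons (PF.leaf (nat_lit 9706316) (nat_lit 540309) (nat_lit 36048985) (nat_lit 4023056) [(nat_lit 540309), (nat_lit 0), (nat_lit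 6083806)]) (PF.cons (PF.leaf (nat_lit 10019439) (nat_lit 543336) (nat_lit 35616767) (nat_lit 4010150) [(nat_lit 543336), (nat_lit 0), (nat_lit 6055469)]) (PF.cons PF.nil PF.nil)))))))) (PF.cons (PF.cons (PF.leaf (nat_lit 8981177) (nat_lit 2051838) (nat_lit 36583856) (nat_lit 4030318) [(nat_lit 0), (nat_lit 2051838), (nat_lit 6110699)]) (PF.cons (PF.leaf (nat_lit 9279258) (nat_lit 530803) (nat_lit 36166938) (nat_lit 4019334)
 [(nat_lit 530803), (nat_lit 2051950), (nat_lit 6084946)]) (PF.cons (PF.leaf (nat_lit 9581498) (nat_lit 534820) (nat_lit 35748398) (nat_lit 4007393) [(nat_lit 534820), (nat_lit 2051283), (nat_lit 6058024)]) (PF.cons (PF.leaf (nat_lit 9886583) (nat_lit 538222) (nat_lit 35329612) (nat_lit 3994546) [(nat_lit 538222), (nat_lit 2049877), (nat_lit 6030027)]) (PF.cons (PF.leaf (nat_lit 10193731) (nat_lit 541087) (nat_lit 34911674) (nat_lit 3980847) [(nat_lit 541087), (nat_lit 2047771), (nat_lit 6001042)]) (PF.cons PF.nil PF.nil)))))) (PF.cons (PF.cons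 (PF.leaf (nat_lit 9764572) (nat_lit 2041112) (nat_lit 35033410) (nat_lit 3978454) [(nat_lit 0), (nat_lit 2041112), (nat_lit 6003681)]) (PF.cons (PF.leaf (nat_lit 10062933) (nat_lit 535755) (nat_lit 34629418) (nat_lit 3964891) [(nat_lit 535755), (nat_lit 2039061), (nat_lit 5975156)]) (PF.cons (PF.leaf (nat_lit 10363970) (nat_lit 538501) (nat_lit 34225785) (nat_lit 3950531) [(nat_lit 538501), (nat_lit 2036360), (nat_lit 5945693)]) (PF.cons (PF.leaf (nat_lit 10666646) (nat_lit 540768) (nat_lit 33823481) (nat_lit 3935425) [(nat_lit 540768), (nat_lit 2033046), (nat_lit 5915377)]) PF.nil)))) (PF.cons (PF.cons (PF.leaf (nat_lit 10530942) (nat_lit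
 2024256) (nat_lit 33558373) (nat_lit 3919337) [(nat_lit 0), (nat_lit 2024256), (nat_lit 5889583)]) (PF.cons (PF.leaf (nat_lit 10827316) (nat_lit 537774) (nat_lit 33169941) (nat_lit 3903742) [(nat_lit 537774), (nat_lit 2020465), (nat_lit 5858989)]) PF.nil)) (PF.cons PF.nil (PF.cons PF.nil PF.nil)))))) (PF.cons (PF.cons (PF.cons (PF.leaf (nat_lit 9649963) (nat_lit 3896634) (nat_lit 33828657) (nat_lit 3896634) [(nat_lit 0), (nat_lit 0), (nat_lit 5876704)]) (PF.cons (PF.leaf (nat_lit 9935147) (nat_lit 519513) (nat_lit 33458665) (nat_lit 3883678) [(nat_lit 519513), (nat_lit 0), (nat_lit 5849391)]) (PF.cons (PF.leaf (nat_lit 10224050) (nat_lit 522870) (nat_lit 33087419) (nat_lit 3869943) [(nat_lit 522870), (nat_lit 0), (nat_lit 5821141)]) (PF.cons (PF.leaf (nat_lit 10515437) (nat_lit 525656) (nat_lit 32716104) (nat_lit 3855483) [(nat_lit 525656), (nat_lit 0), (nat_lit 5792051)]) (PF.cons (PF.leaf (nat_lit 10808561) (nat_lit 527949) (nat_lit 32345652) (nat_lit 3840350) [(nat_lit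 527949), (nat_lit 0), (nat_lit 5762202)]) (PF.cons PF.nil PF.nil)))))) (PF.cons (PF.cons (PF.leaf (nat_lit 10389718) (nat_lit 1981093) (nat_lit 32457643) (nat_lit 3839297) [(nat_lit 0), (nat_lit 1981093),
 (nat_lit 5766155)]) (PF.cons (PF.leaf (nat_lit 10674730) (nat_lit 522659) (nat_lit 32099379) (nat_lit 3824432) [(nat_lit 522659), (nat_lit 1977789), (nat_lit 5736910)]) (PF.cons (PF.leaf (nat_lit 10962144) (nat_lit 524886) (nat_lit 31741508) (nat_lit 3808930) [(nat_lit 524886), (nat_lit 1973939), (nat_lit 5706932)]) (PF.cons PF.nil PF.nil)))) (PF.cons (PF.cons (PF.leaf (nat_lit 11113248) (nat_lit 1960816) (nat_lit 31153276) (nat_lit 3777019) [(nat_lit 0), (nat_lit 1960816), (nat_lit 5651376)]) (PF.cons PF.nil PF.nil)) (PF.cons PF.nil PF.nil)))) (PF.cons (PF.cons (PF.cons (PF.leaf (nat_lit 10960006) (nat_lit 3701001) (nat_lit 30196499) (nat_lit 3701001) [(nat_lit 0), (nat_lit 0), (nat_lit 5535218)]) (PF.cons (PF.leaf (nat_lit 11232767) (nat_lit 508848) (nat_lit 29877675)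 (nat_lit 3685556) [(nat_lit 508848), (nat_lit 0), (nat_lit 5506122)]) (PF.cons PF.nil (PF.cons PF.nil PF.nil)))) (PF.cons (PF.cons (PF.leaf (nat_lit 11645591) (nat_lit 1897314) (nat_lit 29038507) (nat_lit 3637891) [(nat_lit 0), (nat_lit 1897314), (nat_lit 5422516)]) (PF.cons PF.nil PF.nil)) PF.nil)) (PF.cons PF.nil (PF.cons PF.nil (PF.cons PF.nil (PF.cons PF.nil (PF.cons PF.nil PF.nil))))))))))))

def p15_34_0_0 : pfC (piC [(nat_lit 38632330), (nat_lit 24534081), (nat_lit 15702173)] (nat_lit 18515096)) p15_34_0 (nat_lit 3) (nat_lit 0) (nat_lit 1) = true := by decide +kernel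
def p15_34_0_1 : pfC (piC [(nat_lit 38632330), (nat_lit 24534081), (nat_lit 15702173)] (nat_lit 18515096)) p15_34_0 (nat_lit 3) (nat_lit 1) (nat_lit 2) = true := by decide +kernel
def p15_34_0_2 : pfC (piC [(nat_lit 38632330), (nat_lit 24534081), (nat_lit 15702173)] (nat_lit 18515096)) p15_34_0 (nat_lit 3) (nat_lit 2) (nat_lit 3) = true := by decide +kernel
def p15_34_0_3 : pfC (piC [(nat_lit 38632330), (nat_lit 24534081), (nat_lit 15702173)] (nat_lit 18515096)) p15_34_0 (nat_lit 3) (nat_lit 3) (nat_lit 4) = true := by decide +kernel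
def p15_34_0_4 : pfC (piC [(nat_lit 38632330), (nat_lit 24534081), (nat_lit 15702173)] (nat_lit 18515096)) p15_34_0 (nat_lit 3) (nat_lit 4) (nat_lit 5) = true := by decide +kernel
def p15_34_0_5 : pfC (piC [(nat_lit 38632330), (nat_lit 24534081), (nat_lit 15702173)] (nat_lit 18515096)) p15_34_0 (nat_lit 3) (nat_lit 5) (nat_lit 6) = true := by decide +kernel
def p15_34_0_6 : pfC (piC [(nat_lit 38632330), (nat_lit 24534081), (nat_lit 15702173)] (nat_lit 18515096)) p15_34_0 (nat_lit 3) (nat_lit 6) (nat_lit 7) = true := by decide +kernel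
def p15_34_0_7 : pfC (piC [(nat_lit 38632330), (nat_lit 24534081), (nat_lit 15702173)] (nat_lit 18515096)) p15_34_0 (nat_lit 3) (nat_lit 7) (nat_lit 8) = true := by decide +kernel
def p15_34_0_8 : pfC (piC [(nat_lit 38632330), (nat_lit 24534081), (nat_lit 15702173)] (nat_lit 18515096)) p15_34_0 (nat_lit 3) (nat_lit 8) (nat_lit 9) = true := by decide +kernel
def p15_34_0_9 : pfC (piC [(nat_lit 38632330), (nat_lit 24534081), (nat_lit 15702173)] (nat_lit 18515096)) p15_34_0 (nat_lit 3) (nat_lit 9) (nat_lit 10) = true := by decide +kernel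
def p15_34_0_10 : pfC (piC [(nat_lit 38632330), (nat_lit 24534081), (nat_lit 15702173)] (nat_lit 18515096)) p15_34_0 (nat_lit 3) (nat_lit 10) (nat_lit 11) = true := by decide +kernel
def p15_34_0_11 : pfC (piC [(nat_lit 38632330), (nat_lit 24534081), (nat_lit 15702173)] (nat_lit 18515096)) p15_34_0 (nat_lit 3) (nat_lit 11) (nat_lit 12) = true := by decide +kernel
def p15_34_0_12 : pfC (piC [(nat_lit 38632330), (nat_lit 24534081), (nat_lit 15702173)] (nat_lit 18515096)) p15_34_0 (nat_lit 3) (nat_lit 12) (nat_lit 13) = true := by decide +kernel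
def p15_34_0_13 : pfC (piC [(nat_lit 38632330), (nat_lit 24534081), (nat_lit 15702173)] (nat_lit 18515096)) p15_34_0 (nat_lit 3) (nat_lit 13) (nat_lit 14) = true := by decide +kernel
def p15_34_0_14 : pfC (piC [(nat_lit 38632330), (nat_lit 24534081), (nat_lit 15702173)] (nat_lit 18515096)) p15_34_0 (nat_lit 3) (nat_lit 14) (nat_lit 15) = true := by decide +kernel
def p15_34_0_15 : pfC (piC [(nat_lit 38632330), (nat_lit 24534081), (nat_lit 15702173)] (nat_lit 18515096)) p15_34_0 (nat_lit 3) (nat_lit 15) (nat_lit 16) = true := by decide +kernel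
def p15_34_0_16 : pfC (piC [(nat_lit 38632330), (nat_lit 24534081), (nat_lit 15702173)] (nat_lit 18515096)) p15_34_0 (nat_lit 3) (nat_lit 16) (nat_lit 17) = true := by decide +kernel
def p15_34_0_17 : pfC (piC [(nat_lit 38632330), (nat_lit 24534081), (nat_lit 15702173)] (nat_lit 18515096)) p15_34_0 (nat_lit 3) (nat_lit 17) (nat_lit 18) = true := by decide +kernel
def p15_34_0_18 : pfC (piC [(nat_lit 38632330), (nat_lit 24534081), (nat_lit 15702173)] (nat_lit 18515096)) p15_34_0 (nat_lit 3) (nat_lit 18) (nat_lit 19) = true := by decide +kernel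
def p15_34_0_19 : pfC (piC [(nat_lit 38632330), (nat_lit 24534081), (nat_lit 15702173)] (nat_lit 18515096)) p15_34_0 (nat_lit 3) (nat_lit 19) (nat_lit 20) = true := by decide +kernel
def p15_34_0_20 : pfC (piC [(nat_lit 38632330), (nat_lit 24534081), (nat_lit 15702173)] (nat_lit 18515096)) p15_34_0 (nat_lit 3) (nat_lit 20) (nat_lit 21) = true := by decide +kernel
def p15_34_0_21 : pfC (piC [(nat_lit 38632330), (nat_lit 24534081), (nat_lit 15702173)] (nat_lit 18515096)) p15_34_0 (nat_lit 3) (nat_lit 21) (nat_lit 22) = true := by decide +kernel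
def p15_34_0_22 : pfC (piC [(nat_lit 38632330), (nat_lit 24534081), (nat_lit 15702173)] (nat_lit 18515096)) p15_34_0 (nat_lit 3) (nat_lit 22) (nat_lit 23) = true := by decide +kernel
def p15_34_0_23 : pfC (piC [(nat_lit 38632330), (nat_lit 24534081), (nat_lit 15702173)] (nat_lit 18515096)) p15_34_0 (nat_lit 3) (nat_lit 23) (nat_lit 24) = true := by decide +kernel
def p15_34_0_24 : pfC (piC [(nat_lit 38632330), (nat_lit 24534081), (nat_lit 15702173)] (nat_lit 18515096)) p15_34_0 (nat_lit 3) (nat_lit 24) (nat_lit 25) = true := by decide +kernel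
def p15_34_0_25 : pfC (piC [(nat_lit 38632330), (nat_lit 24534081), (nat_lit 15702173)] (nat_lit 18515096)) p15_34_0 (nat_lit 3) (nat_lit 25) (nat_lit 26) = true := by decide +kernel
def p15_34_0_26 : pfC (piC [(nat_lit 38632330), (nat_lit 24534081), (nat_lit 15702173)] (nat_lit 18515096)) p15_34_0 (nat_lit 3) (nat_lit 26) (nat_lit 27) = true := by decide +kernel
def p15_34_0_27 : pfC (piC [(nat_lit 38632330), (nat_lit 24534081), (nat_lit 15702173)] (nat_lit 18515096)) p15_34_0 (nat_lit 3) (nat_lit 27) (nat_lit 28) = true := by decide +kernel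
def p15_34_0_28 : pfC (piC [(nat_lit 38632330), (nat_lit 24534081), (nat_lit 15702173)] (nat_lit 18515096)) p15_34_0 (nat_lit 3) (nat_lit 28) (nat_lit 29) = true := by decide +kernel
def p15_34_0_29 : pfC (piC [(nat_lit 38632330), (nat_lit 24534081), (nat_lit 15702173)] (nat_lit 18515096)) p15_34_0 (nat_lit 3) (nat_lit 29) (nat_lit 30) = true := by decide +kernel
def p15_34_0_30 : pfC (piC [(nat_lit 38632330), (nat_lit 24534081), (nat_lit 15702173)] (nat_lit 18515096)) p15_34_0 (nat_lit 3) (nat_lit 30) (nat_lit 31) = true := by decide +kernel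
def p15_34_0_31 : pfC (piC [(nat_lit 38632330), (nat_lit 24534081), (nat_lit 15702173)] (nat_lit 18515096)) p15_34_0 (nat_lit 3) (nat_lit 31) (nat_lit 32) = true := by decide +kernel
def p15_34_0_32 : pfC (piC [(nat_lit 38632330), (nat_lit 24534081), (nat_lit 15702173)] (nat_lit 18515096)) p15_34_0 (nat_lit 3) (nat_lit 32) (nat_lit 33) = true := by decide +kernel
def p15_34_0_33 : pfC (piC [(nat_lit 38632330), (nat_lit 24534081), (nat_lit 15702173)] (nat_lit 18515096)) p15_34_0 (nat_lit 3) (nat_lit 33) (nat_lit 34) = true := by decide +kernel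
def p15_34_0_34 : pfC (piC [(nat_lit 38632330), (nat_lit 24534081), (nat_lit 15702173)] (nat_lit 18515096)) p15_34_0 (nat_lit 3) (nat_lit 34) (nat_lit 35) = true := by decide +kernel
def p15_34_0_35 : pfC (piC [(nat_lit 38632330), (nat_lit 24534081), (nat_lit 15702173)] (nat_lit 18515096)) p15_34_0 (nat_lit 3) (nat_lit 35) (nat_lit 36) = true := by decide +kernel
def p15_34_0_36 : pfC (piC [(nat_lit 38632330), (nat_lit 24534081), (nat_lit 15702173)] (nat_lit 18515096)) p15_34_0 (nat_lit 3) (nat_lit 36) (nat_lit 37) = true := by decide +kernel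
def p15_34_0_37 : pfC (piC [(nat_lit 38632330), (nat_lit 24534081), (nat_lit 15702173)] (nat_lit 18515096)) p15_34_0 (nat_lit 3) (nat_lit 37) (nat_lit 38) = true := by decide +kernel
def p15_34_0_38 : pfC (piC [(nat_lit 38632330), (nat_lit 24534081), (nat_lit 15702173)] (nat_lit 18515096)) p15_34_0 (nat_lit 3) (nat_lit 38) (nat_lit 39) = true := by decide +kernel
def p15_34_0_39 : pfC (piC [(nat_lit 38632330), (nat_lit 24534081), (nat_lit 15702173)] (nat_lit 18515096)) p15_34_0 (nat_lit 3) (nat_lit 39) (nat_lit 40) = true := by decide +kernel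
def p15_34_0_40 : pfC (piC [(nat_lit 38632330), (nat_lit 24534081), (nat_lit 15702173)] (nat_lit 18515096)) p15_34_0 (nat_lit 3) (nat_lit 40) (nat_lit 41) = true := by decide +kernel
def p15_34_0_41 : pfC (piC [(nat_lit 38632330), (nat_lit 24534081), (nat_lit 15702173)] (nat_lit 18515096)) p15_34_0 (nat_lit 3) (nat_lit 41) (nat_lit 42) = true := by decide +kernel
def p15_34_0_42 : pfC (piC [(nat_lit 38632330), (nat_lit 24534081), (nat_lit 15702173)] (nat_lit 18515096)) p15_34_0 (nat_lit 3) (nat_lit 42) (nat_lit 43) = true := by decide +kernel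
def p15_34_0_43 : pfC (piC [(nat_lit 38632330), (nat_lit 24534081), (nat_lit 15702173)] (nat_lit 18515096)) p15_34_0 (nat_lit 3) (nat_lit 43) (nat_lit 44) = true := by decide +kernel
def p15_34_0_44 : pfC (piC [(nat_lit 38632330), (nat_lit 24534081), (nat_lit 15702173)] (nat_lit 18515096)) p15_34_0 (nat_lit 3) (nat_lit 44) (nat_lit 45) = true := by decide +kernel
def p15_34_0_45 : pfC (piC [(nat_lit 38632330), (nat_lit 24534081), (nat_lit 15702173)] (nat_lit 18515096)) p15_34_0 (nat_lit 3) (nat_lit 45) (nat_lit 46) = true := by decide +kernel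
def p15_34_0_46 : pfC (piC [(nat_lit 38632330), (nat_lit 24534081), (nat_lit 15702173)] (nat_lit 18515096)) p15_34_0 (nat_lit 3) (nat_lit 46) (nat_lit 47) = true := by decide +kernel
def p15_34_0_47 : pfC (piC [(nat_lit 38632330), (nat_lit 24534081), (nat_lit 15702173)] (nat_lit 18515096)) p15_34_0 (nat_lit 3) (nat_lit 47) (nat_lit 48) = true := by decide +kernel
def p15_34_0_48 : pfC (piC [(nat_lit 38632330), (nat_lit 24534081), (nat_lit 15702173)] (nat_lit 18515096)) p15_34_0 (nat_lit 3) (nat_lit 48) (nat_lit 49) = true := by decide +kernel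
def p15_34_0_49 : pfC (piC [(nat_lit 38632330), (nat_lit 24534081), (nat_lit 15702173)] (nat_lit 18515096)) p15_34_0 (nat_lit 3) (nat_lit 49) (nat_lit 50) = true := by decide +kernel
def p15_34_0_50 : pfC (piC [(nat_lit 38632330), (nat_lit 24534081), (nat_lit 15702173)] (nat_lit 18515096)) p15_34_0 (nat_lit 3) (nat_lit 50) (nat_lit 51) = true := by decide +kernel
def p15_34_0_51 : pfC (piC [(nat_lit 38632330), (nat_lit 24534081), (nat_lit 15702173)] (nat_lit 18515096)) p15_34_0 (nat_lit 3) (nat_lit 51) (nat_lit 52) = true := by decide +kernel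
def p15_34_0_52 : pfC (piC [(nat_lit 38632330), (nat_lit 24534081), (nat_lit 15702173)] (nat_lit 18515096)) p15_34_0 (nat_lit 3) (nat_lit 52) (nat_lit 53) = true := by decide +kernel
def p15_34_0_53 : pfC (piC [(nat_lit 38632330), (nat_lit 24534081), (nat_lit 15702173)] (nat_lit 18515096)) p15_34_0 (nat_lit 3) (nat_lit 53) (nat_lit 54) = true := by decide +kernel
def p15_34_0_54 : pfC (piC [(nat_lit 38632330), (nat_lit 24534081), (nat_lit 15702173)] (nat_lit 18515096)) p15_34_0 (nat_lit 3) (nat_lit 54) (nat_lit 55) = true := by decide +kernel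
def p15_34_0_55 : pfC (piC [(nat_lit 38632330), (nat_lit 24534081), (nat_lit 15702173)] (nat_lit 18515096)) p15_34_0 (nat_lit 3) (nat_lit 55) (nat_lit 56) = true := by decide +kernel
def p15_34_0_56 : pfC (piC [(nat_lit 38632330), (nat_lit 24534081), (nat_lit 15702173)] (nat_lit 18515096)) p15_34_0 (nat_lit 3) (nat_lit 56) (nat_lit 57) = true := by decide +kernel
def p15_34_0_57 : pfC (piC [(nat_lit 38632330), (nat_lit 24534081), (nat_lit 15702173)] (nat_lit 18515096)) p15_34_0 (nat_lit 3) (nat_lit 57) (nat_lit 58) = true := by decide +kernel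
def p15_34_0_58 : pfC (piC [(nat_lit 38632330), (nat_lit 24534081), (nat_lit 15702173)] (nat_lit 18515096)) p15_34_0 (nat_lit 3) (nat_lit 58) (nat_lit 59) = true := by decide +kernel
def p15_34_0_59 : pfC (piC [(nat_lit 38632330), (nat_lit 24534081), (nat_lit 15702173)] (nat_lit 18515096)) p15_34_0 (nat_lit 3) (nat_lit 59) (nat_lit 60) = true := by decide +kernel
def p15_34_0_60 : pfC (piC [(nat_lit 38632330), (nat_lit 24534081), (nat_lit 15702173)] (nat_lit 18515096)) p15_34_0 (nat_lit 3) (nat_lit 60) (nat_lit 61) = true := by decide +kernel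
def p15_34_0_61 : pfC (piC [(nat_lit 38632330), (nat_lit 24534081), (nat_lit 15702173)] (nat_lit 18515096)) p15_34_0 (nat_lit 3) (nat_lit 61) (nat_lit 62) = true := by decide +kernel
def p15_34_0_62 : pfC (piC [(nat_lit 38632330), (nat_lit 24534081), (nat_lit 15702173)] (nat_lit 18515096)) p15_34_0 (nat_lit 3) (nat_lit 62) (nat_lit 63) = true := by decide +kernel
def p15_34_0_63 : pfC (piC [(nat_lit 38632330), (nat_lit 24534081), (nat_lit 15702173)] (nat_lit 18515096)) p15_34_0 (nat_lit 3) (nat_lit 63) (nat_lit 64) = true := by decide +kernel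
def p15_34_0_64 : pfC (piC [(nat_lit 38632330), (nat_lit 24534081), (nat_lit 15702173)] (nat_lit 18515096)) p15_34_0 (nat_lit 3) (nat_lit 64) (nat_lit 65) = true := by decide +kernel
def p15_34_0_65 : pfC (piC [(nat_lit 38632330), (nat_lit 24534081), (nat_lit 15702173)] (nat_lit 18515096)) p15_34_0 (nat_lit 3) (nat_lit 65) (nat_lit 66) = true := by decide +kernel
def p15_34_0_66 : pfC (piC [(nat_lit 38632330), (nat_lit 24534081), (nat_lit 15702173)] (nat_lit 18515096)) p15_34_0 (nat_lit 3) (nat_lit 66) (nat_lit 67) = true := by decide +kernel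
def p15_34_0_67 : pfC (piC [(nat_lit 38632330), (nat_lit 24534081), (nat_lit 15702173)] (nat_lit 18515096)) p15_34_0 (nat_lit 3) (nat_lit 67) (nat_lit 68) = true := by decide +kernel
def p15_34_0_68 : pfC (piC [(nat_lit 38632330), (nat_lit 24534081), (nat_lit 15702173)] (nat_lit 18515096)) p15_34_0 (nat_lit 3) (nat_lit 68) (nat_lit 69) = true := by decide +kernel
def p15_34_0_69 : pfC (piC [(nat_lit 38632330), (nat_lit 24534081), (nat_lit 15702173)] (nat_lit 18515096)) p15_34_0 (nat_lit 3) (nat_lit 69) (nat_lit 70) = true := by decide +kernel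
def p15_34_0_70 : pfC (piC [(nat_lit 38632330), (nat_lit 24534081), (nat_lit 15702173)] (nat_lit 18515096)) p15_34_0 (nat_lit 3) (nat_lit 70) (nat_lit 71) = true := by decide +kernel
def p15_34_0_71 : pfC (piC [(nat_lit 38632330), (nat_lit 24534081), (nat_lit 15702173)] (nat_lit 18515096)) p15_34_0 (nat_lit 3) (nat_lit 71) (nat_lit 72) = true := by decide +kernel
def p15_34_0_72 : pfC (piC [(nat_lit 38632330), (nat_lit 24534081), (nat_lit 15702173)] (nat_lit 18515096)) p15_34_0 (nat_lit 3) (nat_lit 72) (nat_lit 73) = true := by decide +kernel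
def p15_34_0_73 : pfC (piC [(nat_lit 38632330), (nat_lit 24534081), (nat_lit 15702173)] (nat_lit 18515096)) p15_34_0 (nat_lit 3) (nat_lit 73) (nat_lit 74) = true := by decide +kernel
def p15_34_0_74 : pfC (piC [(nat_lit 38632330), (nat_lit 24534081), (nat_lit 15702173)] (nat_lit 18515096)) p15_34_0 (nat_lit 3) (nat_lit 74) (nat_lit 75) = true := by decide +kernel
def p15_34_0_75 : pfC (piC [(nat_lit 38632330), (nat_lit 24534081), (nat_lit 15702173)] (nat_lit 18515096)) p15_34_0 (nat_lit 3) (nat_lit 75) (nat_lit 76) = true := by decide +kernel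
def p15_34_0_76 : pfC (piC [(nat_lit 38632330), (nat_lit 24534081), (nat_lit 15702173)] (nat_lit 18515096)) p15_34_0 (nat_lit 3) (nat_lit 76) (nat_lit 77) = true := by decide +kernel
def p15_34_0_77 : pfC (piC [(nat_lit 38632330), (nat_lit 24534081), (nat_lit 15702173)] (nat_lit 18515096)) p15_34_0 (nat_lit 3) (nat_lit 77) (nat_lit 78) = true := by decide +kernel
def p15_34_0_78 : pfC (piC [(nat_lit 38632330), (nat_lit 24534081), (nat_lit 15702173)] (nat_lit 18515096)) p15_34_0 (nat_lit 3) (nat_lit 78) (nat_lit 79) = true := by decide +kernel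
def p15_34_0_79 : pfC (piC [(nat_lit 38632330), (nat_lit 24534081), (nat_lit 15702173)] (nat_lit 18515096)) p15_34_0 (nat_lit 3) (nat_lit 79) (nat_lit 80) = true := by decide +kernel
def p15_34_0_80 : pfC (piC [(nat_lit 38632330), (nat_lit 24534081), (nat_lit 15702173)] (nat_lit 18515096)) p15_34_0 (nat_lit 3) (nat_lit 80) (nat_lit 81) = true := by decide +kernel
def p15_34_0_81 : pfC (piC [(nat_lit 38632330), (nat_lit 24534081), (nat_lit 15702173)] (nat_lit 18515096)) p15_34_0 (nat_lit 3) (nat_lit 81) (nat_lit 82) = true := by decide +kernel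
def p15_34_0_82 : pfC (piC [(nat_lit 38632330), (nat_lit 24534081), (nat_lit 15702173)] (nat_lit 18515096)) p15_34_0 (nat_lit 3) (nat_lit 82) (nat_lit 83) = true := by decide +kernel
def p15_34_0_83 : pfC (piC [(nat_lit 38632330), (nat_lit 24534081), (nat_lit 15702173)] (nat_lit 18515096)) p15_34_0 (nat_lit 3) (nat_lit 83) (nat_lit 84) = true := by decide +kernel
def p15_34_0_84 : pfC (piC [(nat_lit 38632330), (nat_lit 24534081), (nat_lit 15702173)] (nat_lit 18515096)) p15_34_0 (nat_lit 3) (nat_lit 84) (nat_lit 85) = true := by decide +kernel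
def p15_34_0_85 : pfC (piC [(nat_lit 38632330), (nat_lit 24534081), (nat_lit 15702173)] (nat_lit 18515096)) p15_34_0 (nat_lit 3) (nat_lit 85) (nat_lit 86) = true := by decide +kernel
def p15_34_0_86 : pfC (piC [(nat_lit 38632330), (nat_lit 24534081), (nat_lit 15702173)] (nat_lit 18515096)) p15_34_0 (nat_lit 3) (nat_lit 86) (nat_lit 87) = true := by decide +kernel
def p15_34_0_87 : pfC (piC [(nat_lit 38632330), (nat_lit 24534081), (nat_lit 15702173)] (nat_lit 18515096)) p15_34_0 (nat_lit 3) (nat_lit 87) (nat_lit 88) = true := by decide +kernel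
def p15_34_0_88 : pfC (piC [(nat_lit 38632330), (nat_lit 24534081), (nat_lit 15702173)] (nat_lit 18515096)) p15_34_0 (nat_lit 3) (nat_lit 88) (nat_lit 89) = true := by decide +kernel
def p15_34_0_89 : pfC (piC [(nat_lit 38632330), (nat_lit 24534081), (nat_lit 15702173)] (nat_lit 18515096)) p15_34_0 (nat_lit 3) (nat_lit 89) (nat_lit 90) = true := by decide +kernel
def p15_34_0_90 : pfC (piC [(nat_lit 38632330), (nat_lit 24534081), (nat_lit 15702173)] (nat_lit 18515096)) p15_34_0 (nat_lit 3) (nat_lit 90) (nat_lit 91) = true := by decide +kernel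
def p15_34_0_91 : pfC (piC [(nat_lit 38632330), (nat_lit 24534081), (nat_lit 15702173)] (nat_lit 18515096)) p15_34_0 (nat_lit 3) (nat_lit 91) (nat_lit 92) = true := by decide +kernel
def p15_34_0_92 : pfC (piC [(nat_lit 38632330), (nat_lit 24534081), (nat_lit 15702173)] (nat_lit 18515096)) p15_34_0 (nat_lit 3) (nat_lit 92) (nat_lit 93) = true := by decide +kernel
def p15_34_0_93 : pfC (piC [(nat_lit 38632330), (nat_lit 24534081), (nat_lit 15702173)] (nat_lit 18515096)) p15_34_0 (nat_lit 3) (nat_lit 93) (nat_lit 94) = true := by decide +kernel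
def p15_34_0_94 : pfC (piC [(nat_lit 38632330), (nat_lit 24534081), (nat_lit 15702173)] (nat_lit 18515096)) p15_34_0 (nat_lit 3) (nat_lit 94) (nat_lit 95) = true := by decide +kernel
def p15_34_0_95 : pfC (piC [(nat_lit 38632330), (nat_lit 24534081), (nat_lit 15702173)] (nat_lit 18515096)) p15_34_0 (nat_lit 3) (nat_lit 95) (nat_lit 96) = true := by decide +kernel
def p15_34_0_96 : pfC (piC [(nat_lit 38632330), (nat_lit 24534081), (nat_lit 15702173)] (nat_lit 18515096)) p15_34_0 (nat_lit 3) (nat_lit 96) (nat_lit 97) = true := by decide +kernel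
def p15_34_0_97 : pfC (piC [(nat_lit 38632330), (nat_lit 24534081), (nat_lit 15702173)] (nat_lit 18515096)) p15_34_0 (nat_lit 3) (nat_lit 97) (nat_lit 98) = true := by decide +kernel
def p15_34_0_98 : pfC (piC [(nat_lit 38632330), (nat_lit 24534081), (nat_lit 15702173)] (nat_lit 18515096)) p15_34_0 (nat_lit 3) (nat_lit 98) (nat_lit 99) = true := by decide +kernel
def p15_34_0_99 : pfC (piC [(nat_lit 38632330), (nat_lit 24534081), (nat_lit 15702173)] (nat_lit 18515096)) p15_34_0 (nat_lit 3) (nat_lit 99) (nat_lit 100) = true := by decide +kernel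
def p15_34_0_100 : pfC (piC [(nat_lit 38632330), (nat_lit 24534081), (nat_lit 15702173)] (nat_lit 18515096)) p15_34_0 (nat_lit 3) (nat_lit 100) (nat_lit 101) = true := by decide +kernel
def p15_34_0_101 : pfC (piC [(nat_lit 38632330), (nat_lit 24534081), (nat_lit 15702173)] (nat_lit 18515096)) p15_34_0 (nat_lit 3) (nat_lit 101) (nat_lit 102) = true := by decide +kernel
def p15_34_0_102 : pfC (piC [(nat_lit 38632330), (nat_lit 24534081), (nat_lit 15702173)] (nat_lit 18515096)) p15_34_0 (nat_lit 3) (nat_lit 102) (nat_lit 103) = true := by decide +kernel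
def p15_34_0_103 : pfC (piC [(nat_lit 38632330), (nat_lit 24534081), (nat_lit 15702173)] (nat_lit 18515096)) p15_34_0 (nat_lit 3) (nat_lit 103) (nat_lit 104) = true := by decide +kernel
def p15_34_0_104 : pfC (piC [(nat_lit 38632330), (nat_lit 24534081), (nat_lit 15702173)] (nat_lit 18515096)) p15_34_0 (nat_lit 3) (nat_lit 104) (nat_lit 105) = true := by decide +kernel
def p15_34_0_105 : pfC (piC [(nat_lit 38632330), (nat_lit 24534081), (nat_lit 15702173)] (nat_lit 18515096)) p15_34_0 (nat_lit 3) (nat_lit 105) (nat_lit 106) = true := by decide +kernel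
def p15_34_0_106 : pfC (piC [(nat_lit 38632330), (nat_lit 24534081), (nat_lit 15702173)] (nat_lit 18515096)) p15_34_0 (nat_lit 3) (nat_lit 106) (nat_lit 107) = true := by decide +kernel
def p15_34_0_107 : pfC (piC [(nat_lit 38632330), (nat_lit 24534081), (nat_lit 15702173)] (nat_lit 18515096)) p15_34_0 (nat_lit 3) (nat_lit 107) (nat_lit 108) = true := by decide +kernel
def p15_34_0_108 : pfC (piC [(nat_lit 38632330), (nat_lit 24534081), (nat_lit 15702173)] (nat_lit 18515096)) p15_34_0 (nat_lit 3) (nat_lit 108) (nat_lit 109) = true := by decide +kernel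
def p15_34_0_109 : pfC (piC [(nat_lit 38632330), (nat_lit 24534081), (nat_lit 15702173)] (nat_lit 18515096)) p15_34_0 (nat_lit 3) (nat_lit 109) (nat_lit 110) = true := by decide +kernel
def p15_34_0_110 : pfC (piC [(nat_lit 38632330), (nat_lit 24534081), (nat_lit 15702173)] (nat_lit 18515096)) p15_34_0 (nat_lit 3) (nat_lit 110) (nat_lit 111) = true := by decide +kernel
def p15_34_0_111 : pfC (piC [(nat_lit 38632330), (nat_lit 24534081), (nat_lit 15702173)] (nat_lit 18515096)) p15_34_0 (nat_lit 3) (nat_lit 111) (nat_lit 112) = true := by decide +kernel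
def p15_34_0_112 : pfC (piC [(nat_lit 38632330), (nat_lit 24534081), (nat_lit 15702173)] (nat_lit 18515096)) p15_34_0 (nat_lit 3) (nat_lit 112) (nat_lit 113) = true := by decide +kernel
def p15_34_0_113 : pfC (piC [(nat_lit 38632330), (nat_lit 24534081), (nat_lit 15702173)] (nat_lit 18515096)) p15_34_0 (nat_lit 3) (nat_lit 113) (nat_lit 114) = true := by decide +kernel
def p15_34_0_114 : pfC (piC [(nat_lit 38632330), (nat_lit 24534081), (nat_lit 15702173)] (nat_lit 18515096)) p15_34_0 (nat_lit 3) (nat_lit 114) (nat_lit 115) = true := by decide +kernel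
def p15_34_0_115 : pfC (piC [(nat_lit 38632330), (nat_lit 24534081), (nat_lit 15702173)] (nat_lit 18515096)) p15_34_0 (nat_lit 3) (nat_lit 115) (nat_lit 116) = true := by decide +kernel
def p15_34_0_116 : pfC (piC [(nat_lit 38632330), (nat_lit 24534081), (nat_lit 15702173)] (nat_lit 18515096)) p15_34_0 (nat_lit 3) (nat_lit 116) (nat_lit 117) = true := by decide +kernel
def p15_34_0_117 : pfC (piC [(nat_lit 38632330), (nat_lit 24534081), (nat_lit 15702173)] (nat_lit 18515096)) p15_34_0 (nat_lit 3) (nat_lit 117) (nat_lit 118) = true := by decide +kernel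
def p15_34_0_118 : pfC (piC [(nat_lit 38632330), (nat_lit 24534081), (nat_lit 15702173)] (nat_lit 18515096)) p15_34_0 (nat_lit 3) (nat_lit 118) (nat_lit 119) = true := by decide +kernel
def p15_34_0_119 : pfC (piC [(nat_lit 38632330), (nat_lit 24534081), (nat_lit 15702173)] (nat_lit 18515096)) p15_34_0 (nat_lit 3) (nat_lit 119) (nat_lit 120) = true := by decide +kernel
def p15_34_0_120 : pfC (piC [(nat_lit 38632330), (nat_lit 24534081), (nat_lit 15702173)] (nat_lit 18515096)) p15_34_0 (nat_lit 3) (nat_lit 120) (nat_lit 121) = true := by decide +kernel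
def p15_34_0_121 : pfC (piC [(nat_lit 38632330), (nat_lit 24534081), (nat_lit 15702173)] (nat_lit 18515096)) p15_34_0 (nat_lit 3) (nat_lit 121) (nat_lit 122) = true := by decide +kernel
def p15_34_0_122 : pfC (piC [(nat_lit 38632330), (nat_lit 24534081), (nat_lit 15702173)] (nat_lit 18515096)) p15_34_0 (nat_lit 3) (nat_lit 122) (nat_lit 123) = true := by decide +kernel
def p15_34_0_123 : pfC (piC [(nat_lit 38632330), (nat_lit 24534081), (nat_lit 15702173)] (nat_lit 18515096)) p15_34_0 (nat_lit 3) (nat_lit 123) (nat_lit 124) = true := by decide +kernel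
def p15_34_0_124 : pfC (piC [(nat_lit 38632330), (nat_lit 24534081), (nat_lit 15702173)] (nat_lit 18515096)) p15_34_0 (nat_lit 3) (nat_lit 124) (nat_lit 125) = true := by decide +kernel
def p15_34_0_125 : pfC (piC [(nat_lit 38632330), (nat_lit 24534081), (nat_lit 15702173)] (nat_lit 18515096)) p15_34_0 (nat_lit 3) (nat_lit 125) (nat_lit 126) = true := by decide +kernel
def p15_34_0_126 : pfC (piC [(nat_lit 38632330), (nat_lit 24534081), (nat_lit 15702173)] (nat_lit 18515096)) p15_34_0 (nat_lit 3) (nat_lit 126) (nat_lit 127) = true := by decide +kernel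
def p15_34_0_127 : pfC (piC [(nat_lit 38632330), (nat_lit 24534081), (nat_lit 15702173)] (nat_lit 18515096)) p15_34_0 (nat_lit 3) (nat_lit 127) (nat_lit 128) = true := by decide +kernel
def p15_34_0_128 : pfC (piC [(nat_lit 38632330), (nat_lit 24534081), (nat_lit 15702173)] (nat_lit 18515096)) p15_34_0 (nat_lit 3) (nat_lit 128) (nat_lit 129) = true := by decide +kernel
def p15_34_0_129 : pfC (piC [(nat_lit 38632330), (nat_lit 24534081), (nat_lit 15702173)] (nat_lit 18515096)) p15_34_0 (nat_lit 3) (nat_lit 129) (nat_lit 130) = true := by decide +kernel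
def p15_34_0_130 : pfC (piC [(nat_lit 38632330), (nat_lit 24534081), (nat_lit 15702173)] (nat_lit 18515096)) p15_34_0 (nat_lit 3) (nat_lit 130) (nat_lit 131) = true := by decide +kernel
def p15_34_0_131 : pfC (piC [(nat_lit 38632330), (nat_lit 24534081), (nat_lit 15702173)] (nat_lit 18515096)) p15_34_0 (nat_lit 3) (nat_lit 131) (nat_lit 132) = true := by decide +kernel
def p15_34_0_132 : pfC (piC [(nat_lit 38632330), (nat_lit 24534081), (nat_lit 15702173)] (nat_lit 18515096)) p15_34_0 (nat_lit 3) (nat_lit 132) (nat_lit 133) = true := by decide +kernel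
def p15_34_0_133 : pfC (piC [(nat_lit 38632330), (nat_lit 24534081), (nat_lit 15702173)] (nat_lit 18515096)) p15_34_0 (nat_lit 3) (nat_lit 133) (nat_lit 134) = true := by decide +kernel
def p15_34_0_134 : pfC (piC [(nat_lit 38632330), (nat_lit 24534081), (nat_lit 15702173)] (nat_lit 18515096)) p15_34_0 (nat_lit 3) (nat_lit 134) (nat_lit 135) = true := by decide +kernel
def p15_34_0_135 : pfC (piC [(nat_lit 38632330), (nat_lit 24534081), (nat_lit 15702173)] (nat_lit 18515096)) p15_34_0 (nat_lit 3) (nat_lit 135) (nat_lit 136) = true := by decide +kernel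
def p15_34_0_136 : pfC (piC [(nat_lit 38632330), (nat_lit 24534081), (nat_lit 15702173)] (nat_lit 18515096)) p15_34_0 (nat_lit 3) (nat_lit 136) (nat_lit 137) = true := by decide +kernel
def p15_34_0_137 : pfC (piC [(nat_lit 38632330), (nat_lit 24534081), (nat_lit 15702173)] (nat_lit 18515096)) p15_34_0 (nat_lit 3) (nat_lit 137) (nat_lit 138) = true := by decide +kernel
def p15_34_0_138 : pfC (piC [(nat_lit 38632330), (nat_lit 24534081), (nat_lit 15702173)] (nat_lit 18515096)) p15_34_0 (nat_lit 3) (nat_lit 138) (nat_lit 139) = true := by decide +kernel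
def p15_34_0_139 : pfC (piC [(nat_lit 38632330), (nat_lit 24534081), (nat_lit 15702173)] (nat_lit 18515096)) p15_34_0 (nat_lit 3) (nat_lit 139) (nat_lit 140) = true := by decide +kernel
def p15_34_0_140 : pfC (piC [(nat_lit 38632330), (nat_lit 24534081), (nat_lit 15702173)] (nat_lit 18515096)) p15_34_0 (nat_lit 3) (nat_lit 140) (nat_lit 141) = true := by decide +kernel
def p15_34_0_141 : pfC (piC [(nat_lit 38632330), (nat_lit 24534081), (nat_lit 15702173)] (nat_lit 18515096)) p15_34_0 (nat_lit 3) (nat_lit 141) (nat_lit 142) = true := by decide +kernel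
def p15_34_0_142 : pfC (piC [(nat_lit 38632330), (nat_lit 24534081), (nat_lit 15702173)] (nat_lit 18515096)) p15_34_0 (nat_lit 3) (nat_lit 142) (nat_lit 143) = true := by decide +kernel
def p15_34_0_143 : pfC (piC [(nat_lit 38632330), (nat_lit 24534081), (nat_lit 15702173)] (nat_lit 18515096)) p15_34_0 (nat_lit 3) (nat_lit 143) (nat_lit 144) = true := by decide +kernel
def p15_34_0_144 : pfC (piC [(nat_lit 38632330), (nat_lit 24534081), (nat_lit 15702173)] (nat_lit 18515096)) p15_34_0 (nat_lit 3) (nat_lit 144) (nat_lit 145) = true := by decide +kernel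
def p15_34_0_145 : pfC (piC [(nat_lit 38632330), (nat_lit 24534081), (nat_lit 15702173)] (nat_lit 18515096)) p15_34_0 (nat_lit 3) (nat_lit 145) (nat_lit 146) = true := by decide +kernel
def p15_34_0_146 : pfC (piC [(nat_lit 38632330), (nat_lit 24534081), (nat_lit 15702173)] (nat_lit 18515096)) p15_34_0 (nat_lit 3) (nat_lit 146) (nat_lit 147) = true := by decide +kernel
def p15_34_0_147 : pfC (piC [(nat_lit 38632330), (nat_lit 24534081), (nat_lit 15702173)] (nat_lit 18515096)) p15_34_0 (nat_lit 3) (nat_lit 147) (nat_lit 148) = true := by decide +kernel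
def p15_34_0_148 : pfC (piC [(nat_lit 38632330), (nat_lit 24534081), (nat_lit 15702173)] (nat_lit 18515096)) p15_34_0 (nat_lit 3) (nat_lit 148) (nat_lit 149) = true := by decide +kernel
def p15_34_0_149 : pfC (piC [(nat_lit 38632330), (nat_lit 24534081), (nat_lit 15702173)] (nat_lit 18515096)) p15_34_0 (nat_lit 3) (nat_lit 149) (nat_lit 150) = true := by decide +kernel
def p15_34_0_150 : pfC (piC [(nat_lit 38632330), (nat_lit 24534081), (nat_lit 15702173)] (nat_lit 18515096)) p15_34_0 (nat_lit 3) (nat_lit 150) (nat_lit 151) = true := by decide +kernel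
def p15_34_0_151 : pfC (piC [(nat_lit 38632330), (nat_lit 24534081), (nat_lit 15702173)] (nat_lit 18515096)) p15_34_0 (nat_lit 3) (nat_lit 151) (nat_lit 152) = true := by decide +kernel
def p15_34_0_152 : pfC (piC [(nat_lit 38632330), (nat_lit 24534081), (nat_lit 15702173)] (nat_lit 18515096)) p15_34_0 (nat_lit 3) (nat_lit 152) (nat_lit 153) = true := by decide +kernel
def p15_34_0_153 : pfC (piC [(nat_lit 38632330), (nat_lit 24534081), (nat_lit 15702173)] (nat_lit 18515096)) p15_34_0 (nat_lit 3) (nat_lit 153) (nat_lit 154) = true := by decide +kernel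
def p15_34_0_154 : pfC (piC [(nat_lit 38632330), (nat_lit 24534081), (nat_lit 15702173)] (nat_lit 18515096)) p15_34_0 (nat_lit 3) (nat_lit 154) (nat_lit 155) = true := by decide +kernel
def p15_34_0_155 : pfC (piC [(nat_lit 38632330), (nat_lit 24534081), (nat_lit 15702173)] (nat_lit 18515096)) p15_34_0 (nat_lit 3) (nat_lit 155) (nat_lit 156) = true := by decide +kernel
def p15_34_0_156 : pfC (piC [(nat_lit 38632330), (nat_lit 24534081), (nat_lit 15702173)] (nat_lit 18515096)) p15_34_0 (nat_lit 3) (nat_lit 156) (nat_lit 157) = true := by decide +kernel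
def p15_34_0_157 : pfC (piC [(nat_lit 38632330), (nat_lit 24534081), (nat_lit 15702173)] (nat_lit 18515096)) p15_34_0 (nat_lit 3) (nat_lit 157) (nat_lit 158) = true := by decide +kernel
def p15_34_0_158 : pfC (piC [(nat_lit 38632330), (nat_lit 24534081), (nat_lit 15702173)] (nat_lit 18515096)) p15_34_0 (nat_lit 3) (nat_lit 158) (nat_lit 159) = true := by decide +kernel
def p15_34_0_159 : pfC (piC [(nat_lit 38632330), (nat_lit 24534081), (nat_lit 15702173)] (nat_lit 18515096)) p15_34_0 (nat_lit 3) (nat_lit 159) (nat_lit 160) = true := by decide +kernel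
def p15_34_0_160 : pfC (piC [(nat_lit 38632330), (nat_lit 24534081), (nat_lit 15702173)] (nat_lit 18515096)) p15_34_0 (nat_lit 3) (nat_lit 160) (nat_lit 161) = true := by decide +kernel
def p15_34_0_161 : pfC (piC [(nat_lit 38632330), (nat_lit 24534081), (nat_lit 15702173)] (nat_lit 18515096)) p15_34_0 (nat_lit 3) (nat_lit 161) (nat_lit 162) = true := by decide +kernel
def p15_34_0_162 : pfC (piC [(nat_lit 38632330), (nat_lit 24534081), (nat_lit 15702173)] (nat_lit 18515096)) p15_34_0 (nat_lit 3) (nat_lit 162) (nat_lit 163) = true := by decide +kernel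
def p15_34_0_163 : pfC (piC [(nat_lit 38632330), (nat_lit 24534081), (nat_lit 15702173)] (nat_lit 18515096)) p15_34_0 (nat_lit 3) (nat_lit 163) (nat_lit 164) = true := by decide +kernel
def p15_34_0_164 : pfC (piC [(nat_lit 38632330), (nat_lit 24534081), (nat_lit 15702173)] (nat_lit 18515096)) p15_34_0 (nat_lit 3) (nat_lit 164) (nat_lit 165) = true := by decide +kernel
def p15_34_0_165 : pfC (piC [(nat_lit 38632330), (nat_lit 24534081), (nat_lit 15702173)] (nat_lit 18515096)) p15_34_0 (nat_lit 3) (nat_lit 165) (nat_lit 166) = true := by decide +kernel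
def p15_34_0_166 : pfC (piC [(nat_lit 38632330), (nat_lit 24534081), (nat_lit 15702173)] (nat_lit 18515096)) p15_34_0 (nat_lit 3) (nat_lit 166) (nat_lit 167) = true := by decide +kernel
def p15_34_0_167 : pfC (piC [(nat_lit 38632330), (nat_lit 24534081), (nat_lit 15702173)] (nat_lit 18515096)) p15_34_0 (nat_lit 3) (nat_lit 167) (nat_lit 168) = true := by decide +kernel
def p15_34_0_168 : pfC (piC [(nat_lit 38632330), (nat_lit 24534081), (nat_lit 15702173)] (nat_lit 18515096)) p15_34_0 (nat_lit 3) (nat_lit 168) (nat_lit 169) = true := by decide +kernel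
def p15_34_0_169 : pfC (piC [(nat_lit 38632330), (nat_lit 24534081), (nat_lit 15702173)] (nat_lit 18515096)) p15_34_0 (nat_lit 3) (nat_lit 169) (nat_lit 170) = true := by decide +kernel
def p15_34_0_170 : pfC (piC [(nat_lit 38632330), (nat_lit 24534081), (nat_lit 15702173)] (nat_lit 18515096)) p15_34_0 (nat_lit 3) (nat_lit 170) (nat_lit 171) = true := by decide +kernel
def p15_34_0_171 : pfC (piC [(nat_lit 38632330), (nat_lit 24534081), (nat_lit 15702173)] (nat_lit 18515096)) p15_34_0 (nat_lit 3) (nat_lit 171) (nat_lit 172) = true := by decide +kernel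
def p15_34_0_172 : pfC (piC [(nat_lit 38632330), (nat_lit 24534081), (nat_lit 15702173)] (nat_lit 18515096)) p15_34_0 (nat_lit 3) (nat_lit 172) (nat_lit 173) = true := by decide +kernel
def p15_34_0_173 : pfC (piC [(nat_lit 38632330), (nat_lit 24534081), (nat_lit 15702173)] (nat_lit 18515096)) p15_34_0 (nat_lit 3) (nat_lit 173) (nat_lit 174) = true := by decide +kernel
def p15_34_0_174 : pfC (piC [(nat_lit 38632330), (nat_lit 24534081), (nat_lit 15702173)] (nat_lit 18515096)) p15_34_0 (nat_lit 3) (nat_lit 174) (nat_lit 175) = true := by decide +kernel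
def p15_34_0_175 : pfC (piC [(nat_lit 38632330), (nat_lit 24534081), (nat_lit 15702173)] (nat_lit 18515096)) p15_34_0 (nat_lit 3) (nat_lit 175) (nat_lit 176) = true := by decide +kernel
def p15_34_0_176 : pfC (piC [(nat_lit 38632330), (nat_lit 24534081), (nat_lit 15702173)] (nat_lit 18515096)) p15_34_0 (nat_lit 3) (nat_lit 176) (nat_lit 177) = true := by decide +kernel
def p15_34_0_177 : pfC (piC [(nat_lit 38632330), (nat_lit 24534081), (nat_lit 15702173)] (nat_lit 18515096)) p15_34_0 (nat_lit 3) (nat_lit 177) (nat_lit 178) = true := by decide +kernel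
def p15_34_0_178 : pfC (piC [(nat_lit 38632330), (nat_lit 24534081), (nat_lit 15702173)] (nat_lit 18515096)) p15_34_0 (nat_lit 3) (nat_lit 178) (nat_lit 179) = true := by decide +kernel
def p15_34_0_179 : pfC (piC [(nat_lit 38632330), (nat_lit 24534081), (nat_lit 15702173)] (nat_lit 18515096)) p15_34_0 (nat_lit 3) (nat_lit 179) (nat_lit 180) = true := by decide +kernel
def p15_34_0_180 : pfC (piC [(nat_lit 38632330), (nat_lit 24534081), (nat_lit 15702173)] (nat_lit 18515096)) p15_34_0 (nat_lit 3) (nat_lit 180) (nat_lit 181) = true := by decide +kernel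
def p15_34_0_181 : pfC (piC [(nat_lit 38632330), (nat_lit 24534081), (nat_lit 15702173)] (nat_lit 18515096)) p15_34_0 (nat_lit 3) (nat_lit 181) (nat_lit 182) = true := by decide +kernel
def p15_34_0_182 : pfC (piC [(nat_lit 38632330), (nat_lit 24534081), (nat_lit 15702173)] (nat_lit 18515096)) p15_34_0 (nat_lit 3) (nat_lit 182) (nat_lit 183) = true := by decide +kernel
def p15_34_0_183 : pfC (piC [(nat_lit 38632330), (nat_lit 24534081), (nat_lit 15702173)] (nat_lit 18515096)) p15_34_0 (nat_lit 3) (nat_lit 183) (nat_lit 184) = true := by decide +kernel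
def p15_34_0_184 : pfC (piC [(nat_lit 38632330), (nat_lit 24534081), (nat_lit 15702173)] (nat_lit 18515096)) p15_34_0 (nat_lit 3) (nat_lit 184) (nat_lit 185) = true := by decide +kernel
def p15_34_0_185 : pfC (piC [(nat_lit 38632330), (nat_lit 24534081), (nat_lit 15702173)] (nat_lit 18515096)) p15_34_0 (nat_lit 3) (nat_lit 185) (nat_lit 186) = true := by decide +kernel
def p15_34_0_186 : pfC (piC [(nat_lit 38632330), (nat_lit 24534081), (nat_lit 15702173)] (nat_lit 18515096)) p15_34_0 (nat_lit 3) (nat_lit 186) (nat_lit 187) = true := by decide +kernel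
def p15_34_0_187 : pfC (piC [(nat_lit 38632330), (nat_lit 24534081), (nat_lit 15702173)] (nat_lit 18515096)) p15_34_0 (nat_lit 3) (nat_lit 187) (nat_lit 188) = true := by decide +kernel
def p15_34_0_188 : pfC (piC [(nat_lit 38632330), (nat_lit 24534081), (nat_lit 15702173)] (nat_lit 18515096)) p15_34_0 (nat_lit 3) (nat_lit 188) (nat_lit 189) = true := by decide +kernel
def p15_34_0_189 : pfC (piC [(nat_lit 38632330), (nat_lit 24534081), (nat_lit 15702173)] (nat_lit 18515096)) p15_34_0 (nat_lit 3) (nat_lit 189) (nat_lit 190) = true := by decide +kernel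
def p15_34_0_190 : pfC (piC [(nat_lit 38632330), (nat_lit 24534081), (nat_lit 15702173)] (nat_lit 18515096)) p15_34_0 (nat_lit 3) (nat_lit 190) (nat_lit 191) = true := by decide +kernel
def p15_34_0_191 : pfC (piC [(nat_lit 38632330), (nat_lit 24534081), (nat_lit 15702173)] (nat_lit 18515096)) p15_34_0 (nat_lit 3) (nat_lit 191) (nat_lit 192) = true := by decide +kernel
def p15_34_0_192 : pfC (piC [(nat_lit 38632330), (nat_lit 24534081), (nat_lit 15702173)] (nat_lit 18515096)) p15_34_0 (nat_lit 3) (nat_lit 192) (nat_lit 193) = true := by decide +kernel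
def p15_34_0_193 : pfC (piC [(nat_lit 38632330), (nat_lit 24534081), (nat_lit 15702173)] (nat_lit 18515096)) p15_34_0 (nat_lit 3) (nat_lit 193) (nat_lit 194) = true := by decide +kernel
def p15_34_0_194 : pfC (piC [(nat_lit 38632330), (nat_lit 24534081), (nat_lit 15702173)] (nat_lit 18515096)) p15_34_0 (nat_lit 3) (nat_lit 194) (nat_lit 195) = true := by decide +kernel
def p15_34_0_195 : pfC (piC [(nat_lit 38632330), (nat_lit 24534081), (nat_lit 15702173)] (nat_lit 18515096)) p15_34_0 (nat_lit 3) (nat_lit 195) (nat_lit 196) = true := by decide +kernel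
def p15_34_0_196 : pfC (piC [(nat_lit 38632330), (nat_lit 24534081), (nat_lit 15702173)] (nat_lit 18515096)) p15_34_0 (nat_lit 3) (nat_lit 196) (nat_lit 197) = true := by decide +kernel
def p15_34_0_197 : pfC (piC [(nat_lit 38632330), (nat_lit 24534081), (nat_lit 15702173)] (nat_lit 18515096)) p15_34_0 (nat_lit 3) (nat_lit 197) (nat_lit 198) = true := by decide +kernel
def p15_34_0_198 : pfC (piC [(nat_lit 38632330), (nat_lit 24534081), (nat_lit 15702173)] (nat_lit 18515096)) p15_34_0 (nat_lit 3) (nat_lit 198) (nat_lit 199) = true := by decide +kernel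
def p15_34_0_199 : pfC (piC [(nat_lit 38632330), (nat_lit 24534081), (nat_lit 15702173)] (nat_lit 18515096)) p15_34_0 (nat_lit 3) (nat_lit 199) (nat_lit 200) = true := by decide +kernel
def p15_34_0_200 : pfC (piC [(nat_lit 38632330), (nat_lit 24534081), (nat_lit 15702173)] (nat_lit 18515096)) p15_34_0 (nat_lit 3) (nat_lit 200) (nat_lit 201) = true := by decide +kernel
def p15_34_0_201 : pfC (piC [(nat_lit 38632330), (nat_lit 24534081), (nat_lit 15702173)] (nat_lit 18515096)) p15_34_0 (nat_lit 3) (nat_lit 201) (nat_lit 202) = true := by decide +kernel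
def p15_34_0_202 : pfC (piC [(nat_lit 38632330), (nat_lit 24534081), (nat_lit 15702173)] (nat_lit 18515096)) p15_34_0 (nat_lit 3) (nat_lit 202) (nat_lit 203) = true := by decide +kernel
def p15_34_0_203 : pfC (piC [(nat_lit 38632330), (nat_lit 24534081), (nat_lit 15702173)] (nat_lit 18515096)) p15_34_0 (nat_lit 3) (nat_lit 203) (nat_lit 204) = true := by decide +kernel
def p15_34_0_204 : pfC (piC [(nat_lit 38632330), (nat_lit 24534081), (nat_lit 15702173)] (nat_lit 18515096)) p15_34_0 (nat_lit 3) (nat_lit 204) (nat_lit 205) = true := by decide +kernel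
def p15_34_0_205 : pfC (piC [(nat_lit 38632330), (nat_lit 24534081), (nat_lit 15702173)] (nat_lit 18515096)) p15_34_0 (nat_lit 3) (nat_lit 205) (nat_lit 206) = true := by decide +kernel
def p15_34_0_206 : pfC (piC [(nat_lit 38632330), (nat_lit 24534081), (nat_lit 15702173)] (nat_lit 18515096)) p15_34_0 (nat_lit 3) (nat_lit 206) (nat_lit 207) = true := by decide +kernel
def p15_34_0_207 : pfC (piC [(nat_lit 38632330), (nat_lit 24534081), (nat_lit 15702173)] (nat_lit 18515096)) p15_34_0 (nat_lit 3) (nat_lit 207) (nat_lit 208) = true := by decide +kernel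
def p15_34_0_208 : pfC (piC [(nat_lit 38632330), (nat_lit 24534081), (nat_lit 15702173)] (nat_lit 18515096)) p15_34_0 (nat_lit 3) (nat_lit 208) (nat_lit 209) = true := by decide +kernel
def p15_34_0_209 : pfC (piC [(nat_lit 38632330), (nat_lit 24534081), (nat_lit 15702173)] (nat_lit 18515096)) p15_34_0 (nat_lit 3) (nat_lit 209) (nat_lit 210) = true := by decide +kernel
def p15_34_0_210 : pfC (piC [(nat_lit 38632330), (nat_lit 24534081), (nat_lit 15702173)] (nat_lit 18515096)) p15_34_0 (nat_lit 3) (nat_lit 210) (nat_lit 211) = true := by decide +kernel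
def p15_34_0_211 : pfC (piC [(nat_lit 38632330), (nat_lit 24534081), (nat_lit 15702173)] (nat_lit 18515096)) p15_34_0 (nat_lit 3) (nat_lit 211) (nat_lit 212) = true := by decide +kernel
def p15_34_0_212 : pfC (piC [(nat_lit 38632330), (nat_lit 24534081), (nat_lit 15702173)] (nat_lit 18515096)) p15_34_0 (nat_lit 3) (nat_lit 212) (nat_lit 213) = true := by decide +kernel
def p15_34_0_213 : pfC (piC [(nat_lit 38632330), (nat_lit 24534081), (nat_lit 15702173)] (nat_lit 18515096)) p15_34_0 (nat_lit 3) (nat_lit 213) (nat_lit 214) = true := by decide +kernel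
def p15_34_0_214 : pfC (piC [(nat_lit 38632330), (nat_lit 24534081), (nat_lit 15702173)] (nat_lit 18515096)) p15_34_0 (nat_lit 3) (nat_lit 214) (nat_lit 215) = true := by decide +kernel
def p15_34_0_215 : pfC (piC [(nat_lit 38632330), (nat_lit 24534081), (nat_lit 15702173)] (nat_lit 18515096)) p15_34_0 (nat_lit 3) (nat_lit 215) (nat_lit 216) = true := by decide +kernel
def p15_34_0_216 : pfC (piC [(nat_lit 38632330), (nat_lit 24534081), (nat_lit 15702173)] (nat_lit 18515096)) p15_34_0 (nat_lit 3) (nat_lit 216) (nat_lit 217) = true := by decide +kernel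
def p15_34_0_217 : pfC (piC [(nat_lit 38632330), (nat_lit 24534081), (nat_lit 15702173)] (nat_lit 18515096)) p15_34_0 (nat_lit 3) (nat_lit 217) (nat_lit 218) = true := by decide +kernel
def p15_34_0_218 : pfC (piC [(nat_lit 38632330), (nat_lit 24534081), (nat_lit 15702173)] (nat_lit 18515096)) p15_34_0 (nat_lit 3) (nat_lit 218) (nat_lit 219) = true := by decide +kernel
def p15_34_0_219 : pfC (piC [(nat_lit 38632330), (nat_lit 24534081), (nat_lit 15702173)] (nat_lit 18515096)) p15_34_0 (nat_lit 3) (nat_lit 219) (nat_lit 220) = true := by decide +kernel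
def p15_34_0_220 : pfC (piC [(nat_lit 38632330), (nat_lit 24534081), (nat_lit 15702173)] (nat_lit 18515096)) p15_34_0 (nat_lit 3) (nat_lit 220) (nat_lit 221) = true := by decide +kernel
def p15_34_0_221 : pfC (piC [(nat_lit 38632330), (nat_lit 24534081), (nat_lit 15702173)] (nat_lit 18515096)) p15_34_0 (nat_lit 3) (nat_lit 221) (nat_lit 222) = true := by decide +kernel
def p15_34_0_222 : pfC (piC [(nat_lit 38632330), (nat_lit 24534081), (nat_lit 15702173)] (nat_lit 18515096)) p15_34_0 (nat_lit 3) (nat_lit 222) (nat_lit 223) = true := by decide +kernel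
def p15_34_0_223 : pfC (piC [(nat_lit 38632330), (nat_lit 24534081), (nat_lit 15702173)] (nat_lit 18515096)) p15_34_0 (nat_lit 3) (nat_lit 223) (nat_lit 224) = true := by decide +kernel
def p15_34_0_224 : pfC (piC [(nat_lit 38632330), (nat_lit 24534081), (nat_lit 15702173)] (nat_lit 18515096)) p15_34_0 (nat_lit 3) (nat_lit 224) (nat_lit 225) = true := by decide +kernel
def p15_34_0_225 : pfC (piC [(nat_lit 38632330), (nat_lit 24534081), (nat_lit 15702173)] (nat_lit 18515096)) p15_34_0 (nat_lit 3) (nat_lit 225) (nat_lit 226) = true := by decide +kernel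
def p15_34_0_226 : pfC (piC [(nat_lit 38632330), (nat_lit 24534081), (nat_lit 15702173)] (nat_lit 18515096)) p15_34_0 (nat_lit 3) (nat_lit 226) (nat_lit 227) = true := by decide +kernel
def p15_34_0_227 : pfC (piC [(nat_lit 38632330), (nat_lit 24534081), (nat_lit 15702173)] (nat_lit 18515096)) p15_34_0 (nat_lit 3) (nat_lit 227) (nat_lit 228) = true := by decide +kernel
def p15_34_0_228 : pfC (piC [(nat_lit 38632330), (nat_lit 24534081), (nat_lit 15702173)] (nat_lit 18515096)) p15_34_0 (nat_lit 3) (nat_lit 228) (nat_lit 229) = true := by decide +kernel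
def p15_34_0_229 : pfC (piC [(nat_lit 38632330), (nat_lit 24534081), (nat_lit 15702173)] (nat_lit 18515096)) p15_34_0 (nat_lit 3) (nat_lit 229) (nat_lit 230) = true := by decide +kernel
def p15_34_0_230 : pfC (piC [(nat_lit 38632330), (nat_lit 24534081), (nat_lit 15702173)] (nat_lit 18515096)) p15_34_0 (nat_lit 3) (nat_lit 230) (nat_lit 231) = true := by decide +kernel
def p15_34_0_231 : pfC (piC [(nat_lit 38632330), (nat_lit 24534081), (nat_lit 15702173)] (nat_lit 18515096)) p15_34_0 (nat_lit 3) (nat_lit 231) (nat_lit 232) = true := by decide +kernel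
def p15_34_0_232 : pfC (piC [(nat_lit 38632330), (nat_lit 24534081), (nat_lit 15702173)] (nat_lit 18515096)) p15_34_0 (nat_lit 3) (nat_lit 232) (nat_lit 233) = true := by decide +kernel
def p15_34_0_233 : pfC (piC [(nat_lit 38632330), (nat_lit 24534081), (nat_lit 15702173)] (nat_lit 18515096)) p15_34_0 (nat_lit 3) (nat_lit 233) (nat_lit 234) = true := by decide +kernel
def p15_34_0_234 : pfC (piC [(nat_lit 38632330), (nat_lit 24534081), (nat_lit 15702173)] (nat_lit 18515096)) p15_34_0 (nat_lit 3) (nat_lit 234) (nat_lit 235) = true := by decide +kernel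
def p15_34_0_235 : pfC (piC [(nat_lit 38632330), (nat_lit 24534081), (nat_lit 15702173)] (nat_lit 18515096)) p15_34_0 (nat_lit 3) (nat_lit 235) (nat_lit 236) = true := by decide +kernel
def p15_34_0_236 : pfC (piC [(nat_lit 38632330), (nat_lit 24534081), (nat_lit 15702173)] (nat_lit 18515096)) p15_34_0 (nat_lit 3) (nat_lit 236) (nat_lit 237) = true := by decide +kernel
def p15_34_0_237 : pfC (piC [(nat_lit 38632330), (nat_lit 24534081), (nat_lit 15702173)] (nat_lit 18515096)) p15_34_0 (nat_lit 3) (nat_lit 237) (nat_lit 238) = true := by decide +kernel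
def p15_34_0_238 : pfC (piC [(nat_lit 38632330), (nat_lit 24534081), (nat_lit 15702173)] (nat_lit 18515096)) p15_34_0 (nat_lit 3) (nat_lit 238) (nat_lit 239) = true := by decide +kernel
def p15_34_0_239 : pfC (piC [(nat_lit 38632330), (nat_lit 24534081), (nat_lit 15702173)] (nat_lit 18515096)) p15_34_0 (nat_lit 3) (nat_lit 239) (nat_lit 240) = true := by decide +kernel
def p15_34_0_240 : pfC (piC [(nat_lit 38632330), (nat_lit 24534081), (nat_lit 15702173)] (nat_lit 18515096)) p15_34_0 (nat_lit 3) (nat_lit 240) (nat_lit 241) = true := by decide +kernel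
def p15_34_0_241 : pfC (piC [(nat_lit 38632330), (nat_lit 24534081), (nat_lit 15702173)] (nat_lit 18515096)) p15_34_0 (nat_lit 3) (nat_lit 241) (nat_lit 242) = true := by decide +kernel
def p15_34_0_242 : pfC (piC [(nat_lit 38632330), (nat_lit 24534081), (nat_lit 15702173)] (nat_lit 18515096)) p15_34_0 (nat_lit 3) (nat_lit 242) (nat_lit 243) = true := by decide +kernel
def p15_34_0_243 : pfC (piC [(nat_lit 38632330), (nat_lit 24534081), (nat_lit 15702173)] (nat_lit 18515096)) p15_34_0 (nat_lit 3) (nat_lit 243) (nat_lit 244) = true := by decide +kernel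
def p15_34_0_244 : pfC (piC [(nat_lit 38632330), (nat_lit 24534081), (nat_lit 15702173)] (nat_lit 18515096)) p15_34_0 (nat_lit 3) (nat_lit 244) (nat_lit 245) = true := by decide +kernel
def p15_34_0_245 : pfC (piC [(nat_lit 38632330), (nat_lit 24534081), (nat_lit 15702173)] (nat_lit 18515096)) p15_34_0 (nat_lit 3) (nat_lit 245) (nat_lit 246) = true := by decide +kernel
def p15_34_0_246 : pfC (piC [(nat_lit 38632330), (nat_lit 24534081), (nat_lit 15702173)] (nat_lit 18515096)) p15_34_0 (nat_lit 3) (nat_lit 246) (nat_lit 247) = true := by decide +kernel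
def p15_34_0_247 : pfC (piC [(nat_lit 38632330), (nat_lit 24534081), (nat_lit 15702173)] (nat_lit 18515096)) p15_34_0 (nat_lit 3) (nat_lit 247) (nat_lit 248) = true := by decide +kernel
def p15_34_0_248 : pfC (piC [(nat_lit 38632330), (nat_lit 24534081), (nat_lit 15702173)] (nat_lit 18515096)) p15_34_0 (nat_lit 3) (nat_lit 248) (nat_lit 249) = true := by decide +kernel
def p15_34_0_249 : pfC (piC [(nat_lit 38632330), (nat_lit 24534081), (nat_lit 15702173)] (nat_lit 18515096)) p15_34_0 (nat_lit 3) (nat_lit 249) (nat_lit 250) = true := by decide +kernel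
def p15_34_0_250 : pfC (piC [(nat_lit 38632330), (nat_lit 24534081), (nat_lit 15702173)] (nat_lit 18515096)) p15_34_0 (nat_lit 3) (nat_lit 250) (nat_lit 251) = true := by decide +kernel
def p15_34_0_251 : pfC (piC [(nat_lit 38632330), (nat_lit 24534081), (nat_lit 15702173)] (nat_lit 18515096)) p15_34_0 (nat_lit 3) (nat_lit 251) (nat_lit 252) = true := by decide +kernel
def p15_34_0_252 : pfC (piC [(nat_lit 38632330), (nat_lit 24534081), (nat_lit 15702173)] (nat_lit 18515096)) p15_34_0 (nat_lit 3) (nat_lit 252) (nat_lit 253) = true := by decide +kernel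
def p15_34_0_253 : pfC (piC [(nat_lit 38632330), (nat_lit 24534081), (nat_lit 15702173)] (nat_lit 18515096)) p15_34_0 (nat_lit 3) (nat_lit 253) (nat_lit 254) = true := by decide +kernel
def p15_34_0_254 : pfC (piC [(nat_lit 38632330), (nat_lit 24534081), (nat_lit 15702173)] (nat_lit 18515096)) p15_34_0 (nat_lit 3) (nat_lit 254) (nat_lit 255) = true := by decide +kernel
def p15_34_0_255 : pfC (piC [(nat_lit 38632330), (nat_lit 24534081), (nat_lit 15702173)] (nat_lit 18515096)) p15_34_0 (nat_lit 3) (nat_lit 255) (nat_lit 256) = true := by decide +kernel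
def p15_34_0_256 : pfC (piC [(nat_lit 38632330), (nat_lit 24534081), (nat_lit 15702173)] (nat_lit 18515096)) p15_34_0 (nat_lit 3) (nat_lit 256) (nat_lit 257) = true := by decide +kernel
def p15_34_0_257 : pfC (piC [(nat_lit 38632330), (nat_lit 24534081), (nat_lit 15702173)] (nat_lit 18515096)) p15_34_0 (nat_lit 3) (nat_lit 257) (nat_lit 258) = true := by decide +kernel
def p15_34_0_258 : pfC (piC [(nat_lit 38632330), (nat_lit 24534081), (nat_lit 15702173)] (nat_lit 18515096)) p15_34_0 (nat_lit 3) (nat_lit 258) (nat_lit 259) = true := by decide +kernel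
def p15_34_0_259 : pfC (piC [(nat_lit 38632330), (nat_lit 24534081), (nat_lit 15702173)] (nat_lit 18515096)) p15_34_0 (nat_lit 3) (nat_lit 259) (nat_lit 260) = true := by decide +kernel
def p15_34_0_260 : pfC (piC [(nat_lit 38632330), (nat_lit 24534081), (nat_lit 15702173)] (nat_lit 18515096)) p15_34_0 (nat_lit 3) (nat_lit 260) (nat_lit 261) = true := by decide +kernel
def p15_34_0_261 : pfC (piC [(nat_lit 38632330), (nat_lit 24534081), (nat_lit 15702173)] (nat_lit 18515096)) p15_34_0 (nat_lit 3) (nat_lit 261) (nat_lit 262) = true := by decide +kernel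
def p15_34_0_262 : pfC (piC [(nat_lit 38632330), (nat_lit 24534081), (nat_lit 15702173)] (nat_lit 18515096)) p15_34_0 (nat_lit 3) (nat_lit 262) (nat_lit 263) = true := by decide +kernel
def p15_34_0_263 : pfC (piC [(nat_lit 38632330), (nat_lit 24534081), (nat_lit 15702173)] (nat_lit 18515096)) p15_34_0 (nat_lit 3) (nat_lit 263) (nat_lit 264) = true := by decide +kernel
theorem p15_34_0_T : PfS (PiF n15_34.reverse (nat_lit 18515096)) p15_34_0 (nat_lit 3) [] 0 :=
  pftab_of (los := [(nat_lit 38632330), (nat_lit 24534081), (nat_lit 15702173)]) (by decide +kernel) (hi := (nat_lit 264)) (PfP.trans (PfP.trans (PfP.trans (PfP.trans (PfP.trans (PfP.trans (PfP.trans (PfP.trans (PfP.trans (PfP.trans (PfP.trans (PfP.trans (PfP.trans (PfP.trans (PfP.trans (PfP.trans (PfP.trans (PfP.trans (PfP.trans (PfP.trans (PfP.trans (PfP.trans (PfP.trans (PfP.trans (PfP.trans (PfP.trans (PfP.trans (PfP.trans (PfP.trans (PfP.trans (PfP.trans (PfP.trans (PfP.trans (PfP.trans (PfP.trans (PfP.trans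 (PfP.trans (PfP.trans (PfP.trans (PfP.trans (PfP.trans (PfP.trans (PfP.trans (PfP.trans (PfP.trans (PfP.trans (PfP.trans (PfP.trans (PfP.trans (PfP.trans (PfP.trans (PfP.trans (PfP.trans (PfP.trans (PfP.trans (PfP.trans (PfP.trans (PfP.trans (PfP.trans (PfP.trans (PfP.trans (PfP.trans (PfP.trans (PfP.trans (PfP.trans (PfP.trans (PfP.trans (PfP.trans (PfP.trans (PfP.trans (PfP.trans (PfP.trans (PfP.trans (PfP.trans (PfP.trans (PfP.trans (PfP.trans (PfP.trans (PfP.trans (PfP.trans (PfP.trans (PfP.trans (PfP.trans (PfP.trans (PfP.trans (PfP.trans (PfP.trans (PfP.trans (PfP.trans (PfP.trans (PfP.trans (PfP.trans (PfP.trans (PfP.trans (PfP.trans (PfP.trans (PfP.trans (PfP.trans (PfP.trans (PfP.trans (PfP.trans (PfP.trans (PfP.trans (PfP.trans (PfP.trans (PfP.trans (PfP.trans (PfP.trans (PfP.trans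
 (PfP.trans (PfP.trans (PfP.trans (PfP.trans (PfP.trans (PfP.trans (PfP.trans (PfP.trans (PfP.trans (PfP.trans (PfP.trans (PfP.trans (PfP.trans (PfP.trans (PfP.trans (PfP.trans (PfP.trans (PfP.trans (PfP.trans (PfP.trans (PfP.trans (PfP.trans (PfP.trans (PfP.trans (PfP.trans (PfP.trans (PfP.trans (PfP.trans (PfP.trans (PfP.trans (PfP.trans (PfP.trans (PfP.trans (PfP.trans (PfP.trans (PfP.trans (PfP.trans (PfP.trans (PfP.trans (PfP.trans (PfP.trans (PfP.trans (PfP.trans (PfP.trans (PfP.trans (PfP.trans (PfP.trans (PfP.trans (PfP.trans (PfP.trans (PfP.trans (PfP.trans (PfP.trans (PfP.trans (PfP.trans (PfP.trans (PfP.trans (PfP.trans (PfP.trans (PfP.trans (PfP.trans (PfP.trans (PfP.trans (PfP.trans (PfP.trans (PfP.trans (PfP.trans (PfP.trans (PfP.trans (PfP.trans (PfP.trans (PfP.trans (PfP.trans (PfP.trans (PfP.trans (PfP.trans (PfP.trans (PfP.trans (PfP.trans (PfP.trans (PfP.trans (PfP.trans (PfP.trans (PfP.trans (PfP.trans (PfP.trans (PfP.trans (PfP.trans (PfP.trans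 (PfP.trans (PfP.trans (PfP.trans (PfP.trans (PfP.trans (PfP.trans (PfP.trans (PfP.trans (PfP.trans (PfP.trans (PfP.trans (PfP.trans (PfP.trans (PfP.trans (PfP.trans (PfP.trans (PfP.trans (PfP.trans (PfP.trans (PfP.trans
 (PfP.trans (PfP.trans (PfP.trans (PfP.trans (PfP.trans (PfP.trans (PfP.trans (PfP.trans (PfP.trans (PfP.trans (PfP.trans (PfP.trans (PfP.trans (PfP.trans (PfP.trans (PfP.trans (PfP.trans (PfP.trans (PfP.trans (PfP.trans (PfP.trans (PfP.trans (PfP.trans (PfP.trans (PfP.trans (PfP.trans (PfP.trans (PfP.trans (PfP.trans (PfP.trans (PfP.trans (PfP.trans (PfP.trans (PfP.trans (PfP.trans (PfP.trans (PfP.trans (PfP.trans (PfP.trans (PfP.trans (PfP.trans (PfP.trans (PfP.trans (PfP.trans (PfP.trans (pfC_sound p15_34_0_0) (pfC_sound p15_34_0_1)) (pfC_sound p15_34_0_2)) (pfC_sound p15_34_0_3)) (pfC_sound p15_34_0_4)) (pfC_sound p15_34_0_5)) (pfC_sound p15_34_0_6)) (pfC_sound p15_34_0_7)) (pfC_sound p15_34_0_8)) (pfC_sound p15_34_0_9)) (pfC_sound p15_34_0_10))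 (pfC_sound p15_34_0_11)) (pfC_sound p15_34_0_12)) (pfC_sound p15_34_0_13)) (pfC_sound p15_34_0_14)) (pfC_sound p15_34_0_15)) (pfC_sound p15_34_0_16)) (pfC_sound p15_34_0_17)) (pfC_sound p15_34_0_18)) (pfC_sound p15_34_0_19)) (pfC_sound p15_34_0_20)) (pfC_sound p15_34_0_21)) (pfC_sound p15_34_0_22)) (pfC_sound p15_34_0_23)) (pfC_sound p15_34_0_24)) (pfC_sound p15_34_0_25)) (pfC_sound p15_34_0_26)) (pfC_sound p15_34_0_27)) (pfC_sound
 p15_34_0_28)) (pfC_sound p15_34_0_29)) (pfC_sound p15_34_0_30)) (pfC_sound p15_34_0_31)) (pfC_sound p15_34_0_32)) (pfC_sound p15_34_0_33)) (pfC_sound p15_34_0_34)) (pfC_sound p15_34_0_35)) (pfC_sound p15_34_0_36)) (pfC_sound p15_34_0_37)) (pfC_sound p15_34_0_38)) (pfC_sound p15_34_0_39)) (pfC_sound p15_34_0_40)) (pfC_sound p15_34_0_41)) (pfC_sound p15_34_0_42)) (pfC_sound p15_34_0_43)) (pfC_sound p15_34_0_44)) (pfC_sound p15_34_0_45)) (pfC_sound p15_34_0_46)) (pfC_sound p15_34_0_47)) (pfC_sound p15_34_0_48)) (pfC_sound p15_34_0_49)) (pfC_sound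 p15_34_0_50)) (pfC_sound p15_34_0_51)) (pfC_sound p15_34_0_52)) (pfC_sound p15_34_0_53)) (pfC_sound p15_34_0_54)) (pfC_sound p15_34_0_55)) (pfC_sound p15_34_0_56)) (pfC_sound p15_34_0_57)) (pfC_sound p15_34_0_58)) (pfC_sound p15_34_0_59)) (pfC_sound p15_34_0_60)) (pfC_sound p15_34_0_61)) (pfC_sound p15_34_0_62)) (pfC_sound p15_34_0_63)) (pfC_sound p15_34_0_64)) (pfC_sound p15_34_0_65)) (pfC_sound p15_34_0_66)) (pfC_sound p15_34_0_67)) (pfC_sound p15_34_0_68)) (pfC_sound p15_34_0_69)) (pfC_sound p15_34_0_70)) (pfC_sound p15_34_0_71)) (pfC_sound p15_34_0_72)) (pfC_sound p15_34_0_73)) (pfC_sound p15_34_0_74)) (pfC_sound p15_34_0_75)) (pfC_sound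
 p15_34_0_76)) (pfC_sound p15_34_0_77)) (pfC_sound p15_34_0_78)) (pfC_sound p15_34_0_79)) (pfC_sound p15_34_0_80)) (pfC_sound p15_34_0_81)) (pfC_sound p15_34_0_82)) (pfC_sound p15_34_0_83)) (pfC_sound p15_34_0_84)) (pfC_sound p15_34_0_85)) (pfC_sound p15_34_0_86)) (pfC_sound p15_34_0_87)) (pfC_sound p15_34_0_88)) (pfC_sound p15_34_0_89)) (pfC_sound p15_34_0_90)) (pfC_sound p15_34_0_91)) (pfC_sound p15_34_0_92)) (pfC_sound p15_34_0_93)) (pfC_sound p15_34_0_94)) (pfC_sound p15_34_0_95)) (pfC_sound p15_34_0_96)) (pfC_sound p15_34_0_97)) (pfC_sound p15_34_0_98)) (pfC_sound p15_34_0_99)) (pfC_sound p15_34_0_100)) (pfC_sound p15_34_0_101)) (pfC_sound p15_34_0_102)) (pfC_sound p15_34_0_103)) (pfC_sound p15_34_0_104)) (pfC_sound p15_34_0_105)) (pfC_sound p15_34_0_106)) (pfC_sound p15_34_0_107)) (pfC_sound p15_34_0_108)) (pfC_sound p15_34_0_109)) (pfC_sound p15_34_0_110)) (pfC_sound p15_34_0_111)) (pfC_sound p15_34_0_112)) (pfC_sound p15_34_0_113)) (pfC_sound p15_34_0_114))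 (pfC_sound p15_34_0_115)) (pfC_sound p15_34_0_116)) (pfC_sound p15_34_0_117)) (pfC_sound p15_34_0_118)) (pfC_sound p15_34_0_119)) (pfC_sound p15_34_0_120)) (pfC_sound p15_34_0_121)) (pfC_sound p15_34_0_122)) (pfC_sound
 p15_34_0_123)) (pfC_sound p15_34_0_124)) (pfC_sound p15_34_0_125)) (pfC_sound p15_34_0_126)) (pfC_sound p15_34_0_127)) (pfC_sound p15_34_0_128)) (pfC_sound p15_34_0_129)) (pfC_sound p15_34_0_130)) (pfC_sound p15_34_0_131)) (pfC_sound p15_34_0_132)) (pfC_sound p15_34_0_133)) (pfC_sound p15_34_0_134)) (pfC_sound p15_34_0_135)) (pfC_sound p15_34_0_136)) (pfC_sound p15_34_0_137)) (pfC_sound p15_34_0_138)) (pfC_sound p15_34_0_139)) (pfC_sound p15_34_0_140)) (pfC_sound p15_34_0_141)) (pfC_sound p15_34_0_142)) (pfC_sound p15_34_0_143)) (pfC_sound p15_34_0_144)) (pfC_sound p15_34_0_145)) (pfC_sound p15_34_0_146)) (pfC_sound p15_34_0_147)) (pfC_sound p15_34_0_148)) (pfC_sound p15_34_0_149)) (pfC_sound p15_34_0_150)) (pfC_sound p15_34_0_151)) (pfC_sound p15_34_0_152))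 (pfC_sound p15_34_0_153)) (pfC_sound p15_34_0_154)) (pfC_sound p15_34_0_155)) (pfC_sound p15_34_0_156)) (pfC_sound p15_34_0_157)) (pfC_sound p15_34_0_158)) (pfC_sound p15_34_0_159)) (pfC_sound p15_34_0_160)) (pfC_sound p15_34_0_161)) (pfC_sound p15_34_0_162)) (pfC_sound p15_34_0_163)) (pfC_sound p15_34_0_164)) (pfC_sound p15_34_0_165)) (pfC_sound p15_34_0_166)) (pfC_sound p15_34_0_167)) (pfC_sound p15_34_0_168)) (pfC_sound
 p15_34_0_169)) (pfC_sound p15_34_0_170)) (pfC_sound p15_34_0_171)) (pfC_sound p15_34_0_172)) (pfC_sound p15_34_0_173)) (pfC_sound p15_34_0_174)) (pfC_sound p15_34_0_175)) (pfC_sound p15_34_0_176)) (pfC_sound p15_34_0_177)) (pfC_sound p15_34_0_178)) (pfC_sound p15_34_0_179)) (pfC_sound p15_34_0_180)) (pfC_sound p15_34_0_181)) (pfC_sound p15_34_0_182)) (pfC_sound p15_34_0_183)) (pfC_sound p15_34_0_184)) (pfC_sound p15_34_0_185)) (pfC_sound p15_34_0_186)) (pfC_sound p15_34_0_187)) (pfC_sound p15_34_0_188)) (pfC_sound p15_34_0_189)) (pfC_sound p15_34_0_190))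 (pfC_sound p15_34_0_191)) (pfC_sound p15_34_0_192)) (pfC_sound p15_34_0_193)) (pfC_sound p15_34_0_194)) (pfC_sound p15_34_0_195)) (pfC_sound p15_34_0_196)) (pfC_sound p15_34_0_197)) (pfC_sound p15_34_0_198)) (pfC_sound p15_34_0_199)) (pfC_sound p15_34_0_200)) (pfC_sound p15_34_0_201)) (pfC_sound p15_34_0_202)) (pfC_sound p15_34_0_203)) (pfC_sound p15_34_0_204)) (pfC_sound p15_34_0_205)) (pfC_sound p15_34_0_206)) (pfC_sound p15_34_0_207)) (pfC_sound p15_34_0_208)) (pfC_sound p15_34_0_209)) (pfC_sound p15_34_0_210)) (pfC_sound p15_34_0_211)) (pfC_sound p15_34_0_212)) (pfC_sound p15_34_0_213)) (pfC_sound p15_34_0_214)) (pfC_sound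
 p15_34_0_215)) (pfC_sound p15_34_0_216)) (pfC_sound p15_34_0_217)) (pfC_sound p15_34_0_218)) (pfC_sound p15_34_0_219)) (pfC_sound p15_34_0_220)) (pfC_sound p15_34_0_221)) (pfC_sound p15_34_0_222)) (pfC_sound p15_34_0_223)) (pfC_sound p15_34_0_224)) (pfC_sound p15_34_0_225)) (pfC_sound p15_34_0_226)) (pfC_sound p15_34_0_227)) (pfC_sound p15_34_0_228)) (pfC_sound p15_34_0_229)) (pfC_sound p15_34_0_230)) (pfC_sound p15_34_0_231)) (pfC_sound p15_34_0_232)) (pfC_sound p15_34_0_233)) (pfC_sound p15_34_0_234)) (pfC_sound p15_34_0_235)) (pfC_sound p15_34_0_236)) (pfC_sound p15_34_0_237)) (pfC_sound p15_34_0_238)) (pfC_sound p15_34_0_239)) (pfC_sound p15_34_0_240)) (pfC_sound p15_34_0_241)) (pfC_sound p15_34_0_242)) (pfC_sound p15_34_0_243)) (pfC_sound p15_34_0_244)) (pfC_sound p15_34_0_245)) (pfC_sound p15_34_0_246)) (pfC_sound p15_34_0_247)) (pfC_sound p15_34_0_248)) (pfC_sound p15_34_0_249)) (pfC_sound p15_34_0_250)) (pfC_sound p15_34_0_251)) (pfC_sound p15_34_0_252)) (pfC_sound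 p15_34_0_253)) (pfC_sound p15_34_0_254)) (pfC_sound p15_34_0_255)) (pfC_sound p15_34_0_256)) (pfC_sound p15_34_0_257)) (pfC_sound p15_34_0_258)) (pfC_sound p15_34_0_259)) (pfC_sound p15_34_0_260)) (pfC_sound
 p15_34_0_261)) (pfC_sound p15_34_0_262)) (pfC_sound p15_34_0_263)) (by decide +kernel)

def z15_34_0 : zOK yB15_34 (nat_lit 0) (nat_lit 0) (nat_lit 400) (nat_lit 18515096) (nat_lit 10906443) = true := by decide +kernel
def g15_34_0 : gOK yB15_34.x P15_34 (nat_lit 1394) (q15_34 :: r15_34) (nat_lit 0) (nat_lit 0) (nat_lit 1) (nat_lit 400) (nat_lit 0) (nat_lit 11000000) (nat_lit 12712500) (nat_lit 12712500) [(nat_lit 800), (nat_lit 1600)] = true := by decide +kernel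
def v15_34_0 : ivC P15_34 s15_34 w15_34 n15_34 (nat_lit 3) (nat_lit 5300) (nat_lit 0) (nat_lit 0) f176_0_0 f184_0_0 (nat_lit 1) (nat_lit 400) f176_0_400 f184_0_400 (nat_lit 18515096) (nat_lit 10906443) p15_34_0 = true := by decide +kernel
def p15_34_1 : PF := (PF.cons (PF.cons (PF.cons (PF.leaf (nat_lit 2065899) (nat_lit 9702180) (nat_lit 57406632) (nat_lit 9702180) [(nat_lit 0), (nat_lit 0), (nat_lit 0)]) (PF.cons (PF.leaf (nat_lit 2245894) (nat_lit 311302) (nat_lit 57068366) (nat_lit 9729144) [(nat_lit 311302), (nat_lit 0), (nat_lit 0)]) (PF.cons (PF.leaf (nat_lit 2458840) (nat_lit 338992) (nat_lit 56672770) (nat_lit 9758057) [(nat_lit 338992), (nat_lit 0), (nat_lit 0)]) (PF.cons (PF.leaf (nat_lit 2698310) (nat_lit 363680) (nat_lit 56230560) (nat_lit 9787210) [(nat_lit 363680), (nat_lit 0), (nat_lit 0)]) (PF.cons (PF.leaf (nat_lit 2960553) (nat_lit 386022) (nat_lit 55749400) (nat_lit 9815321) [(nat_lit 386022), (nat_lit 0), (nat_lit 0)]) (PF.cons (PF.leaf (nat_lit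 3242659) (nat_lit 406429) (nat_lit 55235260) (nat_lit 9841404) [(nat_lit 406429), (nat_lit 0), (nat_lit 0)]) (PF.cons (PF.leaf (nat_lit 3542233) (nat_lit 425177) (nat_lit 54693051) (nat_lit 9864696) [(nat_lit 425177), (nat_lit 0), (nat_lit 0)]) (PF.cons (PF.leaf (nat_lit 3857250) (nat_lit 442463) (nat_lit 54126953) (nat_lit 9884611) [(nat_lit 442463), (nat_lit 0), (nat_lit 0)]) (PF.cons (PF.leaf (nat_lit 4185848) (nat_lit 458435) (nat_lit 53540613) (nat_lit 9900715)
 [(nat_lit 458435), (nat_lit 0), (nat_lit 0)]) (PF.cons (PF.leaf (nat_lit 4526447) (nat_lit 473206) (nat_lit 52937263) (nat_lit 9912693) [(nat_lit 473206), (nat_lit 0), (nat_lit 0)]) (PF.cons (PF.leaf (nat_lit 4877527) (nat_lit 486868) (nat_lit 52319795) (nat_lit 9920334) [(nat_lit 486868), (nat_lit 0), (nat_lit 0)]) (PF.cons (PF.leaf (nat_lit 5237688) (nat_lit 499498) (nat_lit 51690816) (nat_lit 9923515) [(nat_lit 499498), (nat_lit 0), (nat_lit 0)]) (PF.cons (PF.leaf (nat_lit 5605766) (nat_lit 511161)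 (nat_lit 51052687) (nat_lit 9922183) [(nat_lit 511161), (nat_lit 0), (nat_lit 0)]) (PF.cons (PF.leaf (nat_lit 5980511) (nat_lit 521916) (nat_lit 50407547) (nat_lit 9916346) [(nat_lit 521916), (nat_lit 0), (nat_lit 0)]) (PF.cons PF.nil (PF.cons PF.nil (PF.cons PF.nil (PF.cons PF.nil PF.nil)))))))))))))))))) (PF.cons (PF.cons (PF.leaf (nat_lit 2782596) (nat_lit 1762199) (nat_lit 55532731) (nat_lit 9813881) [(nat_lit 0), (nat_lit 1762199), (nat_lit 0)]) (PF.cons (PF.leaf (nat_lit 3018628) (nat_lit 382779) (nat_lit 55090438) (nat_lit 9835199) [(nat_lit 382779), (nat_lit 1800395), (nat_lit 0)]) (PF.cons (PF.leaf (nat_lit 3279275) (nat_lit 403891) (nat_lit 54607738) (nat_lit 9855241)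
 [(nat_lit 403891), (nat_lit 1838049), (nat_lit 0)]) (PF.cons (PF.leaf (nat_lit 3560104) (nat_lit 423038) (nat_lit 54092173) (nat_lit 9873085) [(nat_lit 423038), (nat_lit 1874440), (nat_lit 0)]) (PF.cons (PF.leaf (nat_lit 3858324) (nat_lit 440541) (nat_lit 53549437) (nat_lit 9888056) [(nat_lit 440541), (nat_lit 1909155), (nat_lit 0)]) (PF.cons (PF.leaf (nat_lit 4171654) (nat_lit 456616) (nat_lit 52984109) (nat_lit 9899659) [(nat_lit 456616), (nat_lit 1941958), (nat_lit 0)]) (PF.cons (PF.leaf (nat_lit 4498158) (nat_lit 471421) (nat_lit 52400025) (nat_lit 9907540) [(nat_lit 471421), (nat_lit 1972718), (nat_lit 0)]) (PF.cons (PF.leaf (nat_lit 4836124) (nat_lit 485071) (nat_lit 51800483) (nat_lit 9911455) [(nat_lit 485071), (nat_lit 2001372), (nat_lit 0)]) (PF.cons (PF.leaf (nat_lit 5184046) (nat_lit 497661) (nat_lit 51188368) (nat_lit 9911253) [(nat_lit 497661), (nat_lit 2027898), (nat_lit 0)]) (PF.cons (PF.leaf (nat_lit 5540570) (nat_lit 509267) (nat_lit 50566238) (nat_lit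 9906859) [(nat_lit 509267), (nat_lit 2052309), (nat_lit 0)]) (PF.cons (PF.leaf (nat_lit 5904448) (nat_lit 519954) (nat_lit 49936372) (nat_lit 9898258) [(nat_lit 519954), (nat_lit 2074636), (nat_lit 0)]) (PF.cons
 (PF.leaf (nat_lit 6274533) (nat_lit 529780) (nat_lit 49300816) (nat_lit 9885488) [(nat_lit 529780), (nat_lit 2094926), (nat_lit 0)]) (PF.cons PF.nil (PF.cons PF.nil (PF.cons PF.nil (PF.cons PF.nil PF.nil)))))))))))))))) (PF.cons (PF.cons (PF.leaf (nat_lit 3599778) (nat_lit 1891814) (nat_lit 53446904) (nat_lit 9878279) [(nat_lit 0), (nat_lit 1891814), (nat_lit 0)]) (PF.cons (PF.leaf (nat_lit 3876140) (nat_lit 436850) (nat_lit 52937614) (nat_lit 9888405) [(nat_lit 436850), (nat_lit 1922971), (nat_lit 0)]) (PF.cons (PF.leaf (nat_lit 4170978) (nat_lit 453418) (nat_lit 52400545) (nat_lit 9895670) [(nat_lit 453418), (nat_lit 1952879), (nat_lit 0)]) (PF.cons (PF.leaf (nat_lit 4481050) (nat_lit 468528) (nat_lit 51841132) (nat_lit 9899643) [(nat_lit 468528), (nat_lit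 1981225), (nat_lit 0)]) (PF.cons (PF.leaf (nat_lit 4804153) (nat_lit 482365) (nat_lit 51263662) (nat_lit 9900032) [(nat_lit 482365), (nat_lit 2007828), (nat_lit 0)]) (PF.cons (PF.leaf (nat_lit 5138487) (nat_lit 495064) (nat_lit 50671664) (nat_lit 9896648) [(nat_lit 495064), (nat_lit 2032589), (nat_lit 0)]) (PF.cons (PF.leaf (nat_lit 5482422) (nat_lit 506728) (nat_lit 50068126) (nat_lit 9889385) [(nat_lit 506728), (nat_lit
 2055465), (nat_lit 0)]) (PF.cons (PF.leaf (nat_lit 5834601) (nat_lit 517439) (nat_lit 49455632) (nat_lit 9878206) [(nat_lit 517439), (nat_lit 2076448), (nat_lit 0)]) (PF.cons (PF.leaf (nat_lit 6193747) (nat_lit 527266) (nat_lit 48836441) (nat_lit 9863125) [(nat_lit 527266), (nat_lit 2095555), (nat_lit 0)]) (PF.cons (PF.leaf (nat_lit 6558738) (nat_lit 536269) (nat_lit 48212547) (nat_lit 9844201) [(nat_lit 536269), (nat_lit 2112821), (nat_lit 0)]) (PF.cons (PF.leaf (nat_lit 6928547) (nat_lit 544498) (nat_lit 47585716) (nat_lit 9821524) [(nat_lit 544498),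 (nat_lit 2128293), (nat_lit 0)]) (PF.cons PF.nil (PF.cons PF.nil (PF.cons PF.nil PF.nil)))))))))))))) (PF.cons (PF.cons (PF.leaf (nat_lit 4481513) (nat_lit 1989888) (nat_lit 51250456) (nat_lit 9888689) [(nat_lit 0), (nat_lit 1989888), (nat_lit 0)]) (PF.cons (PF.leaf (nat_lit 4786128) (nat_lit 478387) (nat_lit 50701920) (nat_lit 9885794) [(nat_lit 478387), (nat_lit 2014236), (nat_lit 0)]) (PF.cons (PF.leaf (nat_lit 5104481) (nat_lit 491445) (nat_lit 50135118) (nat_lit 9879465) [(nat_lit 491445), (nat_lit 2037112), (nat_lit 0)]) (PF.cons (PF.leaf (nat_lit 5434099) (nat_lit 503350) (nat_lit 49554045) (nat_lit 9869562) [(nat_lit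
 503350), (nat_lit 2058384), (nat_lit 0)]) (PF.cons (PF.leaf (nat_lit 5773209) (nat_lit 514224) (nat_lit 48961940) (nat_lit 9856018) [(nat_lit 514224), (nat_lit 2077985), (nat_lit 0)]) (PF.cons (PF.leaf (nat_lit 6120343) (nat_lit 524160) (nat_lit 48361509) (nat_lit 9838826) [(nat_lit 524160), (nat_lit 2095891), (nat_lit 0)]) (PF.cons (PF.leaf (nat_lit 6474236) (nat_lit 533235) (nat_lit 47755057) (nat_lit 9818023) [(nat_lit 533235), (nat_lit 2112106), (nat_lit 0)]) (PF.cons (PF.leaf (nat_lit 6833709) (nat_lit 541511) (nat_lit 47144577) (nat_lit 9793684) [(nat_lit 541511), (nat_lit 2126656), (nat_lit 0)]) (PF.cons (PF.leaf (nat_lit 7197747) (nat_lit 549044) (nat_lit 46531808) (nat_lit 9765912) [(nat_lit 549044), (nat_lit 2139577), (nat_lit 0)]) (PF.cons PF.nil (PF.cons PF.nil (PF.cons PF.nil PF.nil)))))))))))) (PF.cons (PF.cons (PF.leaf (nat_lit 5400277) (nat_lit 2061213) (nat_lit 49016921) (nat_lit 9847035) [(nat_lit 0), (nat_lit 2061213), (nat_lit 0)]) (PF.cons (PF.leaf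 (nat_lit 5723635) (nat_lit 510061) (nat_lit 48449979) (nat_lit 9831402) [(nat_lit 510061), (nat_lit 2079342), (nat_lit 0)]) (PF.cons (PF.leaf (nat_lit 6057016) (nat_lit 520276) (nat_lit 47871925) (nat_lit 9812346)
 [(nat_lit 520276), (nat_lit 2095996), (nat_lit 0)]) (PF.cons (PF.leaf (nat_lit 6398438) (nat_lit 529552) (nat_lit 47285722) (nat_lit 9789888) [(nat_lit 529552), (nat_lit 2111136), (nat_lit 0)]) (PF.cons (PF.leaf (nat_lit 6746521) (nat_lit 537976) (nat_lit 46693808) (nat_lit 9764088) [(nat_lit 537976), (nat_lit 2124753), (nat_lit 0)]) (PF.cons (PF.leaf (nat_lit 7100074) (nat_lit 545618) (nat_lit 46098238) (nat_lit 9735034) [(nat_lit 545618), (nat_lit 2136862), (nat_lit 0)]) (PF.cons (PF.leaf (nat_lit 7458051) (nat_lit 552538) (nat_lit 45500766) (nat_lit 9702839) [(nat_lit 552538), (nat_lit 2147493), (nat_lit 0)]) (PF.cons PF.nil (PF.cons PF.nil (PF.cons PF.nil PF.nil)))))))))) (PF.cons (PF.cons (PF.leaf (nat_lit 6334893) (nat_lit 2109971) (nat_lit 46799497)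 (nat_lit 9759457) [(nat_lit 0), (nat_lit 2109971), (nat_lit 0)]) (PF.cons (PF.leaf (nat_lit 6669520) (nat_lit 533715) (nat_lit 46229530) (nat_lit 9732456) [(nat_lit 533715), (nat_lit 2122621), (nat_lit 0)]) (PF.cons (PF.leaf (nat_lit 7011241) (nat_lit 541588) (nat_lit 45653771) (nat_lit 9702349) [(nat_lit 541588), (nat_lit 2133903), (nat_lit 0)]) (PF.cons (PF.leaf (nat_lit 7358437) (nat_lit 548684) (nat_lit 45074415) (nat_lit
 9669239) [(nat_lit 548684), (nat_lit 2143820), (nat_lit 0)]) (PF.cons (PF.leaf (nat_lit 7710048) (nat_lit 555072) (nat_lit 44493287) (nat_lit 9633249) [(nat_lit 555072), (nat_lit 2152397), (nat_lit 0)]) (PF.cons (PF.leaf (nat_lit 8065100) (nat_lit 560806) (nat_lit 43911929) (nat_lit 9594512) [(nat_lit 560806), (nat_lit 2159667), (nat_lit 0)]) (PF.cons PF.nil (PF.cons PF.nil PF.nil)))))))) (PF.cons (PF.cons (PF.leaf (nat_lit 7269388) (nat_lit 2139920) (nat_lit 44635557) (nat_lit 9633732) [(nat_lit 0), (nat_lit 2139920), (nat_lit 0)]) (PF.cons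 (PF.leaf (nat_lit 7609500) (nat_lit 550791) (nat_lit 44073596) (nat_lit 9597189) [(nat_lit 550791), (nat_lit 2147872), (nat_lit 0)]) (PF.cons (PF.leaf (nat_lit 7954394) (nat_lit 556723) (nat_lit 43509727) (nat_lit 9557990) [(nat_lit 556723), (nat_lit 2154607), (nat_lit 0)]) (PF.cons (PF.leaf (nat_lit 8302796) (nat_lit 562012) (nat_lit 42945570) (nat_lit 9516277) [(nat_lit 562012), (nat_lit 2160154), (nat_lit 0)]) (PF.cons PF.nil (PF.cons PF.nil PF.nil)))))) (PF.cons (PF.cons (PF.leaf (nat_lit 8192062) (nat_lit 2154409) (nat_lit 42550133) (nat_lit 9477816) [(nat_lit 0), (nat_lit 2154409), (nat_lit 0)]) (PF.cons (PF.leaf (nat_lit 8533265)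
 (nat_lit 562472) (nat_lit 42003789) (nat_lit 9433641) [(nat_lit 562472), (nat_lit 2158415), (nat_lit 0)]) (PF.cons PF.nil (PF.cons PF.nil PF.nil)))) (PF.cons (PF.cons (PF.leaf (nat_lit 9094659) (nat_lit 2156364) (nat_lit 40558818) (nat_lit 9299075) [(nat_lit 0), (nat_lit 2156364), (nat_lit 0)]) (PF.cons PF.nil PF.nil)) (PF.cons PF.nil (PF.cons PF.nil PF.nil))))))))))) (PF.cons (PF.cons (PF.cons (PF.leaf (nat_lit 3829597) (nat_lit 6489150) (nat_lit 50838710) (nat_lit 9780951) [(nat_lit 0), (nat_lit 0), (nat_lit 6489150)]) (PF.cons (PF.leaf (nat_lit 4074092) (nat_lit 416375) (nat_lit 50406446) (nat_lit 9780490) [(nat_lit 416375), (nat_lit 0), (nat_lit 6505500)]) (PF.cons (PF.leaf (nat_lit 4341047) (nat_lit 435515) (nat_lit 49939345) (nat_lit 9777634) [(nat_lit 435515), (nat_lit 0), (nat_lit 6520802)]) (PF.cons (PF.leaf (nat_lit 4625821) (nat_lit 452415) (nat_lit 49445081) (nat_lit 9772031) [(nat_lit 452415), (nat_lit 0), (nat_lit 6534453)]) (PF.cons (PF.leaf (nat_lit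 4925484) (nat_lit 467509) (nat_lit 48929288) (nat_lit 9763440) [(nat_lit 467509), (nat_lit 0), (nat_lit 6546044)]) (PF.cons (PF.leaf (nat_lit 5237727) (nat_lit 481090) (nat_lit 48396357) (nat_lit 9751704) [(nat_lit
 481090), (nat_lit 0), (nat_lit 6555300)]) (PF.cons (PF.leaf (nat_lit 5560663) (nat_lit 493365) (nat_lit 47849845) (nat_lit 9736737) [(nat_lit 493365), (nat_lit 0), (nat_lit 6562039)]) (PF.cons (PF.leaf (nat_lit 5892675) (nat_lit 504491) (nat_lit 47292716) (nat_lit 9718503) [(nat_lit 504491), (nat_lit 0), (nat_lit 6566153)]) (PF.cons (PF.leaf (nat_lit 6232369) (nat_lit 514589) (nat_lit 46727488) (nat_lit 9697014) [(nat_lit 514589), (nat_lit 0), (nat_lit 6567591)]) (PF.cons (PF.leaf (nat_lit 6578536) (nat_lit 523758) (nat_lit 46156327) (nat_lit 9672317) [(nat_lit 523758), (nat_lit 0), (nat_lit 6566344)]) (PF.cons (PF.leaf (nat_lit 6930092) (nat_lit 532077) (nat_lit 45581116) (nat_lit 9644487) [(nat_lit 532077), (nat_lit 0), (nat_lit 6562438)]) (PF.cons (PF.leaf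 (nat_lit 7286066) (nat_lit 539615) (nat_lit 45003502) (nat_lit 9613621) [(nat_lit 539615), (nat_lit 0), (nat_lit 6555922)]) (PF.cons PF.nil (PF.cons PF.nil PF.nil)))))))))))))) (PF.cons (PF.cons (PF.leaf (nat_lit 4640746) (nat_lit 1970021) (nat_lit 48852780) (nat_lit 9751361) [(nat_lit 0), (nat_lit 1970021), (nat_lit 6534650)]) (PF.cons (PF.leaf (nat_lit 4918439) (nat_lit 461065) (nat_lit 48371649) (nat_lit 9740706) [(nat_lit
 461065), (nat_lit 1992234), (nat_lit 6543157)]) (PF.cons (PF.leaf (nat_lit 5212362) (nat_lit 475480) (nat_lit 47867884) (nat_lit 9727085) [(nat_lit 475480), (nat_lit 2013145), (nat_lit 6549735)]) (PF.cons (PF.leaf (nat_lit 5519283) (nat_lit 488344) (nat_lit 47346666) (nat_lit 9710409) [(nat_lit 488344), (nat_lit 2032574), (nat_lit 6554127)]) (PF.cons (PF.leaf (nat_lit 5837054) (nat_lit 499898) (nat_lit 46811969) (nat_lit 9690636) [(nat_lit 499898), (nat_lit 2050435), (nat_lit 6556176)]) (PF.cons (PF.leaf (nat_lit 6163915) (nat_lit 510314) (nat_lit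 46266979) (nat_lit 9667772) [(nat_lit 510314), (nat_lit 2066697), (nat_lit 6555791)]) (PF.cons (PF.leaf (nat_lit 6498384) (nat_lit 519722) (nat_lit 45714318) (nat_lit 9641855) [(nat_lit 519722), (nat_lit 2081366), (nat_lit 6552935)]) (PF.cons (PF.leaf (nat_lit 6839197) (nat_lit 528226) (nat_lit 45156197) (nat_lit 9612952) [(nat_lit 528226), (nat_lit 2094468), (nat_lit 6547608)]) (PF.cons (PF.leaf (nat_lit 7185243) (nat_lit 535909) (nat_lit 44594498) (nat_lit 9581154) [(nat_lit 535909), (nat_lit 2106042), (nat_lit 6539841)]) (PF.cons (PF.leaf (nat_lit 7535541) (nat_lit 542841) (nat_lit 44030846) (nat_lit 9546566) [(nat_lit 542841),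
 (nat_lit 2116140), (nat_lit 6529690)]) (PF.cons PF.nil (PF.cons PF.nil PF.nil)))))))))))) (PF.cons (PF.cons (PF.leaf (nat_lit 5496597) (nat_lit 2033686) (nat_lit 46815611) (nat_lit 9681079) [(nat_lit 0), (nat_lit 2033686), (nat_lit 6544750)]) (PF.cons (PF.leaf (nat_lit 5796420) (nat_lit 494018) (nat_lit 46309499) (nat_lit 9660149) [(nat_lit 494018), (nat_lit 2050153), (nat_lit 6544837)]) (PF.cons (PF.leaf (nat_lit 6107999) (nat_lit 505018) (nat_lit 45789260) (nat_lit 9636227) [(nat_lit 505018), (nat_lit 2065275), (nat_lit 6542737)]) (PF.cons (PF.leaf (nat_lit 6428929) (nat_lit 514859) (nat_lit 45258510) (nat_lit 9609360) [(nat_lit 514859), (nat_lit 2078992), (nat_lit 6538377)]) (PF.cons (PF.leaf (nat_lit 6757580) (nat_lit 523692) (nat_lit 44720115) (nat_lit 9579618) [(nat_lit 523692), (nat_lit 2091288), (nat_lit 6531731)]) (PF.cons (PF.leaf (nat_lit 7092591) (nat_lit 531631) (nat_lit 44176408) (nat_lit 9547088) [(nat_lit 531631), (nat_lit 2102174), (nat_lit 6522809)])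 (PF.cons (PF.leaf (nat_lit 7432800) (nat_lit 538765) (nat_lit 43629334) (nat_lit 9511875) [(nat_lit 538765), (nat_lit 2111680), (nat_lit 6511649)]) (PF.cons (PF.leaf (nat_lit 7777196) (nat_lit 545168) (nat_lit
 43080537) (nat_lit 9474095) [(nat_lit 545168), (nat_lit 2119845), (nat_lit 6498307)]) (PF.cons PF.nil (PF.cons PF.nil PF.nil)))))))))) (PF.cons (PF.cons (PF.leaf (nat_lit 6374731) (nat_lit 2076490) (nat_lit 44782524) (nat_lit 9574339) [(nat_lit 0), (nat_lit 2076490), (nat_lit 6522477)]) (PF.cons (PF.leaf (nat_lit 6688501) (nat_lit 518214) (nat_lit 44268083) (nat_lit 9544093) [(nat_lit 518214), (nat_lit 2087925), (nat_lit 6514645)]) (PF.cons (PF.leaf (nat_lit 7010678) (nat_lit 526586) (nat_lit 43745551) (nat_lit 9511111) [(nat_lit 526586), (nat_lit 2098095), (nat_lit 6504688)]) (PF.cons (PF.leaf (nat_lit 7339401) (nat_lit 534056) (nat_lit 43217509) (nat_lit 9475508) [(nat_lit 534056), (nat_lit 2106999), (nat_lit 6492628)]) (PF.cons (PF.leaf (nat_lit 7673405)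 (nat_lit 540725) (nat_lit 42686039) (nat_lit 9437404) [(nat_lit 540725), (nat_lit 2114653), (nat_lit 6478507)]) (PF.cons (PF.leaf (nat_lit 8011632) (nat_lit 546674) (nat_lit 42152856) (nat_lit 9396927) [(nat_lit 546674), (nat_lit 2121089), (nat_lit 6462385)]) (PF.cons (PF.leaf (nat_lit 8353171) (nat_lit 551970) (nat_lit 41619399) (nat_lit 9354208) [(nat_lit 551970), (nat_lit 2126348), (nat_lit 6444337)]) (PF.cons PF.nil
 PF.nil)))))))) (PF.cons (PF.cons (PF.leaf (nat_lit 7258725) (nat_lit 2102116) (nat_lit 42790858) (nat_lit 9437051) [(nat_lit 0), (nat_lit 2102116), (nat_lit 6472435)]) (PF.cons (PF.leaf (nat_lit 7580278) (nat_lit 535569) (nat_lit 42279687) (nat_lit 9398907) [(nat_lit 535569), (nat_lit 2109245), (nat_lit 6457667)]) (PF.cons (PF.leaf (nat_lit 7907685) (nat_lit 541857) (nat_lit 41764725) (nat_lit 9358409) [(nat_lit 541857), (nat_lit 2115242), (nat_lit 6440991)]) (PF.cons (PF.leaf (nat_lit 8239460) (nat_lit 547425) (nat_lit 41247831) (nat_lit 9315700)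 [(nat_lit 547425), (nat_lit 2120133), (nat_lit 6422472)]) (PF.cons (PF.leaf (nat_lit 8574645) (nat_lit 552346) (nat_lit 40730522) (nat_lit 9270919) [(nat_lit 552346), (nat_lit 2123949), (nat_lit 6402186)]) (PF.cons PF.nil PF.nil)))))) (PF.cons (PF.cons (PF.leaf (nat_lit 8136607) (nat_lit 2113698) (nat_lit 40865224) (nat_lit 9275482) [(nat_lit 0), (nat_lit 2113698), (nat_lit 6399612)]) (PF.cons (PF.leaf (nat_lit 8461301) (nat_lit 547474) (nat_lit 40365255) (nat_lit 9230981) [(nat_lit 547474), (nat_lit 2117209), (nat_lit 6379053)]) (PF.cons (PF.leaf (nat_lit 8789901) (nat_lit 552084) (nat_lit 39864533) (nat_lit 9184545) [(nat_lit 552084),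
 (nat_lit 2119740), (nat_lit 6356863)]) (PF.cons PF.nil PF.nil)))) (PF.cons (PF.cons (PF.leaf (nat_lit 8999836) (nat_lit 2113914) (nat_lit 39020997) (nat_lit 9095555) [(nat_lit 0), (nat_lit 2113914), (nat_lit 6308773)]) (PF.cons (PF.leaf (nat_lit 9324213) (nat_lit 555003) (nat_lit 38537463) (nat_lit 9046176) [(nat_lit 555003), (nat_lit 2114434), (nat_lit 6283561)]) PF.nil)) (PF.cons PF.nil (PF.cons PF.nil (PF.cons PF.nil PF.nil)))))))))) (PF.cons (PF.cons (PF.cons (PF.leaf (nat_lit 5590684) (nat_lit 6442954) (nat_lit 44724492) (nat_lit 9498411) [(nat_lit 0), (nat_lit 0), (nat_lit 6442954)]) (PF.cons (PF.leaf (nat_lit 5864846) (nat_lit 473378) (nat_lit 44281892) (nat_lit 9474765) [(nat_lit 473378), (nat_lit 0), (nat_lit 6439388)]) (PF.cons (PF.leaf (nat_lit 6153470) (nat_lit 485999) (nat_lit 43820661) (nat_lit 9448281) [(nat_lit 485999), (nat_lit 0), (nat_lit 6433935)]) (PF.cons (PF.leaf (nat_lit 6453358) (nat_lit 497049) (nat_lit 43345539) (nat_lit 9419073) [(nat_lit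 497049), (nat_lit 0), (nat_lit 6426525)]) (PF.cons (PF.leaf (nat_lit 6762440) (nat_lit 506800) (nat_lit 42860100) (nat_lit 9387250) [(nat_lit 506800), (nat_lit 0), (nat_lit 6417130)]) (PF.cons (PF.leaf (nat_lit
 7079064) (nat_lit 515445) (nat_lit 42367148) (nat_lit 9352922) [(nat_lit 515445), (nat_lit 0), (nat_lit 6405756)]) (PF.cons (PF.leaf (nat_lit 7401871) (nat_lit 523131) (nat_lit 41868950) (nat_lit 9316204) [(nat_lit 523131), (nat_lit 0), (nat_lit 6392433)]) (PF.cons (PF.leaf (nat_lit 7729711) (nat_lit 529972) (nat_lit 41367379) (nat_lit 9277213) [(nat_lit 529972), (nat_lit 0), (nat_lit 6377207)]) (PF.cons (PF.leaf (nat_lit 8061587) (nat_lit 536057) (nat_lit 40864004) (nat_lit 9236071) [(nat_lit 536057), (nat_lit 0), (nat_lit 6360139)]) (PF.cons PF.nil (PF.cons PF.nil (PF.cons PF.nil PF.nil)))))))))))) (PF.cons (PF.cons (PF.leaf (nat_lit 6412566) (nat_lit 2037895) (nat_lit 42875665) (nat_lit 9379956) [(nat_lit 0), (nat_lit 2037895), (nat_lit 6407647)]) (PF.cons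 (PF.leaf (nat_lit 6704543) (nat_lit 499789) (nat_lit 42416954) (nat_lit 9348326) [(nat_lit 499789), (nat_lit 2048759), (nat_lit 6397491)]) (PF.cons (PF.leaf (nat_lit 7006771) (nat_lit 509165) (nat_lit 41947037) (nat_lit 9314127) [(nat_lit 509165), (nat_lit 2058411), (nat_lit 6385452)]) (PF.cons (PF.leaf (nat_lit 7316954) (nat_lit 517409) (nat_lit 41469126) (nat_lit 9277511) [(nat_lit 517409), (nat_lit 2066840), (nat_lit
 6371553)]) (PF.cons (PF.leaf (nat_lit 7633561) (nat_lit 524686) (nat_lit 40985717) (nat_lit 9238620) [(nat_lit 524686), (nat_lit 2074062), (nat_lit 6355834)]) (PF.cons (PF.leaf (nat_lit 7955339) (nat_lit 531120) (nat_lit 40498810) (nat_lit 9197590) [(nat_lit 531120), (nat_lit 2080107), (nat_lit 6338350)]) (PF.cons (PF.leaf (nat_lit 8281257) (nat_lit 536809) (nat_lit 40010046) (nat_lit 9154554) [(nat_lit 536809), (nat_lit 2085018), (nat_lit 6319167)]) (PF.cons (PF.leaf (nat_lit 8610392) (nat_lit 541832) (nat_lit 39520785) (nat_lit 9109642) [(nat_lit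 541832), (nat_lit 2088841), (nat_lit 6298357)]) (PF.cons PF.nil (PF.cons PF.nil PF.nil)))))))))) (PF.cons (PF.cons (PF.leaf (nat_lit 7247531) (nat_lit 2061117) (nat_lit 41051418) (nat_lit 9236426) [(nat_lit 0), (nat_lit 2061117), (nat_lit 6349366)]) (PF.cons (PF.leaf (nat_lit 7550201) (nat_lit 518461) (nat_lit 40589921) (nat_lit 9198002) [(nat_lit 518461), (nat_lit 2067889), (nat_lit 6333324)]) (PF.cons (PF.leaf (nat_lit 7860099) (nat_lit 525428) (nat_lit 40122298) (nat_lit 9157376) [(nat_lit 525428), (nat_lit 2073575), (nat_lit 6315565)]) (PF.cons (PF.leaf (nat_lit 8175463) (nat_lit 531538) (nat_lit 39650781) (nat_lit 9114711)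
 [(nat_lit 531538), (nat_lit 2078196), (nat_lit 6296156)]) (PF.cons (PF.leaf (nat_lit 8495165) (nat_lit 536901) (nat_lit 39177146) (nat_lit 9070154) [(nat_lit 536901), (nat_lit 2081784), (nat_lit 6275168)]) (PF.cons (PF.leaf (nat_lit 8818221) (nat_lit 541603) (nat_lit 38702836) (nat_lit 9023847) [(nat_lit 541603), (nat_lit 2084378), (nat_lit 6252677)]) (PF.cons PF.nil (PF.cons PF.nil PF.nil)))))))) (PF.cons (PF.cons (PF.leaf (nat_lit 8082543) (nat_lit 2071156) (nat_lit 39278340) (nat_lit 9072928) [(nat_lit 0), (nat_lit 2071156), (nat_lit 6272037)]) (PF.cons (PF.leaf (nat_lit 8390724) (nat_lit 531269) (nat_lit 38822957) (nat_lit 9029018) [(nat_lit 531269), (nat_lit 2074509), (nat_lit 6251019)]) (PF.cons (PF.leaf (nat_lit 8703895) (nat_lit 536377) (nat_lit 38364961) (nat_lit 8983298) [(nat_lit 536377), (nat_lit 2076920), (nat_lit 6228518)]) (PF.cons (PF.leaf (nat_lit 9020656) (nat_lit 540817) (nat_lit 37905932) (nat_lit 8935923) [(nat_lit 540817), (nat_lit 2078422),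 (nat_lit 6204618)]) (PF.cons PF.nil (PF.cons PF.nil PF.nil)))))) (PF.cons (PF.cons (PF.leaf (nat_lit 8908376) (nat_lit 2070599) (nat_lit 37572968) (nat_lit 8894351) [(nat_lit 0), (nat_lit 2070599), (nat_lit 6179546)])
 (PF.cons (PF.leaf (nat_lit 9218259) (nat_lit 539511) (nat_lit 37129564) (nat_lit 8846221) [(nat_lit 539511), (nat_lit 2071132), (nat_lit 6154493)]) (PF.cons (PF.leaf (nat_lit 9531439) (nat_lit 543154) (nat_lit 36685977) (nat_lit 8796657) [(nat_lit 543154), (nat_lit 2070863), (nat_lit 6128207)]) (PF.cons PF.nil PF.nil)))) (PF.cons (PF.cons (PF.leaf (nat_lit 9718574) (nat_lit 2061588) (nat_lit 35944913) (nat_lit 8705071) [(nat_lit 0), (nat_lit 2061588), (nat_lit 6075442)]) (PF.cons PF.nil PF.nil)) (PF.cons PF.nil (PF.cons PF.nil PF.nil)))))))) (PF.cons (PF.cons (PF.cons (PF.leaf (nat_lit 7240804) (nat_lit 6223170) (nat_lit 39405721) (nat_lit 9033579) [(nat_lit 0), (nat_lit 0), (nat_lit 6223170)]) (PF.cons (PF.leaf (nat_lit 7523503) (nat_lit 499069) (nat_lit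 38993574) (nat_lit 8996034) [(nat_lit 499069), (nat_lit 0), (nat_lit 6206711)]) (PF.cons (PF.leaf (nat_lit 7815326) (nat_lit 507158) (nat_lit 38572320) (nat_lit 8956284) [(nat_lit 507158), (nat_lit 0), (nat_lit 6188630)]) (PF.cons (PF.leaf (nat_lit 8114051) (nat_lit 514156) (nat_lit 38144781) (nat_lit 8914538) [(nat_lit 514156), (nat_lit 0), (nat_lit 6169007)]) (PF.cons (PF.leaf (nat_lit 8418253) (nat_lit 520237) (nat_lit
 37713124) (nat_lit 8870975) [(nat_lit 520237), (nat_lit 0), (nat_lit 6147920)]) (PF.cons (PF.leaf (nat_lit 8726770) (nat_lit 525529) (nat_lit 37279065) (nat_lit 8825749) [(nat_lit 525529), (nat_lit 0), (nat_lit 6125449)]) (PF.cons (PF.leaf (nat_lit 9038655) (nat_lit 530133) (nat_lit 36843992) (nat_lit 8779005) [(nat_lit 530133), (nat_lit 0), (nat_lit 6101670)]) (PF.cons PF.nil PF.nil)))))))) (PF.cons (PF.cons (PF.leaf (nat_lit 8033453) (nat_lit 2027000) (nat_lit 37779421) (nat_lit 8871216) [(nat_lit 0), (nat_lit 2027000), (nat_lit 6143724)]) (PF.cons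 (PF.leaf (nat_lit 8324624) (nat_lit 513634) (nat_lit 37367408) (nat_lit 8828691) [(nat_lit 513634), (nat_lit 2030517), (nat_lit 6122853)]) (PF.cons (PF.leaf (nat_lit 8622153) (nat_lit 519518) (nat_lit 36950574) (nat_lit 8784371) [(nat_lit 519518), (nat_lit 2033098), (nat_lit 6100577)]) (PF.cons (PF.leaf (nat_lit 8924367) (nat_lit 524595) (nat_lit 36530851) (nat_lit 8738438) [(nat_lit 524595), (nat_lit 2034776), (nat_lit 6076986)]) (PF.cons (PF.leaf (nat_lit 9230211) (nat_lit 528975) (nat_lit 36109760) (nat_lit 8691053) [(nat_lit 528975), (nat_lit 2035591), (nat_lit 6052167)]) (PF.cons PF.nil PF.nil)))))) (PF.cons (PF.cons (PF.leaf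
 (nat_lit 8822846) (nat_lit 2026562) (nat_lit 36205908) (nat_lit 8696051) [(nat_lit 0), (nat_lit 2026562), (nat_lit 6051242)]) (PF.cons (PF.leaf (nat_lit 9118034) (nat_lit 523134) (nat_lit 35801003) (nat_lit 8649701) [(nat_lit 523134), (nat_lit 2027334), (nat_lit 6026768)]) (PF.cons (PF.leaf (nat_lit 9417579) (nat_lit 527352) (nat_lit 35394185) (nat_lit 8601932) [(nat_lit 527352), (nat_lit 2027312), (nat_lit 6001121)]) (PF.cons (PF.leaf (nat_lit 9720152) (nat_lit 530952) (nat_lit 34986808) (nat_lit 8552902) [(nat_lit 530952), (nat_lit 2026533), (nat_lit 5974392)]) PF.nil)))) (PF.cons (PF.cons (PF.leaf (nat_lit 9601638) (nat_lit 2018035) (nat_lit 34696616) (nat_lit 8511865) [(nat_lit 0), (nat_lit 2018035), (nat_lit 5948741)]) (PF.cons (PF.leaf (nat_lit 9897638) (nat_lit 528762) (nat_lit 34303288) (nat_lit 8462727) [(nat_lit 528762), (nat_lit 2016576), (nat_lit 5921435)]) PF.nil)) (PF.cons PF.nil (PF.cons PF.nil PF.nil)))))) (PF.cons (PF.cons (PF.cons (PF.leaf (nat_lit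 8745808) (nat_lit 5924179) (nat_lit 34911185) (nat_lit 8500911) [(nat_lit 0), (nat_lit 0), (nat_lit 5924179)]) (PF.cons (PF.leaf (nat_lit 9025648) (nat_lit 505609) (nat_lit 34543722) (nat_lit 8456831) [(nat_lit
 505609), (nat_lit 0), (nat_lit 5900662)]) (PF.cons (PF.leaf (nat_lit 9311200) (nat_lit 510650) (nat_lit 34172330) (nat_lit 8411264) [(nat_lit 510650), (nat_lit 0), (nat_lit 5875979)]) (PF.cons (PF.leaf (nat_lit 9600836) (nat_lit 514930) (nat_lit 33798689) (nat_lit 8364401) [(nat_lit 514930), (nat_lit 0), (nat_lit 5850232)]) (PF.cons (PF.leaf (nat_lit 9893611) (nat_lit 518563) (nat_lit 33424106) (nat_lit 8316400) [(nat_lit 518563), (nat_lit 0), (nat_lit 5823512)]) (PF.cons PF.nil PF.nil)))))) (PF.cons (PF.cons (PF.leaf (nat_lit 9493443) (nat_lit 1974368) (nat_lit 33514605) (nat_lit 8322942) [(nat_lit 0), (nat_lit 1974368), (nat_lit 5824224)]) (PF.cons (PF.leaf (nat_lit 9776317) (nat_lit 512681) (nat_lit 33154290) (nat_lit 8276181) [(nat_lit 512681), (nat_lit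 1973378), (nat_lit 5798070)]) (PF.cons (PF.leaf (nat_lit 10063070) (nat_lit 516219) (nat_lit 32792488) (nat_lit 8228284) [(nat_lit 516219), (nat_lit 1971711), (nat_lit 5770972)]) (PF.cons PF.nil PF.nil)))) (PF.cons (PF.cons (PF.leaf (nat_lit 10230008) (nat_lit 1960676) (nat_lit 32176621) (nat_lit 8139921) [(nat_lit 0), (nat_lit 1960676), (nat_lit 5717729)]) (PF.cons PF.nil PF.nil)) (PF.cons PF.nil PF.nil)))) (PF.cons (PF.cons
 (PF.cons (PF.leaf (nat_lit 10105643) (nat_lit 5599291) (nat_lit 31149681) (nat_lit 7962672) [(nat_lit 0), (nat_lit 0), (nat_lit 5599291)]) (PF.cons (PF.leaf (nat_lit 10376966) (nat_lit 500904) (nat_lit 30828290) (nat_lit 7916709) [(nat_lit 500904), (nat_lit 0), (nat_lit 5572581)]) PF.nil)) (PF.cons PF.nil PF.nil)) (PF.cons PF.nil (PF.cons PF.nil (PF.cons PF.nil (PF.cons PF.nil PF.nil))))))))))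

def p15_34_1_0 : pfC (piC [(nat_lit 38632330), (nat_lit 24534081), (nat_lit 15702173)] (nat_lit 10906443)) p15_34_1 (nat_lit 3) (nat_lit 0) (nat_lit 1) = true := by decide +kernel
def p15_34_1_1 : pfC (piC [(nat_lit 38632330), (nat_lit 24534081), (nat_lit 15702173)] (nat_lit 10906443)) p15_34_1 (nat_lit 3) (nat_lit 1) (nat_lit 2) = true := by decide +kernel
def p15_34_1_2 : pfC (piC [(nat_lit 38632330), (nat_lit 24534081), (nat_lit 15702173)] (nat_lit 10906443)) p15_34_1 (nat_lit 3) (nat_lit 2) (nat_lit 3) = true := by decide +kernel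
def p15_34_1_3 : pfC (piC [(nat_lit 38632330), (nat_lit 24534081), (nat_lit 15702173)] (nat_lit 10906443)) p15_34_1 (nat_lit 3) (nat_lit 3) (nat_lit 4) = true := by decide +kernel
def p15_34_1_4 : pfC (piC [(nat_lit 38632330), (nat_lit 24534081), (nat_lit 15702173)] (nat_lit 10906443)) p15_34_1 (nat_lit 3) (nat_lit 4) (nat_lit 5) = true := by decide +kernel
def p15_34_1_5 : pfC (piC [(nat_lit 38632330), (nat_lit 24534081), (nat_lit 15702173)] (nat_lit 10906443)) p15_34_1 (nat_lit 3) (nat_lit 5) (nat_lit 6) = true := by decide +kernel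
def p15_34_1_6 : pfC (piC [(nat_lit 38632330), (nat_lit 24534081), (nat_lit 15702173)] (nat_lit 10906443)) p15_34_1 (nat_lit 3) (nat_lit 6) (nat_lit 7) = true := by decide +kernel
def p15_34_1_7 : pfC (piC [(nat_lit 38632330), (nat_lit 24534081), (nat_lit 15702173)] (nat_lit 10906443)) p15_34_1 (nat_lit 3) (nat_lit 7) (nat_lit 8) = true := by decide +kernel
def p15_34_1_8 : pfC (piC [(nat_lit 38632330), (nat_lit 24534081), (nat_lit 15702173)] (nat_lit 10906443)) p15_34_1 (nat_lit 3) (nat_lit 8) (nat_lit 9) = true := by decide +kernel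
def p15_34_1_9 : pfC (piC [(nat_lit 38632330), (nat_lit 24534081), (nat_lit 15702173)] (nat_lit 10906443)) p15_34_1 (nat_lit 3) (nat_lit 9) (nat_lit 10) = true := by decide +kernel
def p15_34_1_10 : pfC (piC [(nat_lit 38632330), (nat_lit 24534081), (nat_lit 15702173)] (nat_lit 10906443)) p15_34_1 (nat_lit 3) (nat_lit 10) (nat_lit 11) = true := by decide +kernel
def p15_34_1_11 : pfC (piC [(nat_lit 38632330), (nat_lit 24534081), (nat_lit 15702173)] (nat_lit 10906443)) p15_34_1 (nat_lit 3) (nat_lit 11) (nat_lit 12) = true := by decide +kernel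
def p15_34_1_12 : pfC (piC [(nat_lit 38632330), (nat_lit 24534081), (nat_lit 15702173)] (nat_lit 10906443)) p15_34_1 (nat_lit 3) (nat_lit 12) (nat_lit 13) = true := by decide +kernel
def p15_34_1_13 : pfC (piC [(nat_lit 38632330), (nat_lit 24534081), (nat_lit 15702173)] (nat_lit 10906443)) p15_34_1 (nat_lit 3) (nat_lit 13) (nat_lit 14) = true := by decide +kernel
def p15_34_1_14 : pfC (piC [(nat_lit 38632330), (nat_lit 24534081), (nat_lit 15702173)] (nat_lit 10906443)) p15_34_1 (nat_lit 3) (nat_lit 14) (nat_lit 15) = true := by decide +kernel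
def p15_34_1_15 : pfC (piC [(nat_lit 38632330), (nat_lit 24534081), (nat_lit 15702173)] (nat_lit 10906443)) p15_34_1 (nat_lit 3) (nat_lit 15) (nat_lit 16) = true := by decide +kernel
def p15_34_1_16 : pfC (piC [(nat_lit 38632330), (nat_lit 24534081), (nat_lit 15702173)] (nat_lit 10906443)) p15_34_1 (nat_lit 3) (nat_lit 16) (nat_lit 17) = true := by decide +kernel
def p15_34_1_17 : pfC (piC [(nat_lit 38632330), (nat_lit 24534081), (nat_lit 15702173)] (nat_lit 10906443)) p15_34_1 (nat_lit 3) (nat_lit 17) (nat_lit 18) = true := by decide +kernel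
def p15_34_1_18 : pfC (piC [(nat_lit 38632330), (nat_lit 24534081), (nat_lit 15702173)] (nat_lit 10906443)) p15_34_1 (nat_lit 3) (nat_lit 18) (nat_lit 19) = true := by decide +kernel
def p15_34_1_19 : pfC (piC [(nat_lit 38632330), (nat_lit 24534081), (nat_lit 15702173)] (nat_lit 10906443)) p15_34_1 (nat_lit 3) (nat_lit 19) (nat_lit 20) = true := by decide +kernel
def p15_34_1_20 : pfC (piC [(nat_lit 38632330), (nat_lit 24534081), (nat_lit 15702173)] (nat_lit 10906443)) p15_34_1 (nat_lit 3) (nat_lit 20) (nat_lit 21) = true := by decide +kernel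
def p15_34_1_21 : pfC (piC [(nat_lit 38632330), (nat_lit 24534081), (nat_lit 15702173)] (nat_lit 10906443)) p15_34_1 (nat_lit 3) (nat_lit 21) (nat_lit 22) = true := by decide +kernel
def p15_34_1_22 : pfC (piC [(nat_lit 38632330), (nat_lit 24534081), (nat_lit 15702173)] (nat_lit 10906443)) p15_34_1 (nat_lit 3) (nat_lit 22) (nat_lit 23) = true := by decide +kernel
def p15_34_1_23 : pfC (piC [(nat_lit 38632330), (nat_lit 24534081), (nat_lit 15702173)] (nat_lit 10906443)) p15_34_1 (nat_lit 3) (nat_lit 23) (nat_lit 24) = true := by decide +kernel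
def p15_34_1_24 : pfC (piC [(nat_lit 38632330), (nat_lit 24534081), (nat_lit 15702173)] (nat_lit 10906443)) p15_34_1 (nat_lit 3) (nat_lit 24) (nat_lit 25) = true := by decide +kernel
def p15_34_1_25 : pfC (piC [(nat_lit 38632330), (nat_lit 24534081), (nat_lit 15702173)] (nat_lit 10906443)) p15_34_1 (nat_lit 3) (nat_lit 25) (nat_lit 26) = true := by decide +kernel
def p15_34_1_26 : pfC (piC [(nat_lit 38632330), (nat_lit 24534081), (nat_lit 15702173)] (nat_lit 10906443)) p15_34_1 (nat_lit 3) (nat_lit 26) (nat_lit 27) = true := by decide +kernel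
def p15_34_1_27 : pfC (piC [(nat_lit 38632330), (nat_lit 24534081), (nat_lit 15702173)] (nat_lit 10906443)) p15_34_1 (nat_lit 3) (nat_lit 27) (nat_lit 28) = true := by decide +kernel
def p15_34_1_28 : pfC (piC [(nat_lit 38632330), (nat_lit 24534081), (nat_lit 15702173)] (nat_lit 10906443)) p15_34_1 (nat_lit 3) (nat_lit 28) (nat_lit 29) = true := by decide +kernel
def p15_34_1_29 : pfC (piC [(nat_lit 38632330), (nat_lit 24534081), (nat_lit 15702173)] (nat_lit 10906443)) p15_34_1 (nat_lit 3) (nat_lit 29) (nat_lit 30) = true := by decide +kernel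
def p15_34_1_30 : pfC (piC [(nat_lit 38632330), (nat_lit 24534081), (nat_lit 15702173)] (nat_lit 10906443)) p15_34_1 (nat_lit 3) (nat_lit 30) (nat_lit 31) = true := by decide +kernel
def p15_34_1_31 : pfC (piC [(nat_lit 38632330), (nat_lit 24534081), (nat_lit 15702173)] (nat_lit 10906443)) p15_34_1 (nat_lit 3) (nat_lit 31) (nat_lit 32) = true := by decide +kernel
def p15_34_1_32 : pfC (piC [(nat_lit 38632330), (nat_lit 24534081), (nat_lit 15702173)] (nat_lit 10906443)) p15_34_1 (nat_lit 3) (nat_lit 32) (nat_lit 33) = true := by decide +kernel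
def p15_34_1_33 : pfC (piC [(nat_lit 38632330), (nat_lit 24534081), (nat_lit 15702173)] (nat_lit 10906443)) p15_34_1 (nat_lit 3) (nat_lit 33) (nat_lit 34) = true := by decide +kernel
def p15_34_1_34 : pfC (piC [(nat_lit 38632330), (nat_lit 24534081), (nat_lit 15702173)] (nat_lit 10906443)) p15_34_1 (nat_lit 3) (nat_lit 34) (nat_lit 35) = true := by decide +kernel
def p15_34_1_35 : pfC (piC [(nat_lit 38632330), (nat_lit 24534081), (nat_lit 15702173)] (nat_lit 10906443)) p15_34_1 (nat_lit 3) (nat_lit 35) (nat_lit 36) = true := by decide +kernel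
def p15_34_1_36 : pfC (piC [(nat_lit 38632330), (nat_lit 24534081), (nat_lit 15702173)] (nat_lit 10906443)) p15_34_1 (nat_lit 3) (nat_lit 36) (nat_lit 37) = true := by decide +kernel
def p15_34_1_37 : pfC (piC [(nat_lit 38632330), (nat_lit 24534081), (nat_lit 15702173)] (nat_lit 10906443)) p15_34_1 (nat_lit 3) (nat_lit 37) (nat_lit 38) = true := by decide +kernel
def p15_34_1_38 : pfC (piC [(nat_lit 38632330), (nat_lit 24534081), (nat_lit 15702173)] (nat_lit 10906443)) p15_34_1 (nat_lit 3) (nat_lit 38) (nat_lit 39) = true := by decide +kernel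
def p15_34_1_39 : pfC (piC [(nat_lit 38632330), (nat_lit 24534081), (nat_lit 15702173)] (nat_lit 10906443)) p15_34_1 (nat_lit 3) (nat_lit 39) (nat_lit 40) = true := by decide +kernel
def p15_34_1_40 : pfC (piC [(nat_lit 38632330), (nat_lit 24534081), (nat_lit 15702173)] (nat_lit 10906443)) p15_34_1 (nat_lit 3) (nat_lit 40) (nat_lit 41) = true := by decide +kernel
def p15_34_1_41 : pfC (piC [(nat_lit 38632330), (nat_lit 24534081), (nat_lit 15702173)] (nat_lit 10906443)) p15_34_1 (nat_lit 3) (nat_lit 41) (nat_lit 42) = true := by decide +kernel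
def p15_34_1_42 : pfC (piC [(nat_lit 38632330), (nat_lit 24534081), (nat_lit 15702173)] (nat_lit 10906443)) p15_34_1 (nat_lit 3) (nat_lit 42) (nat_lit 43) = true := by decide +kernel
def p15_34_1_43 : pfC (piC [(nat_lit 38632330), (nat_lit 24534081), (nat_lit 15702173)] (nat_lit 10906443)) p15_34_1 (nat_lit 3) (nat_lit 43) (nat_lit 44) = true := by decide +kernel
def p15_34_1_44 : pfC (piC [(nat_lit 38632330), (nat_lit 24534081), (nat_lit 15702173)] (nat_lit 10906443)) p15_34_1 (nat_lit 3) (nat_lit 44) (nat_lit 45) = true := by decide +kernel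
def p15_34_1_45 : pfC (piC [(nat_lit 38632330), (nat_lit 24534081), (nat_lit 15702173)] (nat_lit 10906443)) p15_34_1 (nat_lit 3) (nat_lit 45) (nat_lit 46) = true := by decide +kernel
def p15_34_1_46 : pfC (piC [(nat_lit 38632330), (nat_lit 24534081), (nat_lit 15702173)] (nat_lit 10906443)) p15_34_1 (nat_lit 3) (nat_lit 46) (nat_lit 47) = true := by decide +kernel
def p15_34_1_47 : pfC (piC [(nat_lit 38632330), (nat_lit 24534081), (nat_lit 15702173)] (nat_lit 10906443)) p15_34_1 (nat_lit 3) (nat_lit 47) (nat_lit 48) = true := by decide +kernel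
def p15_34_1_48 : pfC (piC [(nat_lit 38632330), (nat_lit 24534081), (nat_lit 15702173)] (nat_lit 10906443)) p15_34_1 (nat_lit 3) (nat_lit 48) (nat_lit 49) = true := by decide +kernel
def p15_34_1_49 : pfC (piC [(nat_lit 38632330), (nat_lit 24534081), (nat_lit 15702173)] (nat_lit 10906443)) p15_34_1 (nat_lit 3) (nat_lit 49) (nat_lit 50) = true := by decide +kernel
def p15_34_1_50 : pfC (piC [(nat_lit 38632330), (nat_lit 24534081), (nat_lit 15702173)] (nat_lit 10906443)) p15_34_1 (nat_lit 3) (nat_lit 50) (nat_lit 51) = true := by decide +kernel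
def p15_34_1_51 : pfC (piC [(nat_lit 38632330), (nat_lit 24534081), (nat_lit 15702173)] (nat_lit 10906443)) p15_34_1 (nat_lit 3) (nat_lit 51) (nat_lit 52) = true := by decide +kernel
def p15_34_1_52 : pfC (piC [(nat_lit 38632330), (nat_lit 24534081), (nat_lit 15702173)] (nat_lit 10906443)) p15_34_1 (nat_lit 3) (nat_lit 52) (nat_lit 53) = true := by decide +kernel
def p15_34_1_53 : pfC (piC [(nat_lit 38632330), (nat_lit 24534081), (nat_lit 15702173)] (nat_lit 10906443)) p15_34_1 (nat_lit 3) (nat_lit 53) (nat_lit 54) = true := by decide +kernel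
def p15_34_1_54 : pfC (piC [(nat_lit 38632330), (nat_lit 24534081), (nat_lit 15702173)] (nat_lit 10906443)) p15_34_1 (nat_lit 3) (nat_lit 54) (nat_lit 55) = true := by decide +kernel
def p15_34_1_55 : pfC (piC [(nat_lit 38632330), (nat_lit 24534081), (nat_lit 15702173)] (nat_lit 10906443)) p15_34_1 (nat_lit 3) (nat_lit 55) (nat_lit 56) = true := by decide +kernel
def p15_34_1_56 : pfC (piC [(nat_lit 38632330), (nat_lit 24534081), (nat_lit 15702173)] (nat_lit 10906443)) p15_34_1 (nat_lit 3) (nat_lit 56) (nat_lit 57) = true := by decide +kernel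
def p15_34_1_57 : pfC (piC [(nat_lit 38632330), (nat_lit 24534081), (nat_lit 15702173)] (nat_lit 10906443)) p15_34_1 (nat_lit 3) (nat_lit 57) (nat_lit 58) = true := by decide +kernel
def p15_34_1_58 : pfC (piC [(nat_lit 38632330), (nat_lit 24534081), (nat_lit 15702173)] (nat_lit 10906443)) p15_34_1 (nat_lit 3) (nat_lit 58) (nat_lit 59) = true := by decide +kernel
def p15_34_1_59 : pfC (piC [(nat_lit 38632330), (nat_lit 24534081), (nat_lit 15702173)] (nat_lit 10906443)) p15_34_1 (nat_lit 3) (nat_lit 59) (nat_lit 60) = true := by decide +kernel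
def p15_34_1_60 : pfC (piC [(nat_lit 38632330), (nat_lit 24534081), (nat_lit 15702173)] (nat_lit 10906443)) p15_34_1 (nat_lit 3) (nat_lit 60) (nat_lit 61) = true := by decide +kernel
def p15_34_1_61 : pfC (piC [(nat_lit 38632330), (nat_lit 24534081), (nat_lit 15702173)] (nat_lit 10906443)) p15_34_1 (nat_lit 3) (nat_lit 61) (nat_lit 62) = true := by decide +kernel
def p15_34_1_62 : pfC (piC [(nat_lit 38632330), (nat_lit 24534081), (nat_lit 15702173)] (nat_lit 10906443)) p15_34_1 (nat_lit 3) (nat_lit 62) (nat_lit 63) = true := by decide +kernel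
def p15_34_1_63 : pfC (piC [(nat_lit 38632330), (nat_lit 24534081), (nat_lit 15702173)] (nat_lit 10906443)) p15_34_1 (nat_lit 3) (nat_lit 63) (nat_lit 64) = true := by decide +kernel
def p15_34_1_64 : pfC (piC [(nat_lit 38632330), (nat_lit 24534081), (nat_lit 15702173)] (nat_lit 10906443)) p15_34_1 (nat_lit 3) (nat_lit 64) (nat_lit 65) = true := by decide +kernel
def p15_34_1_65 : pfC (piC [(nat_lit 38632330), (nat_lit 24534081), (nat_lit 15702173)] (nat_lit 10906443)) p15_34_1 (nat_lit 3) (nat_lit 65) (nat_lit 66) = true := by decide +kernel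
def p15_34_1_66 : pfC (piC [(nat_lit 38632330), (nat_lit 24534081), (nat_lit 15702173)] (nat_lit 10906443)) p15_34_1 (nat_lit 3) (nat_lit 66) (nat_lit 67) = true := by decide +kernel
def p15_34_1_67 : pfC (piC [(nat_lit 38632330), (nat_lit 24534081), (nat_lit 15702173)] (nat_lit 10906443)) p15_34_1 (nat_lit 3) (nat_lit 67) (nat_lit 68) = true := by decide +kernel
def p15_34_1_68 : pfC (piC [(nat_lit 38632330), (nat_lit 24534081), (nat_lit 15702173)] (nat_lit 10906443)) p15_34_1 (nat_lit 3) (nat_lit 68) (nat_lit 69) = true := by decide +kernel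
def p15_34_1_69 : pfC (piC [(nat_lit 38632330), (nat_lit 24534081), (nat_lit 15702173)] (nat_lit 10906443)) p15_34_1 (nat_lit 3) (nat_lit 69) (nat_lit 70) = true := by decide +kernel
def p15_34_1_70 : pfC (piC [(nat_lit 38632330), (nat_lit 24534081), (nat_lit 15702173)] (nat_lit 10906443)) p15_34_1 (nat_lit 3) (nat_lit 70) (nat_lit 71) = true := by decide +kernel
def p15_34_1_71 : pfC (piC [(nat_lit 38632330), (nat_lit 24534081), (nat_lit 15702173)] (nat_lit 10906443)) p15_34_1 (nat_lit 3) (nat_lit 71) (nat_lit 72) = true := by decide +kernel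
def p15_34_1_72 : pfC (piC [(nat_lit 38632330), (nat_lit 24534081), (nat_lit 15702173)] (nat_lit 10906443)) p15_34_1 (nat_lit 3) (nat_lit 72) (nat_lit 73) = true := by decide +kernel
def p15_34_1_73 : pfC (piC [(nat_lit 38632330), (nat_lit 24534081), (nat_lit 15702173)] (nat_lit 10906443)) p15_34_1 (nat_lit 3) (nat_lit 73) (nat_lit 74) = true := by decide +kernel
def p15_34_1_74 : pfC (piC [(nat_lit 38632330), (nat_lit 24534081), (nat_lit 15702173)] (nat_lit 10906443)) p15_34_1 (nat_lit 3) (nat_lit 74) (nat_lit 75) = true := by decide +kernel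
def p15_34_1_75 : pfC (piC [(nat_lit 38632330), (nat_lit 24534081), (nat_lit 15702173)] (nat_lit 10906443)) p15_34_1 (nat_lit 3) (nat_lit 75) (nat_lit 76) = true := by decide +kernel
def p15_34_1_76 : pfC (piC [(nat_lit 38632330), (nat_lit 24534081), (nat_lit 15702173)] (nat_lit 10906443)) p15_34_1 (nat_lit 3) (nat_lit 76) (nat_lit 77) = true := by decide +kernel
def p15_34_1_77 : pfC (piC [(nat_lit 38632330), (nat_lit 24534081), (nat_lit 15702173)] (nat_lit 10906443)) p15_34_1 (nat_lit 3) (nat_lit 77) (nat_lit 78) = true := by decide +kernel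
def p15_34_1_78 : pfC (piC [(nat_lit 38632330), (nat_lit 24534081), (nat_lit 15702173)] (nat_lit 10906443)) p15_34_1 (nat_lit 3) (nat_lit 78) (nat_lit 79) = true := by decide +kernel
def p15_34_1_79 : pfC (piC [(nat_lit 38632330), (nat_lit 24534081), (nat_lit 15702173)] (nat_lit 10906443)) p15_34_1 (nat_lit 3) (nat_lit 79) (nat_lit 80) = true := by decide +kernel
def p15_34_1_80 : pfC (piC [(nat_lit 38632330), (nat_lit 24534081), (nat_lit 15702173)] (nat_lit 10906443)) p15_34_1 (nat_lit 3) (nat_lit 80) (nat_lit 81) = true := by decide +kernel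
def p15_34_1_81 : pfC (piC [(nat_lit 38632330), (nat_lit 24534081), (nat_lit 15702173)] (nat_lit 10906443)) p15_34_1 (nat_lit 3) (nat_lit 81) (nat_lit 82) = true := by decide +kernel
def p15_34_1_82 : pfC (piC [(nat_lit 38632330), (nat_lit 24534081), (nat_lit 15702173)] (nat_lit 10906443)) p15_34_1 (nat_lit 3) (nat_lit 82) (nat_lit 83) = true := by decide +kernel
def p15_34_1_83 : pfC (piC [(nat_lit 38632330), (nat_lit 24534081), (nat_lit 15702173)] (nat_lit 10906443)) p15_34_1 (nat_lit 3) (nat_lit 83) (nat_lit 84) = true := by decide +kernel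
def p15_34_1_84 : pfC (piC [(nat_lit 38632330), (nat_lit 24534081), (nat_lit 15702173)] (nat_lit 10906443)) p15_34_1 (nat_lit 3) (nat_lit 84) (nat_lit 85) = true := by decide +kernel
def p15_34_1_85 : pfC (piC [(nat_lit 38632330), (nat_lit 24534081), (nat_lit 15702173)] (nat_lit 10906443)) p15_34_1 (nat_lit 3) (nat_lit 85) (nat_lit 86) = true := by decide +kernel
def p15_34_1_86 : pfC (piC [(nat_lit 38632330), (nat_lit 24534081), (nat_lit 15702173)] (nat_lit 10906443)) p15_34_1 (nat_lit 3) (nat_lit 86) (nat_lit 87) = true := by decide +kernel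
def p15_34_1_87 : pfC (piC [(nat_lit 38632330), (nat_lit 24534081), (nat_lit 15702173)] (nat_lit 10906443)) p15_34_1 (nat_lit 3) (nat_lit 87) (nat_lit 88) = true := by decide +kernel
def p15_34_1_88 : pfC (piC [(nat_lit 38632330), (nat_lit 24534081), (nat_lit 15702173)] (nat_lit 10906443)) p15_34_1 (nat_lit 3) (nat_lit 88) (nat_lit 89) = true := by decide +kernel
def p15_34_1_89 : pfC (piC [(nat_lit 38632330), (nat_lit 24534081), (nat_lit 15702173)] (nat_lit 10906443)) p15_34_1 (nat_lit 3) (nat_lit 89) (nat_lit 90) = true := by decide +kernel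
def p15_34_1_90 : pfC (piC [(nat_lit 38632330), (nat_lit 24534081), (nat_lit 15702173)] (nat_lit 10906443)) p15_34_1 (nat_lit 3) (nat_lit 90) (nat_lit 91) = true := by decide +kernel
def p15_34_1_91 : pfC (piC [(nat_lit 38632330), (nat_lit 24534081), (nat_lit 15702173)] (nat_lit 10906443)) p15_34_1 (nat_lit 3) (nat_lit 91) (nat_lit 92) = true := by decide +kernel
def p15_34_1_92 : pfC (piC [(nat_lit 38632330), (nat_lit 24534081), (nat_lit 15702173)] (nat_lit 10906443)) p15_34_1 (nat_lit 3) (nat_lit 92) (nat_lit 93) = true := by decide +kernel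
def p15_34_1_93 : pfC (piC [(nat_lit 38632330), (nat_lit 24534081), (nat_lit 15702173)] (nat_lit 10906443)) p15_34_1 (nat_lit 3) (nat_lit 93) (nat_lit 94) = true := by decide +kernel
def p15_34_1_94 : pfC (piC [(nat_lit 38632330), (nat_lit 24534081), (nat_lit 15702173)] (nat_lit 10906443)) p15_34_1 (nat_lit 3) (nat_lit 94) (nat_lit 95) = true := by decide +kernel
def p15_34_1_95 : pfC (piC [(nat_lit 38632330), (nat_lit 24534081), (nat_lit 15702173)] (nat_lit 10906443)) p15_34_1 (nat_lit 3) (nat_lit 95) (nat_lit 96) = true := by decide +kernel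
def p15_34_1_96 : pfC (piC [(nat_lit 38632330), (nat_lit 24534081), (nat_lit 15702173)] (nat_lit 10906443)) p15_34_1 (nat_lit 3) (nat_lit 96) (nat_lit 97) = true := by decide +kernel
def p15_34_1_97 : pfC (piC [(nat_lit 38632330), (nat_lit 24534081), (nat_lit 15702173)] (nat_lit 10906443)) p15_34_1 (nat_lit 3) (nat_lit 97) (nat_lit 98) = true := by decide +kernel
def p15_34_1_98 : pfC (piC [(nat_lit 38632330), (nat_lit 24534081), (nat_lit 15702173)] (nat_lit 10906443)) p15_34_1 (nat_lit 3) (nat_lit 98) (nat_lit 99) = true := by decide +kernel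
def p15_34_1_99 : pfC (piC [(nat_lit 38632330), (nat_lit 24534081), (nat_lit 15702173)] (nat_lit 10906443)) p15_34_1 (nat_lit 3) (nat_lit 99) (nat_lit 100) = true := by decide +kernel
def p15_34_1_100 : pfC (piC [(nat_lit 38632330), (nat_lit 24534081), (nat_lit 15702173)] (nat_lit 10906443)) p15_34_1 (nat_lit 3) (nat_lit 100) (nat_lit 101) = true := by decide +kernel
def p15_34_1_101 : pfC (piC [(nat_lit 38632330), (nat_lit 24534081), (nat_lit 15702173)] (nat_lit 10906443)) p15_34_1 (nat_lit 3) (nat_lit 101) (nat_lit 102) = true := by decide +kernel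
def p15_34_1_102 : pfC (piC [(nat_lit 38632330), (nat_lit 24534081), (nat_lit 15702173)] (nat_lit 10906443)) p15_34_1 (nat_lit 3) (nat_lit 102) (nat_lit 103) = true := by decide +kernel
def p15_34_1_103 : pfC (piC [(nat_lit 38632330), (nat_lit 24534081), (nat_lit 15702173)] (nat_lit 10906443)) p15_34_1 (nat_lit 3) (nat_lit 103) (nat_lit 104) = true := by decide +kernel
def p15_34_1_104 : pfC (piC [(nat_lit 38632330), (nat_lit 24534081), (nat_lit 15702173)] (nat_lit 10906443)) p15_34_1 (nat_lit 3) (nat_lit 104) (nat_lit 105) = true := by decide +kernel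
def p15_34_1_105 : pfC (piC [(nat_lit 38632330), (nat_lit 24534081), (nat_lit 15702173)] (nat_lit 10906443)) p15_34_1 (nat_lit 3) (nat_lit 105) (nat_lit 106) = true := by decide +kernel
def p15_34_1_106 : pfC (piC [(nat_lit 38632330), (nat_lit 24534081), (nat_lit 15702173)] (nat_lit 10906443)) p15_34_1 (nat_lit 3) (nat_lit 106) (nat_lit 107) = true := by decide +kernel
def p15_34_1_107 : pfC (piC [(nat_lit 38632330), (nat_lit 24534081), (nat_lit 15702173)] (nat_lit 10906443)) p15_34_1 (nat_lit 3) (nat_lit 107) (nat_lit 108) = true := by decide +kernel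
def p15_34_1_108 : pfC (piC [(nat_lit 38632330), (nat_lit 24534081), (nat_lit 15702173)] (nat_lit 10906443)) p15_34_1 (nat_lit 3) (nat_lit 108) (nat_lit 109) = true := by decide +kernel
def p15_34_1_109 : pfC (piC [(nat_lit 38632330), (nat_lit 24534081), (nat_lit 15702173)] (nat_lit 10906443)) p15_34_1 (nat_lit 3) (nat_lit 109) (nat_lit 110) = true := by decide +kernel
def p15_34_1_110 : pfC (piC [(nat_lit 38632330), (nat_lit 24534081), (nat_lit 15702173)] (nat_lit 10906443)) p15_34_1 (nat_lit 3) (nat_lit 110) (nat_lit 111) = true := by decide +kernel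
def p15_34_1_111 : pfC (piC [(nat_lit 38632330), (nat_lit 24534081), (nat_lit 15702173)] (nat_lit 10906443)) p15_34_1 (nat_lit 3) (nat_lit 111) (nat_lit 112) = true := by decide +kernel
def p15_34_1_112 : pfC (piC [(nat_lit 38632330), (nat_lit 24534081), (nat_lit 15702173)] (nat_lit 10906443)) p15_34_1 (nat_lit 3) (nat_lit 112) (nat_lit 113) = true := by decide +kernel
def p15_34_1_113 : pfC (piC [(nat_lit 38632330), (nat_lit 24534081), (nat_lit 15702173)] (nat_lit 10906443)) p15_34_1 (nat_lit 3) (nat_lit 113) (nat_lit 114) = true := by decide +kernel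
def p15_34_1_114 : pfC (piC [(nat_lit 38632330), (nat_lit 24534081), (nat_lit 15702173)] (nat_lit 10906443)) p15_34_1 (nat_lit 3) (nat_lit 114) (nat_lit 115) = true := by decide +kernel
def p15_34_1_115 : pfC (piC [(nat_lit 38632330), (nat_lit 24534081), (nat_lit 15702173)] (nat_lit 10906443)) p15_34_1 (nat_lit 3) (nat_lit 115) (nat_lit 116) = true := by decide +kernel
def p15_34_1_116 : pfC (piC [(nat_lit 38632330), (nat_lit 24534081), (nat_lit 15702173)] (nat_lit 10906443)) p15_34_1 (nat_lit 3) (nat_lit 116) (nat_lit 117) = true := by decide +kernel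
def p15_34_1_117 : pfC (piC [(nat_lit 38632330), (nat_lit 24534081), (nat_lit 15702173)] (nat_lit 10906443)) p15_34_1 (nat_lit 3) (nat_lit 117) (nat_lit 118) = true := by decide +kernel
def p15_34_1_118 : pfC (piC [(nat_lit 38632330), (nat_lit 24534081), (nat_lit 15702173)] (nat_lit 10906443)) p15_34_1 (nat_lit 3) (nat_lit 118) (nat_lit 119) = true := by decide +kernel
def p15_34_1_119 : pfC (piC [(nat_lit 38632330), (nat_lit 24534081), (nat_lit 15702173)] (nat_lit 10906443)) p15_34_1 (nat_lit 3) (nat_lit 119) (nat_lit 120) = true := by decide +kernel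
def p15_34_1_120 : pfC (piC [(nat_lit 38632330), (nat_lit 24534081), (nat_lit 15702173)] (nat_lit 10906443)) p15_34_1 (nat_lit 3) (nat_lit 120) (nat_lit 121) = true := by decide +kernel
def p15_34_1_121 : pfC (piC [(nat_lit 38632330), (nat_lit 24534081), (nat_lit 15702173)] (nat_lit 10906443)) p15_34_1 (nat_lit 3) (nat_lit 121) (nat_lit 122) = true := by decide +kernel
def p15_34_1_122 : pfC (piC [(nat_lit 38632330), (nat_lit 24534081), (nat_lit 15702173)] (nat_lit 10906443)) p15_34_1 (nat_lit 3) (nat_lit 122) (nat_lit 123) = true := by decide +kernel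
def p15_34_1_123 : pfC (piC [(nat_lit 38632330), (nat_lit 24534081), (nat_lit 15702173)] (nat_lit 10906443)) p15_34_1 (nat_lit 3) (nat_lit 123) (nat_lit 124) = true := by decide +kernel
def p15_34_1_124 : pfC (piC [(nat_lit 38632330), (nat_lit 24534081), (nat_lit 15702173)] (nat_lit 10906443)) p15_34_1 (nat_lit 3) (nat_lit 124) (nat_lit 125) = true := by decide +kernel
def p15_34_1_125 : pfC (piC [(nat_lit 38632330), (nat_lit 24534081), (nat_lit 15702173)] (nat_lit 10906443)) p15_34_1 (nat_lit 3) (nat_lit 125) (nat_lit 126) = true := by decide +kernel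
def p15_34_1_126 : pfC (piC [(nat_lit 38632330), (nat_lit 24534081), (nat_lit 15702173)] (nat_lit 10906443)) p15_34_1 (nat_lit 3) (nat_lit 126) (nat_lit 127) = true := by decide +kernel
def p15_34_1_127 : pfC (piC [(nat_lit 38632330), (nat_lit 24534081), (nat_lit 15702173)] (nat_lit 10906443)) p15_34_1 (nat_lit 3) (nat_lit 127) (nat_lit 128) = true := by decide +kernel
def p15_34_1_128 : pfC (piC [(nat_lit 38632330), (nat_lit 24534081), (nat_lit 15702173)] (nat_lit 10906443)) p15_34_1 (nat_lit 3) (nat_lit 128) (nat_lit 129) = true := by decide +kernel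
def p15_34_1_129 : pfC (piC [(nat_lit 38632330), (nat_lit 24534081), (nat_lit 15702173)] (nat_lit 10906443)) p15_34_1 (nat_lit 3) (nat_lit 129) (nat_lit 130) = true := by decide +kernel
def p15_34_1_130 : pfC (piC [(nat_lit 38632330), (nat_lit 24534081), (nat_lit 15702173)] (nat_lit 10906443)) p15_34_1 (nat_lit 3) (nat_lit 130) (nat_lit 131) = true := by decide +kernel
def p15_34_1_131 : pfC (piC [(nat_lit 38632330), (nat_lit 24534081), (nat_lit 15702173)] (nat_lit 10906443)) p15_34_1 (nat_lit 3) (nat_lit 131) (nat_lit 132) = true := by decide +kernel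
def p15_34_1_132 : pfC (piC [(nat_lit 38632330), (nat_lit 24534081), (nat_lit 15702173)] (nat_lit 10906443)) p15_34_1 (nat_lit 3) (nat_lit 132) (nat_lit 133) = true := by decide +kernel
def p15_34_1_133 : pfC (piC [(nat_lit 38632330), (nat_lit 24534081), (nat_lit 15702173)] (nat_lit 10906443)) p15_34_1 (nat_lit 3) (nat_lit 133) (nat_lit 134) = true := by decide +kernel
def p15_34_1_134 : pfC (piC [(nat_lit 38632330), (nat_lit 24534081), (nat_lit 15702173)] (nat_lit 10906443)) p15_34_1 (nat_lit 3) (nat_lit 134) (nat_lit 135) = true := by decide +kernel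
def p15_34_1_135 : pfC (piC [(nat_lit 38632330), (nat_lit 24534081), (nat_lit 15702173)] (nat_lit 10906443)) p15_34_1 (nat_lit 3) (nat_lit 135) (nat_lit 136) = true := by decide +kernel
def p15_34_1_136 : pfC (piC [(nat_lit 38632330), (nat_lit 24534081), (nat_lit 15702173)] (nat_lit 10906443)) p15_34_1 (nat_lit 3) (nat_lit 136) (nat_lit 137) = true := by decide +kernel
def p15_34_1_137 : pfC (piC [(nat_lit 38632330), (nat_lit 24534081), (nat_lit 15702173)] (nat_lit 10906443)) p15_34_1 (nat_lit 3) (nat_lit 137) (nat_lit 138) = true := by decide +kernel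
def p15_34_1_138 : pfC (piC [(nat_lit 38632330), (nat_lit 24534081), (nat_lit 15702173)] (nat_lit 10906443)) p15_34_1 (nat_lit 3) (nat_lit 138) (nat_lit 139) = true := by decide +kernel
def p15_34_1_139 : pfC (piC [(nat_lit 38632330), (nat_lit 24534081), (nat_lit 15702173)] (nat_lit 10906443)) p15_34_1 (nat_lit 3) (nat_lit 139) (nat_lit 140) = true := by decide +kernel
def p15_34_1_140 : pfC (piC [(nat_lit 38632330), (nat_lit 24534081), (nat_lit 15702173)] (nat_lit 10906443)) p15_34_1 (nat_lit 3) (nat_lit 140) (nat_lit 141) = true := by decide +kernel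
def p15_34_1_141 : pfC (piC [(nat_lit 38632330), (nat_lit 24534081), (nat_lit 15702173)] (nat_lit 10906443)) p15_34_1 (nat_lit 3) (nat_lit 141) (nat_lit 142) = true := by decide +kernel
def p15_34_1_142 : pfC (piC [(nat_lit 38632330), (nat_lit 24534081), (nat_lit 15702173)] (nat_lit 10906443)) p15_34_1 (nat_lit 3) (nat_lit 142) (nat_lit 143) = true := by decide +kernel
def p15_34_1_143 : pfC (piC [(nat_lit 38632330), (nat_lit 24534081), (nat_lit 15702173)] (nat_lit 10906443)) p15_34_1 (nat_lit 3) (nat_lit 143) (nat_lit 144) = true := by decide +kernel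
def p15_34_1_144 : pfC (piC [(nat_lit 38632330), (nat_lit 24534081), (nat_lit 15702173)] (nat_lit 10906443)) p15_34_1 (nat_lit 3) (nat_lit 144) (nat_lit 145) = true := by decide +kernel
def p15_34_1_145 : pfC (piC [(nat_lit 38632330), (nat_lit 24534081), (nat_lit 15702173)] (nat_lit 10906443)) p15_34_1 (nat_lit 3) (nat_lit 145) (nat_lit 146) = true := by decide +kernel
def p15_34_1_146 : pfC (piC [(nat_lit 38632330), (nat_lit 24534081), (nat_lit 15702173)] (nat_lit 10906443)) p15_34_1 (nat_lit 3) (nat_lit 146) (nat_lit 147) = true := by decide +kernel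
def p15_34_1_147 : pfC (piC [(nat_lit 38632330), (nat_lit 24534081), (nat_lit 15702173)] (nat_lit 10906443)) p15_34_1 (nat_lit 3) (nat_lit 147) (nat_lit 148) = true := by decide +kernel
def p15_34_1_148 : pfC (piC [(nat_lit 38632330), (nat_lit 24534081), (nat_lit 15702173)] (nat_lit 10906443)) p15_34_1 (nat_lit 3) (nat_lit 148) (nat_lit 149) = true := by decide +kernel
def p15_34_1_149 : pfC (piC [(nat_lit 38632330), (nat_lit 24534081), (nat_lit 15702173)] (nat_lit 10906443)) p15_34_1 (nat_lit 3) (nat_lit 149) (nat_lit 150) = true := by decide +kernel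
def p15_34_1_150 : pfC (piC [(nat_lit 38632330), (nat_lit 24534081), (nat_lit 15702173)] (nat_lit 10906443)) p15_34_1 (nat_lit 3) (nat_lit 150) (nat_lit 151) = true := by decide +kernel
def p15_34_1_151 : pfC (piC [(nat_lit 38632330), (nat_lit 24534081), (nat_lit 15702173)] (nat_lit 10906443)) p15_34_1 (nat_lit 3) (nat_lit 151) (nat_lit 152) = true := by decide +kernel
def p15_34_1_152 : pfC (piC [(nat_lit 38632330), (nat_lit 24534081), (nat_lit 15702173)] (nat_lit 10906443)) p15_34_1 (nat_lit 3) (nat_lit 152) (nat_lit 153) = true := by decide +kernel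
def p15_34_1_153 : pfC (piC [(nat_lit 38632330), (nat_lit 24534081), (nat_lit 15702173)] (nat_lit 10906443)) p15_34_1 (nat_lit 3) (nat_lit 153) (nat_lit 154) = true := by decide +kernel
def p15_34_1_154 : pfC (piC [(nat_lit 38632330), (nat_lit 24534081), (nat_lit 15702173)] (nat_lit 10906443)) p15_34_1 (nat_lit 3) (nat_lit 154) (nat_lit 155) = true := by decide +kernel
def p15_34_1_155 : pfC (piC [(nat_lit 38632330), (nat_lit 24534081), (nat_lit 15702173)] (nat_lit 10906443)) p15_34_1 (nat_lit 3) (nat_lit 155) (nat_lit 156) = true := by decide +kernel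
def p15_34_1_156 : pfC (piC [(nat_lit 38632330), (nat_lit 24534081), (nat_lit 15702173)] (nat_lit 10906443)) p15_34_1 (nat_lit 3) (nat_lit 156) (nat_lit 157) = true := by decide +kernel
def p15_34_1_157 : pfC (piC [(nat_lit 38632330), (nat_lit 24534081), (nat_lit 15702173)] (nat_lit 10906443)) p15_34_1 (nat_lit 3) (nat_lit 157) (nat_lit 158) = true := by decide +kernel
def p15_34_1_158 : pfC (piC [(nat_lit 38632330), (nat_lit 24534081), (nat_lit 15702173)] (nat_lit 10906443)) p15_34_1 (nat_lit 3) (nat_lit 158) (nat_lit 159) = true := by decide +kernel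
def p15_34_1_159 : pfC (piC [(nat_lit 38632330), (nat_lit 24534081), (nat_lit 15702173)] (nat_lit 10906443)) p15_34_1 (nat_lit 3) (nat_lit 159) (nat_lit 160) = true := by decide +kernel
def p15_34_1_160 : pfC (piC [(nat_lit 38632330), (nat_lit 24534081), (nat_lit 15702173)] (nat_lit 10906443)) p15_34_1 (nat_lit 3) (nat_lit 160) (nat_lit 161) = true := by decide +kernel
def p15_34_1_161 : pfC (piC [(nat_lit 38632330), (nat_lit 24534081), (nat_lit 15702173)] (nat_lit 10906443)) p15_34_1 (nat_lit 3) (nat_lit 161) (nat_lit 162) = true := by decide +kernel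
def p15_34_1_162 : pfC (piC [(nat_lit 38632330), (nat_lit 24534081), (nat_lit 15702173)] (nat_lit 10906443)) p15_34_1 (nat_lit 3) (nat_lit 162) (nat_lit 163) = true := by decide +kernel
def p15_34_1_163 : pfC (piC [(nat_lit 38632330), (nat_lit 24534081), (nat_lit 15702173)] (nat_lit 10906443)) p15_34_1 (nat_lit 3) (nat_lit 163) (nat_lit 164) = true := by decide +kernel
def p15_34_1_164 : pfC (piC [(nat_lit 38632330), (nat_lit 24534081), (nat_lit 15702173)] (nat_lit 10906443)) p15_34_1 (nat_lit 3) (nat_lit 164) (nat_lit 165) = true := by decide +kernel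
def p15_34_1_165 : pfC (piC [(nat_lit 38632330), (nat_lit 24534081), (nat_lit 15702173)] (nat_lit 10906443)) p15_34_1 (nat_lit 3) (nat_lit 165) (nat_lit 166) = true := by decide +kernel
def p15_34_1_166 : pfC (piC [(nat_lit 38632330), (nat_lit 24534081), (nat_lit 15702173)] (nat_lit 10906443)) p15_34_1 (nat_lit 3) (nat_lit 166) (nat_lit 167) = true := by decide +kernel
def p15_34_1_167 : pfC (piC [(nat_lit 38632330), (nat_lit 24534081), (nat_lit 15702173)] (nat_lit 10906443)) p15_34_1 (nat_lit 3) (nat_lit 167) (nat_lit 168) = true := by decide +kernel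
def p15_34_1_168 : pfC (piC [(nat_lit 38632330), (nat_lit 24534081), (nat_lit 15702173)] (nat_lit 10906443)) p15_34_1 (nat_lit 3) (nat_lit 168) (nat_lit 169) = true := by decide +kernel
def p15_34_1_169 : pfC (piC [(nat_lit 38632330), (nat_lit 24534081), (nat_lit 15702173)] (nat_lit 10906443)) p15_34_1 (nat_lit 3) (nat_lit 169) (nat_lit 170) = true := by decide +kernel
def p15_34_1_170 : pfC (piC [(nat_lit 38632330), (nat_lit 24534081), (nat_lit 15702173)] (nat_lit 10906443)) p15_34_1 (nat_lit 3) (nat_lit 170) (nat_lit 171) = true := by decide +kernel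
def p15_34_1_171 : pfC (piC [(nat_lit 38632330), (nat_lit 24534081), (nat_lit 15702173)] (nat_lit 10906443)) p15_34_1 (nat_lit 3) (nat_lit 171) (nat_lit 172) = true := by decide +kernel
def p15_34_1_172 : pfC (piC [(nat_lit 38632330), (nat_lit 24534081), (nat_lit 15702173)] (nat_lit 10906443)) p15_34_1 (nat_lit 3) (nat_lit 172) (nat_lit 173) = true := by decide +kernel
theorem p15_34_1_T : PfS (PiF n15_34.reverse (nat_lit 10906443)) p15_34_1 (nat_lit 3) [] 0 :=
  pftab_of (los := [(nat_lit 38632330), (nat_lit 24534081), (nat_lit 15702173)]) (by decide +kernel) (hi := (nat_lit 173)) (PfP.trans (PfP.trans (PfP.trans (PfP.trans (PfP.trans (PfP.trans (PfP.trans (PfP.trans (PfP.trans (PfP.trans (PfP.trans (PfP.trans (PfP.trans (PfP.trans (PfP.trans (PfP.trans (PfP.trans (PfP.trans (PfP.trans (PfP.trans (PfP.trans (PfP.trans (PfP.trans (PfP.trans (PfP.trans (PfP.trans (PfP.trans (PfP.trans (PfP.trans (PfP.trans (PfP.trans (PfP.trans (PfP.trans (PfP.trans (PfP.trans (PfP.trans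 (PfP.trans (PfP.trans (PfP.trans (PfP.trans (PfP.trans (PfP.trans (PfP.trans (PfP.trans (PfP.trans (PfP.trans (PfP.trans (PfP.trans (PfP.trans (PfP.trans (PfP.trans (PfP.trans (PfP.trans (PfP.trans (PfP.trans (PfP.trans (PfP.trans (PfP.trans (PfP.trans (PfP.trans (PfP.trans (PfP.trans (PfP.trans (PfP.trans (PfP.trans (PfP.trans (PfP.trans (PfP.trans (PfP.trans (PfP.trans (PfP.trans (PfP.trans (PfP.trans (PfP.trans (PfP.trans (PfP.trans (PfP.trans (PfP.trans (PfP.trans (PfP.trans (PfP.trans (PfP.trans (PfP.trans (PfP.trans (PfP.trans (PfP.trans (PfP.trans (PfP.trans (PfP.trans (PfP.trans (PfP.trans (PfP.trans (PfP.trans (PfP.trans (PfP.trans (PfP.trans (PfP.trans (PfP.trans (PfP.trans (PfP.trans (PfP.trans (PfP.trans (PfP.trans (PfP.trans (PfP.trans (PfP.trans (PfP.trans (PfP.trans (PfP.trans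
 (PfP.trans (PfP.trans (PfP.trans (PfP.trans (PfP.trans (PfP.trans (PfP.trans (PfP.trans (PfP.trans (PfP.trans (PfP.trans (PfP.trans (PfP.trans (PfP.trans (PfP.trans (PfP.trans (PfP.trans (PfP.trans (PfP.trans (PfP.trans (PfP.trans (PfP.trans (PfP.trans (PfP.trans (PfP.trans (PfP.trans (PfP.trans (PfP.trans (PfP.trans (PfP.trans (PfP.trans (PfP.trans (PfP.trans (PfP.trans (PfP.trans (PfP.trans (PfP.trans (PfP.trans (PfP.trans (PfP.trans (PfP.trans (PfP.trans (PfP.trans (PfP.trans (PfP.trans (PfP.trans (PfP.trans (PfP.trans (PfP.trans (PfP.trans (PfP.trans (PfP.trans (PfP.trans (PfP.trans (PfP.trans (PfP.trans (PfP.trans (PfP.trans (PfP.trans (PfP.trans (PfP.trans (PfP.trans (PfP.trans (pfC_sound p15_34_1_0) (pfC_sound p15_34_1_1)) (pfC_sound p15_34_1_2)) (pfC_sound p15_34_1_3)) (pfC_sound p15_34_1_4)) (pfC_sound p15_34_1_5)) (pfC_sound p15_34_1_6)) (pfC_sound p15_34_1_7)) (pfC_sound p15_34_1_8)) (pfC_sound p15_34_1_9)) (pfC_sound p15_34_1_10)) (pfC_sound p15_34_1_11))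 (pfC_sound p15_34_1_12)) (pfC_sound p15_34_1_13)) (pfC_sound p15_34_1_14)) (pfC_sound p15_34_1_15)) (pfC_sound p15_34_1_16)) (pfC_sound p15_34_1_17)) (pfC_sound p15_34_1_18)) (pfC_sound p15_34_1_19)) (pfC_sound
 p15_34_1_20)) (pfC_sound p15_34_1_21)) (pfC_sound p15_34_1_22)) (pfC_sound p15_34_1_23)) (pfC_sound p15_34_1_24)) (pfC_sound p15_34_1_25)) (pfC_sound p15_34_1_26)) (pfC_sound p15_34_1_27)) (pfC_sound p15_34_1_28)) (pfC_sound p15_34_1_29)) (pfC_sound p15_34_1_30)) (pfC_sound p15_34_1_31)) (pfC_sound p15_34_1_32)) (pfC_sound p15_34_1_33)) (pfC_sound p15_34_1_34)) (pfC_sound p15_34_1_35)) (pfC_sound p15_34_1_36)) (pfC_sound p15_34_1_37)) (pfC_sound p15_34_1_38)) (pfC_sound p15_34_1_39)) (pfC_sound p15_34_1_40)) (pfC_sound p15_34_1_41)) (pfC_sound p15_34_1_42)) (pfC_sound p15_34_1_43)) (pfC_sound p15_34_1_44)) (pfC_sound p15_34_1_45)) (pfC_sound p15_34_1_46)) (pfC_sound p15_34_1_47)) (pfC_sound p15_34_1_48)) (pfC_sound p15_34_1_49)) (pfC_sound p15_34_1_50)) (pfC_sound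 p15_34_1_51)) (pfC_sound p15_34_1_52)) (pfC_sound p15_34_1_53)) (pfC_sound p15_34_1_54)) (pfC_sound p15_34_1_55)) (pfC_sound p15_34_1_56)) (pfC_sound p15_34_1_57)) (pfC_sound p15_34_1_58)) (pfC_sound p15_34_1_59)) (pfC_sound p15_34_1_60)) (pfC_sound p15_34_1_61)) (pfC_sound p15_34_1_62)) (pfC_sound p15_34_1_63)) (pfC_sound p15_34_1_64)) (pfC_sound p15_34_1_65)) (pfC_sound p15_34_1_66)) (pfC_sound p15_34_1_67)) (pfC_sound
 p15_34_1_68)) (pfC_sound p15_34_1_69)) (pfC_sound p15_34_1_70)) (pfC_sound p15_34_1_71)) (pfC_sound p15_34_1_72)) (pfC_sound p15_34_1_73)) (pfC_sound p15_34_1_74)) (pfC_sound p15_34_1_75)) (pfC_sound p15_34_1_76)) (pfC_sound p15_34_1_77)) (pfC_sound p15_34_1_78)) (pfC_sound p15_34_1_79)) (pfC_sound p15_34_1_80)) (pfC_sound p15_34_1_81)) (pfC_sound p15_34_1_82)) (pfC_sound p15_34_1_83)) (pfC_sound p15_34_1_84)) (pfC_sound p15_34_1_85)) (pfC_sound p15_34_1_86)) (pfC_sound p15_34_1_87)) (pfC_sound p15_34_1_88)) (pfC_sound p15_34_1_89)) (pfC_sound p15_34_1_90))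 (pfC_sound p15_34_1_91)) (pfC_sound p15_34_1_92)) (pfC_sound p15_34_1_93)) (pfC_sound p15_34_1_94)) (pfC_sound p15_34_1_95)) (pfC_sound p15_34_1_96)) (pfC_sound p15_34_1_97)) (pfC_sound p15_34_1_98)) (pfC_sound p15_34_1_99)) (pfC_sound p15_34_1_100)) (pfC_sound p15_34_1_101)) (pfC_sound p15_34_1_102)) (pfC_sound p15_34_1_103)) (pfC_sound p15_34_1_104)) (pfC_sound p15_34_1_105)) (pfC_sound p15_34_1_106)) (pfC_sound p15_34_1_107)) (pfC_sound p15_34_1_108)) (pfC_sound p15_34_1_109)) (pfC_sound p15_34_1_110)) (pfC_sound p15_34_1_111)) (pfC_sound p15_34_1_112)) (pfC_sound p15_34_1_113)) (pfC_sound p15_34_1_114)) (pfC_sound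
 p15_34_1_115)) (pfC_sound p15_34_1_116)) (pfC_sound p15_34_1_117)) (pfC_sound p15_34_1_118)) (pfC_sound p15_34_1_119)) (pfC_sound p15_34_1_120)) (pfC_sound p15_34_1_121)) (pfC_sound p15_34_1_122)) (pfC_sound p15_34_1_123)) (pfC_sound p15_34_1_124)) (pfC_sound p15_34_1_125)) (pfC_sound p15_34_1_126)) (pfC_sound p15_34_1_127)) (pfC_sound p15_34_1_128)) (pfC_sound p15_34_1_129)) (pfC_sound p15_34_1_130)) (pfC_sound p15_34_1_131)) (pfC_sound p15_34_1_132)) (pfC_sound p15_34_1_133)) (pfC_sound p15_34_1_134)) (pfC_sound p15_34_1_135)) (pfC_sound p15_34_1_136)) (pfC_sound p15_34_1_137)) (pfC_sound p15_34_1_138)) (pfC_sound p15_34_1_139)) (pfC_sound p15_34_1_140)) (pfC_sound p15_34_1_141)) (pfC_sound p15_34_1_142)) (pfC_sound p15_34_1_143)) (pfC_sound p15_34_1_144)) (pfC_sound p15_34_1_145)) (pfC_sound p15_34_1_146)) (pfC_sound p15_34_1_147)) (pfC_sound p15_34_1_148)) (pfC_sound p15_34_1_149)) (pfC_sound p15_34_1_150)) (pfC_sound p15_34_1_151)) (pfC_sound p15_34_1_152)) (pfC_sound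 p15_34_1_153)) (pfC_sound p15_34_1_154)) (pfC_sound p15_34_1_155)) (pfC_sound p15_34_1_156)) (pfC_sound p15_34_1_157)) (pfC_sound p15_34_1_158)) (pfC_sound p15_34_1_159)) (pfC_sound p15_34_1_160)) (pfC_sound
 p15_34_1_161)) (pfC_sound p15_34_1_162)) (pfC_sound p15_34_1_163)) (pfC_sound p15_34_1_164)) (pfC_sound p15_34_1_165)) (pfC_sound p15_34_1_166)) (pfC_sound p15_34_1_167)) (pfC_sound p15_34_1_168)) (pfC_sound p15_34_1_169)) (pfC_sound p15_34_1_170)) (pfC_sound p15_34_1_171)) (pfC_sound p15_34_1_172)) (by decide +kernel)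

def z15_34_1 : zOK yB15_34 (nat_lit 1) (nat_lit 400) (nat_lit 600) (nat_lit 10906443) (nat_lit 6871653) = true := by decide +kernel
def g15_34_1 : gOK yB15_34.x P15_34 (nat_lit 1394) (q15_34 :: r15_34) (nat_lit 1) (nat_lit 400) (nat_lit 2) (nat_lit 600) (nat_lit 11000000) (nat_lit 17850000) (nat_lit 12712500) (nat_lit 12712500) [(nat_lit 800), (nat_lit 1130)] = true := by decide +kernel
def v15_34_1 : ivC P15_34 s15_34 w15_34 n15_34 (nat_lit 3) (nat_lit 4900) (nat_lit 1) (nat_lit 400) f176_0_400 f184_0_400 (nat_lit 2) (nat_lit 600) f176_0_600 f184_0_600 (nat_lit 10906443) (nat_lit 6871653) p15_34_1 = true := by decide +kernel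
def p15_34_2 : PF := (PF.cons (PF.cons (PF.cons (PF.leaf (nat_lit 2678461) (nat_lit 15237346) (nat_lit 51871466) (nat_lit 15237346) [(nat_lit 0), (nat_lit 0), (nat_lit 0)]) (PF.cons (PF.leaf (nat_lit 2854963) (nat_lit 313767) (nat_lit 51572844) (nat_lit 15222201) [(nat_lit 313767), (nat_lit 0), (nat_lit 0)]) (PF.cons (PF.leaf (nat_lit 3063102) (nat_lit 340788) (nat_lit 51224397) (nat_lit 15202838) [(nat_lit 340788), (nat_lit 0), (nat_lit 0)]) (PF.cons (PF.leaf (nat_lit 3296354) (nat_lit 364607) (nat_lit 50835820) (nat_lit 15179169) [(nat_lit 364607), (nat_lit 0), (nat_lit 0)]) (PF.cons (PF.leaf (nat_lit 3550893) (nat_lit 385924) (nat_lit 50414044) (nat_lit 15151072) [(nat_lit 385924), (nat_lit 0), (nat_lit 0)]) (PF.cons (PF.leaf (nat_lit 3823774) (nat_lit 405186) (nat_lit 49964441) (nat_lit 15118439) [(nat_lit 405186), (nat_lit 0), (nat_lit 0)]) (PF.cons (PF.leaf (nat_lit 4112606) (nat_lit 422702) (nat_lit 49491397) (nat_lit 15081197) [(nat_lit 422702), (nat_lit 0),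 (nat_lit 0)]) (PF.cons (PF.leaf (nat_lit 4415372) (nat_lit 438698) (nat_lit 48998611) (nat_lit 15039312) [(nat_lit 438698), (nat_lit 0), (nat_lit 0)]) (PF.cons (PF.leaf (nat_lit 4730302) (nat_lit 453343) (nat_lit 48489271) (nat_lit
 14992791) [(nat_lit 453343), (nat_lit 0), (nat_lit 0)]) (PF.cons (PF.leaf (nat_lit 5055814) (nat_lit 466773) (nat_lit 47966168) (nat_lit 14941685) [(nat_lit 466773), (nat_lit 0), (nat_lit 0)]) (PF.cons (PF.leaf (nat_lit 5390596) (nat_lit 479096) (nat_lit 47431771) (nat_lit 14886076) [(nat_lit 479096), (nat_lit 0), (nat_lit 0)]) (PF.cons (PF.leaf (nat_lit 5733288) (nat_lit 490404) (nat_lit 46888279) (nat_lit 14826081) [(nat_lit 490404), (nat_lit 0), (nat_lit 0)]) (PF.cons (PF.leaf (nat_lit 6082820) (nat_lit 500775) (nat_lit 46337660) (nat_lit 14761844) [(nat_lit 500775), (nat_lit 0), (nat_lit 0)]) (PF.cons (PF.leaf (nat_lit 6438120) (nat_lit 510276) (nat_lit 45781679) (nat_lit 14693532) [(nat_lit 510276), (nat_lit 0), (nat_lit 0)]) (PF.cons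 (PF.leaf (nat_lit 6798232) (nat_lit 518968) (nat_lit 45221921) (nat_lit 14621331) [(nat_lit 518968), (nat_lit 0), (nat_lit 0)]) (PF.cons PF.nil (PF.cons PF.nil (PF.cons PF.nil PF.nil)))))))))))))))))) (PF.cons (PF.cons (PF.leaf (nat_lit 3367662) (nat_lit 1751426) (nat_lit 50227977) (nat_lit 15129409) [(nat_lit 0), (nat_lit 1751426), (nat_lit 0)]) (PF.cons (PF.leaf (nat_lit 3596223) (nat_lit 381337) (nat_lit 49841483) (nat_lit 15100525) [(nat_lit
 381337), (nat_lit 1785466), (nat_lit 0)]) (PF.cons (PF.leaf (nat_lit 3847904) (nat_lit 401397) (nat_lit 49420516) (nat_lit 15066832) [(nat_lit 401397), (nat_lit 1818669), (nat_lit 0)]) (PF.cons (PF.leaf (nat_lit 4118369) (nat_lit 419402) (nat_lit 48971766) (nat_lit 15028413) [(nat_lit 419402), (nat_lit 1850425), (nat_lit 0)]) (PF.cons (PF.leaf (nat_lit 4404787) (nat_lit 435703) (nat_lit 48500261) (nat_lit 14985326) [(nat_lit 435703), (nat_lit 1880412), (nat_lit 0)]) (PF.cons (PF.leaf (nat_lit 4704927) (nat_lit 450539) (nat_lit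 48010011) (nat_lit 14937637) [(nat_lit 450539), (nat_lit 1908468), (nat_lit 0)]) (PF.cons (PF.leaf (nat_lit 5016980) (nat_lit 464085) (nat_lit 47504341) (nat_lit 14885432) [(nat_lit 464085), (nat_lit 1934523), (nat_lit 0)]) (PF.cons (PF.leaf (nat_lit 5339284) (nat_lit 476478) (nat_lit 46986083) (nat_lit 14828817) [(nat_lit 476478), (nat_lit 1958563), (nat_lit 0)]) (PF.cons (PF.leaf (nat_lit 5670437) (nat_lit 487823) (nat_lit 46457688) (nat_lit 14767926) [(nat_lit 487823), (nat_lit 1980610), (nat_lit 0)]) (PF.cons (PF.leaf (nat_lit 6009164) (nat_lit 498210) (nat_lit 45921304) (nat_lit 14702908) [(nat_lit 498210), (nat_lit 2000705), (nat_lit 0)]) (PF.cons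
 (PF.leaf (nat_lit 6354346) (nat_lit 507714) (nat_lit 45378828) (nat_lit 14633936) [(nat_lit 507714), (nat_lit 2018908), (nat_lit 0)]) (PF.cons (PF.leaf (nat_lit 6704981) (nat_lit 516399) (nat_lit 44831945) (nat_lit 14561194) [(nat_lit 516399), (nat_lit 2035283), (nat_lit 0)]) (PF.cons (PF.leaf (nat_lit 7060099) (nat_lit 524322) (nat_lit 44282155) (nat_lit 14484882) [(nat_lit 524322), (nat_lit 2049903), (nat_lit 0)]) (PF.cons PF.nil (PF.cons PF.nil (PF.cons PF.nil PF.nil)))))))))))))))) (PF.cons (PF.cons (PF.leaf (nat_lit 4145771) (nat_lit 1862684) (nat_lit 48414526) (nat_lit 14968917) [(nat_lit 0), (nat_lit 1862684), (nat_lit 0)]) (PF.cons (PF.leaf (nat_lit 4410932) (nat_lit 430990) (nat_lit 47972915) (nat_lit 14925657) [(nat_lit 430990), (nat_lit 1889624), (nat_lit 0)]) (PF.cons (PF.leaf (nat_lit 4693247) (nat_lit 446404) (nat_lit 47507914) (nat_lit 14877600) [(nat_lit 446404), (nat_lit 1915244), (nat_lit 0)]) (PF.cons (PF.leaf (nat_lit 4989534) (nat_lit 460339)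 (nat_lit 47024251) (nat_lit 14824941) [(nat_lit 460339), (nat_lit 1939301), (nat_lit 0)]) (PF.cons (PF.leaf (nat_lit 5297681) (nat_lit 472996) (nat_lit 46525625) (nat_lit 14767855) [(nat_lit 472996), (nat_lit 1961672),
 (nat_lit 0)]) (PF.cons (PF.leaf (nat_lit 5615971) (nat_lit 484526) (nat_lit 46015054) (nat_lit 14706515) [(nat_lit 484526), (nat_lit 1982305), (nat_lit 0)]) (PF.cons (PF.leaf (nat_lit 5942903) (nat_lit 495042) (nat_lit 45495073) (nat_lit 14641101) [(nat_lit 495042), (nat_lit 2001190), (nat_lit 0)]) (PF.cons (PF.leaf (nat_lit 6277180) (nat_lit 504637) (nat_lit 44967850) (nat_lit 14571801) [(nat_lit 504637), (nat_lit 2018348), (nat_lit 0)]) (PF.cons (PF.leaf (nat_lit 6617662) (nat_lit 513387) (nat_lit 44435266) (nat_lit 14498810) [(nat_lit 513387), (nat_lit 2033816), (nat_lit 0)]) (PF.cons (PF.leaf (nat_lit 6963332) (nat_lit 521358) (nat_lit 43898966) (nat_lit 14422331) [(nat_lit 521358), (nat_lit 2047644), (nat_lit 0)]) (PF.cons (PF.leaf (nat_lit 7313265)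 (nat_lit 528605) (nat_lit 43360398) (nat_lit 14342574) [(nat_lit 528605), (nat_lit 2059891), (nat_lit 0)]) (PF.cons PF.nil (PF.cons PF.nil (PF.cons PF.nil PF.nil)))))))))))))) (PF.cons (PF.cons (PF.leaf (nat_lit 4979577) (nat_lit 1944238) (nat_lit 46517154) (nat_lit 14758941) [(nat_lit 0), (nat_lit 1944238), (nat_lit 0)]) (PF.cons (PF.leaf (nat_lit 5270048) (nat_lit 468294) (nat_lit 46043992) (nat_lit 14702220) [(nat_lit 468294),
 (nat_lit 1964768), (nat_lit 0)]) (PF.cons (PF.leaf (nat_lit 5573191) (nat_lit 480255) (nat_lit 45555549) (nat_lit 14641095) [(nat_lit 480255), (nat_lit 1983885), (nat_lit 0)]) (PF.cons (PF.leaf (nat_lit 5886595) (nat_lit 491080) (nat_lit 45055240) (nat_lit 14575824) [(nat_lit 491080), (nat_lit 2001502), (nat_lit 0)]) (PF.cons (PF.leaf (nat_lit 6208654) (nat_lit 500902) (nat_lit 44545812) (nat_lit 14506643) [(nat_lit 500902), (nat_lit 2017582), (nat_lit 0)]) (PF.cons (PF.leaf (nat_lit 6537962) (nat_lit 509821) (nat_lit 44029537) (nat_lit 14433779)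 [(nat_lit 509821), (nat_lit 2032128), (nat_lit 0)]) (PF.cons (PF.leaf (nat_lit 6873347) (nat_lit 517921) (nat_lit 43508342) (nat_lit 14357457) [(nat_lit 517921), (nat_lit 2045161), (nat_lit 0)]) (PF.cons (PF.leaf (nat_lit 7213756) (nat_lit 525268) (nat_lit 42983876) (nat_lit 14277898) [(nat_lit 525268), (nat_lit 2056718), (nat_lit 0)]) (PF.cons (PF.leaf (nat_lit 7558268) (nat_lit 531922) (nat_lit 42457570) (nat_lit 14195321) [(nat_lit 531922), (nat_lit 2066847), (nat_lit 0)]) (PF.cons (PF.leaf (nat_lit 7906082) (nat_lit 537932) (nat_lit 41930670) (nat_lit 14109946) [(nat_lit 537932), (nat_lit 2075600), (nat_lit 0)]) (PF.cons PF.nil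
 (PF.cons PF.nil PF.nil)))))))))))) (PF.cons (PF.cons (PF.leaf (nat_lit 5844772) (nat_lit 2001757) (nat_lit 44595704) (nat_lit 14506078) [(nat_lit 0), (nat_lit 2001757), (nat_lit 0)]) (PF.cons (PF.leaf (nat_lit 6151948) (nat_lit 496264) (nat_lit 44108121) (nat_lit 14437687) [(nat_lit 496264), (nat_lit 2016685), (nat_lit 0)]) (PF.cons (PF.leaf (nat_lit 6468375) (nat_lit 505519) (nat_lit 43611221) (nat_lit 14365490) [(nat_lit 505519), (nat_lit 2030265), (nat_lit 0)]) (PF.cons (PF.leaf (nat_lit 6792160) (nat_lit 513873) (nat_lit 43107502) (nat_lit 14289766) [(nat_lit 513873), (nat_lit 2042481), (nat_lit 0)]) (PF.cons (PF.leaf (nat_lit 7122025) (nat_lit 521417) (nat_lit 42599009) (nat_lit 14210773) [(nat_lit 521417), (nat_lit 2053339), (nat_lit 0)]) (PF.cons (PF.leaf (nat_lit 7456879) (nat_lit 528226) (nat_lit 42087450) (nat_lit 14128754) [(nat_lit 528226), (nat_lit 2062868), (nat_lit 0)]) (PF.cons (PF.leaf (nat_lit 7795767) (nat_lit 534362) (nat_lit 41574278) (nat_lit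 14043944) [(nat_lit 534362), (nat_lit 2071103), (nat_lit 0)]) (PF.cons (PF.leaf (nat_lit 8137845) (nat_lit 539878) (nat_lit 41060736) (nat_lit 13956569) [(nat_lit 539878), (nat_lit 2078089), (nat_lit 0)]) (PF.cons PF.nil
 (PF.cons PF.nil PF.nil)))))))))) (PF.cons (PF.cons (PF.leaf (nat_lit 6723177) (nat_lit 2039649) (nat_lit 42692092) (nat_lit 14218473) [(nat_lit 0), (nat_lit 2039649), (nat_lit 0)]) (PF.cons (PF.leaf (nat_lit 7040466) (nat_lit 516880) (nat_lit 42202445) (nat_lit 14140580) [(nat_lit 516880), (nat_lit 2049781), (nat_lit 0)]) (PF.cons (PF.leaf (nat_lit 7364332) (nat_lit 523961) (nat_lit 41707852) (nat_lit 14059553) [(nat_lit 523961), (nat_lit 2058696), (nat_lit 0)]) (PF.cons (PF.leaf (nat_lit 7693285) (nat_lit 530313) (nat_lit 41210150) (nat_lit 13975667) [(nat_lit 530313), (nat_lit 2066410), (nat_lit 0)]) (PF.cons (PF.leaf (nat_lit 8026303) (nat_lit 536003) (nat_lit 40710858) (nat_lit 13889175) [(nat_lit 536003), (nat_lit 2072952), (nat_lit 0)]) (PF.cons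 (PF.leaf (nat_lit 8362514) (nat_lit 541089) (nat_lit 40211254) (nat_lit 13800314) [(nat_lit 541089), (nat_lit 2078359), (nat_lit 0)]) (PF.cons PF.nil (PF.cons PF.nil PF.nil)))))))) (PF.cons (PF.cons (PF.leaf (nat_lit 7601282) (nat_lit 2061532) (nat_lit 40835118) (nat_lit 13904496) [(nat_lit 0), (nat_lit 2061532), (nat_lit 0)]) (PF.cons (PF.leaf (nat_lit 7923613) (nat_lit 531596) (nat_lit 40352152) (nat_lit 13819311) [(nat_lit
 531596), (nat_lit 2067625), (nat_lit 0)]) (PF.cons (PF.leaf (nat_lit 8250479) (nat_lit 536910) (nat_lit 39867408) (nat_lit 13731657) [(nat_lit 536910), (nat_lit 2072654), (nat_lit 0)]) (PF.cons (PF.leaf (nat_lit 8580630) (nat_lit 541627) (nat_lit 39382240) (nat_lit 13641790) [(nat_lit 541627), (nat_lit 2076649), (nat_lit 0)]) (PF.cons (PF.leaf (nat_lit 8913266) (nat_lit 545800) (nat_lit 38897774) (nat_lit 13549943) [(nat_lit 545800), (nat_lit 2079649), (nat_lit 0)]) (PF.cons PF.nil PF.nil)))))) (PF.cons (PF.cons (PF.leaf (nat_lit 8469215) (nat_lit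 2070436) (nat_lit 39043808) (nat_lit 13571949) [(nat_lit 0), (nat_lit 2070436), (nat_lit 0)]) (PF.cons (PF.leaf (nat_lit 8792768) (nat_lit 541545) (nat_lit 38573526) (nat_lit 13481529) [(nat_lit 541545), (nat_lit 2073172), (nat_lit 0)]) (PF.cons (PF.leaf (nat_lit 9119249) (nat_lit 545415) (nat_lit 38103730) (nat_lit 13389255) [(nat_lit 545415), (nat_lit 2074999), (nat_lit 0)]) (PF.cons PF.nil PF.nil)))) (PF.cons (PF.cons (PF.leaf (nat_lit 9319962) (nat_lit 2068900) (nat_lit 37329934) (nat_lit 13227674) [(nat_lit 0), (nat_lit 2068900), (nat_lit 0)]) (PF.cons PF.nil PF.nil)) (PF.cons PF.nil (PF.cons PF.nil PF.nil))))))))))) (PF.cons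
 (PF.cons (PF.cons (PF.leaf (nat_lit 4330894) (nat_lit 6272541) (nat_lit 46190677) (nat_lit 14645593) [(nat_lit 0), (nat_lit 0), (nat_lit 6272541)]) (PF.cons (PF.leaf (nat_lit 4565517) (nat_lit 408156) (nat_lit 45817001) (nat_lit 14601539) [(nat_lit 408156), (nat_lit 0), (nat_lit 6282115)]) (PF.cons (PF.leaf (nat_lit 4821324) (nat_lit 426283) (nat_lit 45413556) (nat_lit 14552209) [(nat_lit 426283), (nat_lit 0), (nat_lit 6290479)]) (PF.cons (PF.leaf (nat_lit 5093752) (nat_lit 442167) (nat_lit 44986992) (nat_lit 14498098) [(nat_lit 442167), (nat_lit 0), (nat_lit 6297220)]) (PF.cons (PF.leaf (nat_lit 5380025) (nat_lit 456251) (nat_lit 44542176) (nat_lit 14439568) [(nat_lit 456251), (nat_lit 0), (nat_lit 6302062)]) (PF.cons (PF.leaf (nat_lit 5677897) (nat_lit 468837) (nat_lit 44082876) (nat_lit 14376917) [(nat_lit 468837), (nat_lit 0), (nat_lit 6304830)]) (PF.cons (PF.leaf (nat_lit 5985568) (nat_lit 480142) (nat_lit 43612131) (nat_lit 14310407) [(nat_lit 480142), (nat_lit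 0), (nat_lit 6305417)]) (PF.cons (PF.leaf (nat_lit 6301525) (nat_lit 490328) (nat_lit 43132457) (nat_lit 14240279) [(nat_lit 490328), (nat_lit 0), (nat_lit 6303772)]) (PF.cons (PF.leaf (nat_lit 6624487) (nat_lit
 499523) (nat_lit 42645978) (nat_lit 14166765) [(nat_lit 499523), (nat_lit 0), (nat_lit 6299880)]) (PF.cons (PF.leaf (nat_lit 6953329) (nat_lit 507828) (nat_lit 42154510) (nat_lit 14090088) [(nat_lit 507828), (nat_lit 0), (nat_lit 6293760)]) (PF.cons (PF.leaf (nat_lit 7287056) (nat_lit 515327) (nat_lit 41659623) (nat_lit 14010465) [(nat_lit 515327), (nat_lit 0), (nat_lit 6285451)]) (PF.cons (PF.leaf (nat_lit 7624782) (nat_lit 522091) (nat_lit 41162683) (nat_lit 13928111) [(nat_lit 522091), (nat_lit 0), (nat_lit 6275012)]) (PF.cons PF.nil (PF.cons PF.nil PF.nil)))))))))))))) (PF.cons (PF.cons (PF.leaf (nat_lit 5099788) (nat_lit 1915665) (nat_lit 44478798) (nat_lit 14423731) [(nat_lit 0), (nat_lit 1915665), (nat_lit 6290617)]) (PF.cons (PF.leaf (nat_lit 5364981)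 (nat_lit 449336) (nat_lit 44064107) (nat_lit 14367054) [(nat_lit 449336), (nat_lit 1934992), (nat_lit 6293321)]) (PF.cons (PF.leaf (nat_lit 5645402) (nat_lit 462801) (nat_lit 43630124) (nat_lit 14305814) [(nat_lit 462801), (nat_lit 1953030), (nat_lit 6294240)]) (PF.cons (PF.leaf (nat_lit 5937885) (nat_lit 474740) (nat_lit 43181293) (nat_lit 14240436) [(nat_lit 474740), (nat_lit 1969644), (nat_lit 6293218)]) (PF.cons (PF.leaf
 (nat_lit 6240426) (nat_lit 485397) (nat_lit 42721009) (nat_lit 14171264) [(nat_lit 485397), (nat_lit 1984781), (nat_lit 6290166)]) (PF.cons (PF.leaf (nat_lit 6551332) (nat_lit 494951) (nat_lit 42251976) (nat_lit 14098594) [(nat_lit 494951), (nat_lit 1998436), (nat_lit 6285046)]) (PF.cons (PF.leaf (nat_lit 6869236) (nat_lit 503536) (nat_lit 41776413) (nat_lit 14022693) [(nat_lit 503536), (nat_lit 2010632), (nat_lit 6277852)]) (PF.cons (PF.leaf (nat_lit 7192963) (nat_lit 511259) (nat_lit 41296176) (nat_lit 13943806) [(nat_lit 511259), (nat_lit 2021407),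 (nat_lit 6268607)]) (PF.cons (PF.leaf (nat_lit 7521485) (nat_lit 518204) (nat_lit 40812840) (nat_lit 13862170) [(nat_lit 518204), (nat_lit 2030811), (nat_lit 6257356)]) (PF.cons (PF.leaf (nat_lit 7853900) (nat_lit 524443) (nat_lit 40327758) (nat_lit 13778005) [(nat_lit 524443), (nat_lit 2038899), (nat_lit 6244157)]) (PF.cons (PF.leaf (nat_lit 8189444) (nat_lit 530037) (nat_lit 39842097) (nat_lit 13691526) [(nat_lit 530037), (nat_lit 2045730), (nat_lit 6229079)]) (PF.cons PF.nil PF.nil)))))))))))) (PF.cons (PF.cons (PF.leaf (nat_lit 5908580) (nat_lit 1968742) (nat_lit 42726444) (nat_lit 14165195) [(nat_lit 0), (nat_lit 1968742),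
 (nat_lit 6279688)]) (PF.cons (PF.leaf (nat_lit 6194067) (nat_lit 479232) (nat_lit 42290808) (nat_lit 14097885) [(nat_lit 479232), (nat_lit 1982763), (nat_lit 6275359)]) (PF.cons (PF.leaf (nat_lit 6490566) (nat_lit 489405) (nat_lit 41843076) (nat_lit 14026755) [(nat_lit 489405), (nat_lit 1995521), (nat_lit 6269127)]) (PF.cons (PF.leaf (nat_lit 6795756) (nat_lit 498458) (nat_lit 41386327) (nat_lit 13952178) [(nat_lit 498458), (nat_lit 2006981), (nat_lit 6260966)]) (PF.cons (PF.leaf (nat_lit 7108114) (nat_lit 506543) (nat_lit 40922987) (nat_lit 13874473) [(nat_lit 506543), (nat_lit 2017145), (nat_lit 6250883)]) (PF.cons (PF.leaf (nat_lit 7426368) (nat_lit 513776) (nat_lit 40455025) (nat_lit 13793920) [(nat_lit 513776), (nat_lit 2026037), (nat_lit 6238907)]) (PF.cons (PF.leaf (nat_lit 7749439) (nat_lit 520248) (nat_lit 39984074) (nat_lit 13710774) [(nat_lit 520248), (nat_lit 2033692), (nat_lit 6225085)]) (PF.cons (PF.leaf (nat_lit 8076393) (nat_lit 526034) (nat_lit 39511509)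 (nat_lit 13625271) [(nat_lit 526034), (nat_lit 2040155), (nat_lit 6209477)]) (PF.cons (PF.leaf (nat_lit 8406423) (nat_lit 531197) (nat_lit 39038501) (nat_lit 13537630) [(nat_lit 531197), (nat_lit 2045476),
 (nat_lit 6192151)]) (PF.cons PF.nil PF.nil)))))))))) (PF.cons (PF.cons (PF.leaf (nat_lit 6737269) (nat_lit 2003230) (nat_lit 40978738) (nat_lit 13877493) [(nat_lit 0), (nat_lit 2003230), (nat_lit 6242890)]) (PF.cons (PF.leaf (nat_lit 7035600) (nat_lit 500927) (nat_lit 40535915) (nat_lit 13801657) [(nat_lit 500927), (nat_lit 2012735), (nat_lit 6232104)]) (PF.cons (PF.leaf (nat_lit 7341839) (nat_lit 508620) (nat_lit 40086050) (nat_lit 13722728) [(nat_lit 508620), (nat_lit 2021090), (nat_lit 6219521)]) (PF.cons (PF.leaf (nat_lit 7654188) (nat_lit 515453) (nat_lit 39631330) (nat_lit 13641033) [(nat_lit 515453), (nat_lit 2028302), (nat_lit 6205179)]) (PF.cons (PF.leaf (nat_lit 7971506) (nat_lit 521530) (nat_lit 39173510) (nat_lit 13556859) [(nat_lit 521530), (nat_lit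 2034397), (nat_lit 6189129)]) (PF.cons (PF.leaf (nat_lit 8292784) (nat_lit 526930) (nat_lit 38714033) (nat_lit 13470459) [(nat_lit 526930), (nat_lit 2039410), (nat_lit 6171435)]) (PF.cons (PF.leaf (nat_lit 8617167) (nat_lit 531720) (nat_lit 38254105) (nat_lit 13382068) [(nat_lit 531720), (nat_lit 2043383), (nat_lit 6152166)]) (PF.cons PF.nil PF.nil)))))))) (PF.cons (PF.cons (PF.leaf (nat_lit 7571452) (nat_lit 2022743)
 (nat_lit 39265617) (nat_lit 13567981) [(nat_lit 0), (nat_lit 2022743), (nat_lit 6184241)]) (PF.cons (PF.leaf (nat_lit 7877085) (nat_lit 516347) (nat_lit 38825094) (nat_lit 13485663) [(nat_lit 516347), (nat_lit 2028457), (nat_lit 6167877)]) (PF.cons (PF.leaf (nat_lit 8188275) (nat_lit 522104) (nat_lit 38381112) (nat_lit 13400925) [(nat_lit 522104), (nat_lit 2033160), (nat_lit 6149922)]) (PF.cons (PF.leaf (nat_lit 8503625) (nat_lit 527184) (nat_lit 37935242) (nat_lit 13314052) [(nat_lit 527184), (nat_lit 2036880), (nat_lit 6130442)]) (PF.cons (PF.leaf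 (nat_lit 8822199) (nat_lit 531660) (nat_lit 37488765) (nat_lit 13225294) [(nat_lit 531660), (nat_lit 2039650), (nat_lit 6109510)]) (PF.cons (PF.leaf (nat_lit 9143263) (nat_lit 535590) (nat_lit 37042740) (nat_lit 13134876) [(nat_lit 535590), (nat_lit 2041510), (nat_lit 6087200)]) PF.nil)))))) (PF.cons (PF.cons (PF.leaf (nat_lit 8400703) (nat_lit 2030188) (nat_lit 37606632) (nat_lit 13243396) [(nat_lit 0), (nat_lit 2030188), (nat_lit 6107842)]) (PF.cons (PF.leaf (nat_lit 8709485) (nat_lit 526842) (nat_lit 37174878) (nat_lit 13156457) [(nat_lit 526842), (nat_lit 2032755), (nat_lit 6086859)]) (PF.cons (PF.leaf (nat_lit 9022044) (nat_lit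
 531059) (nat_lit 36742198) (nat_lit 13067699) [(nat_lit 531059), (nat_lit 2034454), (nat_lit 6064525)]) (PF.cons (PF.leaf (nat_lit 9337241) (nat_lit 534734) (nat_lit 36309731) (nat_lit 12977364) [(nat_lit 534734), (nat_lit 2035319), (nat_lit 6040918)]) PF.nil)))) (PF.cons (PF.cons (PF.leaf (nat_lit 9217556) (nat_lit 2027950) (nat_lit 36013989) (nat_lit 12909611) [(nat_lit 0), (nat_lit 2027950), (nat_lit 6017509)]) (PF.cons (PF.leaf (nat_lit 9526394) (nat_lit 533422) (nat_lit 35595294) (nat_lit 12819674) [(nat_lit 533422), (nat_lit 2027931), (nat_lit 5992830)]) PF.nil)) (PF.cons PF.nil (PF.cons PF.nil (PF.cons PF.nil PF.nil)))))))))) (PF.cons (PF.cons (PF.cons (PF.leaf (nat_lit 5975846) (nat_lit 6171824) (nat_lit 40946712) (nat_lit 13818450) [(nat_lit 0), (nat_lit 0), (nat_lit 6171824)]) (PF.cons (PF.leaf (nat_lit 6237446) (nat_lit 458238) (nat_lit 40565044) (nat_lit 13754570) [(nat_lit 458238), (nat_lit 0), (nat_lit 6165479)]) (PF.cons (PF.leaf (nat_lit 6512738) (nat_lit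 470097) (nat_lit 40167281) (nat_lit 13686494) [(nat_lit 470097), (nat_lit 0), (nat_lit 6157420)]) (PF.cons (PF.leaf (nat_lit 6798614) (nat_lit 480432) (nat_lit 39757482) (nat_lit 13614776) [(nat_lit 480432),
 (nat_lit 0), (nat_lit 6147628)]) (PF.cons (PF.leaf (nat_lit 7093119) (nat_lit 489512) (nat_lit 39338695) (nat_lit 13539845) [(nat_lit 489512), (nat_lit 0), (nat_lit 6136110)]) (PF.cons (PF.leaf (nat_lit 7394701) (nat_lit 497532) (nat_lit 38913308) (nat_lit 13462053) [(nat_lit 497532), (nat_lit 0), (nat_lit 6122894)]) (PF.cons (PF.leaf (nat_lit 7702079) (nat_lit 504636) (nat_lit 38483246) (nat_lit 13381703) [(nat_lit 504636), (nat_lit 0), (nat_lit 6108023)]) (PF.cons (PF.leaf (nat_lit 8014174) (nat_lit 510936) (nat_lit 38050093) (nat_lit 13299061) [(nat_lit 510936), (nat_lit 0), (nat_lit 6091549)]) (PF.cons (PF.leaf (nat_lit 8330064) (nat_lit 516524) (nat_lit 37615174) (nat_lit 13214367) [(nat_lit 516524), (nat_lit 0), (nat_lit 6073536)]) (PF.cons (PF.leaf (nat_lit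 8648980) (nat_lit 521472) (nat_lit 37179609) (nat_lit 13127842) [(nat_lit 521472), (nat_lit 0), (nat_lit 6054052)]) (PF.cons PF.nil (PF.cons PF.nil PF.nil)))))))))))) (PF.cons (PF.cons (PF.leaf (nat_lit 6754184) (nat_lit 1963242) (nat_lit 39353950) (nat_lit 13536600) [(nat_lit 0), (nat_lit 1963242), (nat_lit 6127509)]) (PF.cons (PF.leaf (nat_lit 7032455) (nat_lit 482494) (nat_lit 38958067) (nat_lit 13464411) [(nat_lit
 482494), (nat_lit 1972615), (nat_lit 6115611)]) (PF.cons (PF.leaf (nat_lit 7320455) (nat_lit 491252) (nat_lit 38552387) (nat_lit 13388928) [(nat_lit 491252), (nat_lit 1980862), (nat_lit 6102064)]) (PF.cons (PF.leaf (nat_lit 7615966) (nat_lit 498925) (nat_lit 38139647) (nat_lit 13310583) [(nat_lit 498925), (nat_lit 1987982), (nat_lit 6086912)]) (PF.cons (PF.leaf (nat_lit 7917547) (nat_lit 505674) (nat_lit 37721975) (nat_lit 13229724) [(nat_lit 505674), (nat_lit 1993999), (nat_lit 6070206)]) (PF.cons (PF.leaf (nat_lit 8224027) (nat_lit 511624) (nat_lit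 37301069) (nat_lit 13146650) [(nat_lit 511624), (nat_lit 1998950), (nat_lit 6052009)]) (PF.cons (PF.leaf (nat_lit 8534415) (nat_lit 516870) (nat_lit 36878319) (nat_lit 13061619) [(nat_lit 516870), (nat_lit 2002878), (nat_lit 6032384)]) (PF.cons (PF.leaf (nat_lit 8847897) (nat_lit 521490) (nat_lit 36454880) (nat_lit 12974862) [(nat_lit 521490), (nat_lit 2005832), (nat_lit 6011402)]) (PF.cons PF.nil (PF.cons PF.nil PF.nil)))))))))) (PF.cons (PF.cons (PF.leaf (nat_lit 7544983) (nat_lit 1981819) (nat_lit 37780370) (nat_lit 13235554) [(nat_lit 0), (nat_lit 1981819), (nat_lit 6064625)]) (PF.cons (PF.leaf (nat_lit 7833382) (nat_lit 499516)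
 (nat_lit 37381415) (nat_lit 13157161) [(nat_lit 499516), (nat_lit 1987508), (nat_lit 6047851)]) (PF.cons (PF.leaf (nat_lit 8128698) (nat_lit 506003) (nat_lit 36976952) (nat_lit 13076233) [(nat_lit 506003), (nat_lit 1992206), (nat_lit 6029602)]) (PF.cons (PF.leaf (nat_lit 8429230) (nat_lit 511678) (nat_lit 36568887) (nat_lit 12993114) [(nat_lit 511678), (nat_lit 1995939), (nat_lit 6009948)]) (PF.cons (PF.leaf (nat_lit 8733884) (nat_lit 516646) (nat_lit 36158730) (nat_lit 12908092) [(nat_lit 516646), (nat_lit 1998740), (nat_lit 5988960)]) (PF.cons (PF.leaf (nat_lit 9041781) (nat_lit 520992) (nat_lit 35747708) (nat_lit 12821416) [(nat_lit 520992), (nat_lit 2000651), (nat_lit 5966711)]) (PF.cons PF.nil (PF.cons PF.nil PF.nil)))))))) (PF.cons (PF.cons (PF.leaf (nat_lit 8336567) (nat_lit 1988807) (nat_lit 36247812) (nat_lit 12921537) [(nat_lit 0), (nat_lit 1988807), (nat_lit 5986519)]) (PF.cons (PF.leaf (nat_lit 8630376) (nat_lit 511133) (nat_lit 35853213) (nat_lit 12838761)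 [(nat_lit 511133), (nat_lit 1991458), (nat_lit 5965665)]) (PF.cons (PF.leaf (nat_lit 8928998) (nat_lit 515888) (nat_lit 35456076) (nat_lit 12754087) [(nat_lit 515888), (nat_lit 1993258), (nat_lit 5943549)]) (PF.cons
 (PF.leaf (nat_lit 9231119) (nat_lit 520014) (nat_lit 35057752) (nat_lit 12667793) [(nat_lit 520014), (nat_lit 1994241), (nat_lit 5920249)]) (PF.cons (PF.leaf (nat_lit 9535876) (nat_lit 523586) (nat_lit 34659330) (nat_lit 12580117) [(nat_lit 523586), (nat_lit 1994444), (nat_lit 5895842)]) (PF.cons PF.nil PF.nil)))))) (PF.cons (PF.cons (PF.leaf (nat_lit 9120682) (nat_lit 1986571) (nat_lit 34769890) (nat_lit 12599845) [(nat_lit 0), (nat_lit 1986571), (nat_lit 5896394)]) (PF.cons (PF.leaf (nat_lit 9416419) (nat_lit 518586) (nat_lit 34384565) (nat_lit 12514228) [(nat_lit 518586), (nat_lit 1986733), (nat_lit 5872249)]) (PF.cons (PF.leaf (nat_lit 9715403) (nat_lit 521986) (nat_lit 33998768) (nat_lit 12427244) [(nat_lit 521986), (nat_lit 1986176), (nat_lit 5847061)])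 (PF.cons PF.nil PF.nil)))) (PF.cons (PF.cons (PF.leaf (nat_lit 9891520) (nat_lit 1977015) (nat_lit 33354622) (nat_lit 12274868) [(nat_lit 0), (nat_lit 1977015), (nat_lit 5797121)]) (PF.cons PF.nil PF.nil)) (PF.cons PF.nil (PF.cons PF.nil PF.nil)))))))) (PF.cons (PF.cons (PF.cons (PF.leaf (nat_lit 7525818) (nat_lit 5943817) (nat_lit 36369741) (nat_lit 12907618) [(nat_lit 0), (nat_lit 0), (nat_lit 5943817)]) (PF.cons (PF.leaf
 (nat_lit 7795797) (nat_lit 480660) (nat_lit 36012243) (nat_lit 12834187) [(nat_lit 480660), (nat_lit 0), (nat_lit 5927240)]) (PF.cons (PF.leaf (nat_lit 8074520) (nat_lit 488288) (nat_lit 35646639) (nat_lit 12757912) [(nat_lit 488288), (nat_lit 0), (nat_lit 5909228)]) (PF.cons (PF.leaf (nat_lit 8359830) (nat_lit 494872) (nat_lit 35275351) (nat_lit 12679239) [(nat_lit 494872), (nat_lit 0), (nat_lit 5889867)]) (PF.cons (PF.leaf (nat_lit 8650380) (nat_lit 500583) (nat_lit 34900239) (nat_lit 12598526) [(nat_lit 500583), (nat_lit 0), (nat_lit 5869238)])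 (PF.cons (PF.leaf (nat_lit 8945083) (nat_lit 505545) (nat_lit 34522773) (nat_lit 12516067) [(nat_lit 505545), (nat_lit 0), (nat_lit 5847415)]) (PF.cons (PF.leaf (nat_lit 9243058) (nat_lit 509856) (nat_lit 34144140) (nat_lit 12432112) [(nat_lit 509856), (nat_lit 0), (nat_lit 5824474)]) (PF.cons PF.nil (PF.cons PF.nil (PF.cons PF.nil PF.nil)))))))))) (PF.cons (PF.cons (PF.leaf (nat_lit 8279573) (nat_lit 1946342) (nat_lit 34959163) (nat_lit 12606451) [(nat_lit 0), (nat_lit 1946342), (nat_lit 5865618)]) (PF.cons (PF.leaf (nat_lit 8557773) (nat_lit 494163) (nat_lit 34600875) (nat_lit 12528489) [(nat_lit 494163), (nat_lit 1949330), (nat_lit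
 5845318)]) (PF.cons (PF.leaf (nat_lit 8842101) (nat_lit 499710) (nat_lit 34238140) (nat_lit 12448423) [(nat_lit 499710), (nat_lit 1951458), (nat_lit 5823790)]) (PF.cons (PF.leaf (nat_lit 9130975) (nat_lit 504489) (nat_lit 33872619) (nat_lit 12366593) [(nat_lit 504489), (nat_lit 1952761), (nat_lit 5801123)]) (PF.cons (PF.leaf (nat_lit 9423369) (nat_lit 508610) (nat_lit 33505620) (nat_lit 12283279) [(nat_lit 508610), (nat_lit 1953279), (nat_lit 5777397)]) (PF.cons (PF.leaf (nat_lit 9718469) (nat_lit 512156) (nat_lit 33138191) (nat_lit 12198717) [(nat_lit 512156), (nat_lit 1953054), (nat_lit 5752688)]) (PF.cons PF.nil (PF.cons PF.nil PF.nil)))))))) (PF.cons (PF.cons (PF.leaf (nat_lit 9031289) (nat_lit 1944789) (nat_lit 33590589) (nat_lit 12298211) [(nat_lit 0), (nat_lit 1944789), (nat_lit 5776810)]) (PF.cons (PF.leaf (nat_lit 9313586) (nat_lit 502968) (nat_lit 33237445) (nat_lit 12217305) [(nat_lit 502968), (nat_lit 1945309), (nat_lit 5753491)]) (PF.cons (PF.leaf (nat_lit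 9600140) (nat_lit 506954) (nat_lit 32882346) (nat_lit 12134882) [(nat_lit 506954), (nat_lit 1945104), (nat_lit 5729154)]) (PF.cons (PF.leaf (nat_lit 9889699) (nat_lit 510356) (nat_lit 32526460) (nat_lit 12051206)
 [(nat_lit 510356), (nat_lit 1944213), (nat_lit 5703883)]) (PF.cons PF.nil (PF.cons PF.nil PF.nil)))))) (PF.cons (PF.cons (PF.leaf (nat_lit 9774248) (nat_lit 1936093) (nat_lit 32273774) (nat_lit 11987042) [(nat_lit 0), (nat_lit 1936093), (nat_lit 5679904)]) (PF.cons (PF.leaf (nat_lit 10057674) (nat_lit 508208) (nat_lit 31929616) (nat_lit 11904469) [(nat_lit 508208), (nat_lit 1934616), (nat_lit 5654222)]) (PF.cons PF.nil (PF.cons PF.nil PF.nil)))) (PF.cons (PF.cons (PF.leaf (nat_lit 10503808) (nat_lit 1921790) (nat_lit 31014140) (nat_lit 11676245) [(nat_lit 0), (nat_lit 1921790), (nat_lit 5577087)]) (PF.cons PF.nil PF.nil)) (PF.cons PF.nil PF.nil)))))) (PF.cons (PF.cons (PF.cons (PF.leaf (nat_lit 8951444) (nat_lit 5658845) (nat_lit 32469158) (nat_lit 12004272)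 [(nat_lit 0), (nat_lit 0), (nat_lit 5658845)]) (PF.cons (PF.leaf (nat_lit 9219554) (nat_lit 486296) (nat_lit 32147506) (nat_lit 11928494) [(nat_lit 486296), (nat_lit 0), (nat_lit 5636628)]) (PF.cons (PF.leaf (nat_lit 9493222) (nat_lit 491098) (nat_lit 31822160) (nat_lit 11850945) [(nat_lit 491098), (nat_lit 0), (nat_lit 5613377)]) (PF.cons (PF.leaf (nat_lit 9770907) (nat_lit 495177) (nat_lit 31494576) (nat_lit 11771952)
 [(nat_lit 495177), (nat_lit 0), (nat_lit 5589187)]) (PF.cons (PF.leaf (nat_lit 10051642) (nat_lit 498642) (nat_lit 31165889) (nat_lit 11691780) [(nat_lit 498642), (nat_lit 0), (nat_lit 5564143)]) (PF.cons PF.nil PF.nil)))))) (PF.cons (PF.cons (PF.leaf (nat_lit 9666362) (nat_lit 1895170) (nat_lit 31246256) (nat_lit 11707580) [(nat_lit 0), (nat_lit 1895170), (nat_lit 5564951)]) (PF.cons (PF.leaf (nat_lit 9937684) (nat_lit 493000) (nat_lit 30929858) (nat_lit 11629840) [(nat_lit 493000), (nat_lit 1894208), (nat_lit 5540476)]) (PF.cons (PF.leaf (nat_lit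 10212840) (nat_lit 496388) (nat_lit 30611883) (nat_lit 11550863) [(nat_lit 496388), (nat_lit 1892623), (nat_lit 5515166)]) (PF.cons PF.nil PF.nil)))) (PF.cons (PF.cons (PF.leaf (nat_lit 10372001) (nat_lit 1882213) (nat_lit 30070803) (nat_lit 11410946) [(nat_lit 0), (nat_lit 1882213), (nat_lit 5465658)]) (PF.cons PF.nil PF.nil)) (PF.cons PF.nil PF.nil)))) (PF.cons (PF.cons (PF.cons (PF.leaf (nat_lit 10250703) (nat_lit 5356764) (nat_lit 29171345) (nat_lit 11153645) [(nat_lit 0), (nat_lit 0), (nat_lit 5356764)]) (PF.cons (PF.leaf (nat_lit 10511642) (nat_lit 481993) (nat_lit 28887221) (nat_lit 11079725) [(nat_lit 481993), (nat_lit 0),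
 (nat_lit 5331974)]) (PF.cons PF.nil (PF.cons PF.nil PF.nil)))) (PF.cons (PF.cons (PF.leaf (nat_lit 10922516) (nat_lit 1827140) (nat_lit 28119112) (nat_lit 10873357) [(nat_lit 0), (nat_lit 1827140), (nat_lit 5257840)]) (PF.cons PF.nil PF.nil)) PF.nil)) (PF.cons PF.nil (PF.cons PF.nil (PF.cons PF.nil (PF.cons PF.nil PF.nil))))))))))

def p15_34_2_0 : pfC (piC [(nat_lit 38632330), (nat_lit 24534081), (nat_lit 15702173)] (nat_lit 6871653)) p15_34_2 (nat_lit 3) (nat_lit 0) (nat_lit 1) = true := by decide +kernel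
def p15_34_2_1 : pfC (piC [(nat_lit 38632330), (nat_lit 24534081), (nat_lit 15702173)] (nat_lit 6871653)) p15_34_2 (nat_lit 3) (nat_lit 1) (nat_lit 2) = true := by decide +kernel
def p15_34_2_2 : pfC (piC [(nat_lit 38632330), (nat_lit 24534081), (nat_lit 15702173)] (nat_lit 6871653)) p15_34_2 (nat_lit 3) (nat_lit 2) (nat_lit 3) = true := by decide +kernel
def p15_34_2_3 : pfC (piC [(nat_lit 38632330), (nat_lit 24534081), (nat_lit 15702173)] (nat_lit 6871653)) p15_34_2 (nat_lit 3) (nat_lit 3) (nat_lit 4) = true := by decide +kernel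
def p15_34_2_4 : pfC (piC [(nat_lit 38632330), (nat_lit 24534081), (nat_lit 15702173)] (nat_lit 6871653)) p15_34_2 (nat_lit 3) (nat_lit 4) (nat_lit 5) = true := by decide +kernel
def p15_34_2_5 : pfC (piC [(nat_lit 38632330), (nat_lit 24534081), (nat_lit 15702173)] (nat_lit 6871653)) p15_34_2 (nat_lit 3) (nat_lit 5) (nat_lit 6) = true := by decide +kernel
def p15_34_2_6 : pfC (piC [(nat_lit 38632330), (nat_lit 24534081), (nat_lit 15702173)] (nat_lit 6871653)) p15_34_2 (nat_lit 3) (nat_lit 6) (nat_lit 7) = true := by decide +kernel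
def p15_34_2_7 : pfC (piC [(nat_lit 38632330), (nat_lit 24534081), (nat_lit 15702173)] (nat_lit 6871653)) p15_34_2 (nat_lit 3) (nat_lit 7) (nat_lit 8) = true := by decide +kernel
def p15_34_2_8 : pfC (piC [(nat_lit 38632330), (nat_lit 24534081), (nat_lit 15702173)] (nat_lit 6871653)) p15_34_2 (nat_lit 3) (nat_lit 8) (nat_lit 9) = true := by decide +kernel
def p15_34_2_9 : pfC (piC [(nat_lit 38632330), (nat_lit 24534081), (nat_lit 15702173)] (nat_lit 6871653)) p15_34_2 (nat_lit 3) (nat_lit 9) (nat_lit 10) = true := by decide +kernel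
def p15_34_2_10 : pfC (piC [(nat_lit 38632330), (nat_lit 24534081), (nat_lit 15702173)] (nat_lit 6871653)) p15_34_2 (nat_lit 3) (nat_lit 10) (nat_lit 11) = true := by decide +kernel
def p15_34_2_11 : pfC (piC [(nat_lit 38632330), (nat_lit 24534081), (nat_lit 15702173)] (nat_lit 6871653)) p15_34_2 (nat_lit 3) (nat_lit 11) (nat_lit 12) = true := by decide +kernel
def p15_34_2_12 : pfC (piC [(nat_lit 38632330), (nat_lit 24534081), (nat_lit 15702173)] (nat_lit 6871653)) p15_34_2 (nat_lit 3) (nat_lit 12) (nat_lit 13) = true := by decide +kernel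
def p15_34_2_13 : pfC (piC [(nat_lit 38632330), (nat_lit 24534081), (nat_lit 15702173)] (nat_lit 6871653)) p15_34_2 (nat_lit 3) (nat_lit 13) (nat_lit 14) = true := by decide +kernel
def p15_34_2_14 : pfC (piC [(nat_lit 38632330), (nat_lit 24534081), (nat_lit 15702173)] (nat_lit 6871653)) p15_34_2 (nat_lit 3) (nat_lit 14) (nat_lit 15) = true := by decide +kernel
def p15_34_2_15 : pfC (piC [(nat_lit 38632330), (nat_lit 24534081), (nat_lit 15702173)] (nat_lit 6871653)) p15_34_2 (nat_lit 3) (nat_lit 15) (nat_lit 16) = true := by decide +kernel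
def p15_34_2_16 : pfC (piC [(nat_lit 38632330), (nat_lit 24534081), (nat_lit 15702173)] (nat_lit 6871653)) p15_34_2 (nat_lit 3) (nat_lit 16) (nat_lit 17) = true := by decide +kernel
def p15_34_2_17 : pfC (piC [(nat_lit 38632330), (nat_lit 24534081), (nat_lit 15702173)] (nat_lit 6871653)) p15_34_2 (nat_lit 3) (nat_lit 17) (nat_lit 18) = true := by decide +kernel
def p15_34_2_18 : pfC (piC [(nat_lit 38632330), (nat_lit 24534081), (nat_lit 15702173)] (nat_lit 6871653)) p15_34_2 (nat_lit 3) (nat_lit 18) (nat_lit 19) = true := by decide +kernel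
def p15_34_2_19 : pfC (piC [(nat_lit 38632330), (nat_lit 24534081), (nat_lit 15702173)] (nat_lit 6871653)) p15_34_2 (nat_lit 3) (nat_lit 19) (nat_lit 20) = true := by decide +kernel
def p15_34_2_20 : pfC (piC [(nat_lit 38632330), (nat_lit 24534081), (nat_lit 15702173)] (nat_lit 6871653)) p15_34_2 (nat_lit 3) (nat_lit 20) (nat_lit 21) = true := by decide +kernel
def p15_34_2_21 : pfC (piC [(nat_lit 38632330), (nat_lit 24534081), (nat_lit 15702173)] (nat_lit 6871653)) p15_34_2 (nat_lit 3) (nat_lit 21) (nat_lit 22) = true := by decide +kernel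
def p15_34_2_22 : pfC (piC [(nat_lit 38632330), (nat_lit 24534081), (nat_lit 15702173)] (nat_lit 6871653)) p15_34_2 (nat_lit 3) (nat_lit 22) (nat_lit 23) = true := by decide +kernel
def p15_34_2_23 : pfC (piC [(nat_lit 38632330), (nat_lit 24534081), (nat_lit 15702173)] (nat_lit 6871653)) p15_34_2 (nat_lit 3) (nat_lit 23) (nat_lit 24) = true := by decide +kernel
def p15_34_2_24 : pfC (piC [(nat_lit 38632330), (nat_lit 24534081), (nat_lit 15702173)] (nat_lit 6871653)) p15_34_2 (nat_lit 3) (nat_lit 24) (nat_lit 25) = true := by decide +kernel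
def p15_34_2_25 : pfC (piC [(nat_lit 38632330), (nat_lit 24534081), (nat_lit 15702173)] (nat_lit 6871653)) p15_34_2 (nat_lit 3) (nat_lit 25) (nat_lit 26) = true := by decide +kernel
def p15_34_2_26 : pfC (piC [(nat_lit 38632330), (nat_lit 24534081), (nat_lit 15702173)] (nat_lit 6871653)) p15_34_2 (nat_lit 3) (nat_lit 26) (nat_lit 27) = true := by decide +kernel
def p15_34_2_27 : pfC (piC [(nat_lit 38632330), (nat_lit 24534081), (nat_lit 15702173)] (nat_lit 6871653)) p15_34_2 (nat_lit 3) (nat_lit 27) (nat_lit 28) = true := by decide +kernel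
def p15_34_2_28 : pfC (piC [(nat_lit 38632330), (nat_lit 24534081), (nat_lit 15702173)] (nat_lit 6871653)) p15_34_2 (nat_lit 3) (nat_lit 28) (nat_lit 29) = true := by decide +kernel
def p15_34_2_29 : pfC (piC [(nat_lit 38632330), (nat_lit 24534081), (nat_lit 15702173)] (nat_lit 6871653)) p15_34_2 (nat_lit 3) (nat_lit 29) (nat_lit 30) = true := by decide +kernel
def p15_34_2_30 : pfC (piC [(nat_lit 38632330), (nat_lit 24534081), (nat_lit 15702173)] (nat_lit 6871653)) p15_34_2 (nat_lit 3) (nat_lit 30) (nat_lit 31) = true := by decide +kernel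
def p15_34_2_31 : pfC (piC [(nat_lit 38632330), (nat_lit 24534081), (nat_lit 15702173)] (nat_lit 6871653)) p15_34_2 (nat_lit 3) (nat_lit 31) (nat_lit 32) = true := by decide +kernel
def p15_34_2_32 : pfC (piC [(nat_lit 38632330), (nat_lit 24534081), (nat_lit 15702173)] (nat_lit 6871653)) p15_34_2 (nat_lit 3) (nat_lit 32) (nat_lit 33) = true := by decide +kernel
def p15_34_2_33 : pfC (piC [(nat_lit 38632330), (nat_lit 24534081), (nat_lit 15702173)] (nat_lit 6871653)) p15_34_2 (nat_lit 3) (nat_lit 33) (nat_lit 34) = true := by decide +kernel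
def p15_34_2_34 : pfC (piC [(nat_lit 38632330), (nat_lit 24534081), (nat_lit 15702173)] (nat_lit 6871653)) p15_34_2 (nat_lit 3) (nat_lit 34) (nat_lit 35) = true := by decide +kernel
def p15_34_2_35 : pfC (piC [(nat_lit 38632330), (nat_lit 24534081), (nat_lit 15702173)] (nat_lit 6871653)) p15_34_2 (nat_lit 3) (nat_lit 35) (nat_lit 36) = true := by decide +kernel
def p15_34_2_36 : pfC (piC [(nat_lit 38632330), (nat_lit 24534081), (nat_lit 15702173)] (nat_lit 6871653)) p15_34_2 (nat_lit 3) (nat_lit 36) (nat_lit 37) = true := by decide +kernel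
def p15_34_2_37 : pfC (piC [(nat_lit 38632330), (nat_lit 24534081), (nat_lit 15702173)] (nat_lit 6871653)) p15_34_2 (nat_lit 3) (nat_lit 37) (nat_lit 38) = true := by decide +kernel
def p15_34_2_38 : pfC (piC [(nat_lit 38632330), (nat_lit 24534081), (nat_lit 15702173)] (nat_lit 6871653)) p15_34_2 (nat_lit 3) (nat_lit 38) (nat_lit 39) = true := by decide +kernel
def p15_34_2_39 : pfC (piC [(nat_lit 38632330), (nat_lit 24534081), (nat_lit 15702173)] (nat_lit 6871653)) p15_34_2 (nat_lit 3) (nat_lit 39) (nat_lit 40) = true := by decide +kernel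
def p15_34_2_40 : pfC (piC [(nat_lit 38632330), (nat_lit 24534081), (nat_lit 15702173)] (nat_lit 6871653)) p15_34_2 (nat_lit 3) (nat_lit 40) (nat_lit 41) = true := by decide +kernel
def p15_34_2_41 : pfC (piC [(nat_lit 38632330), (nat_lit 24534081), (nat_lit 15702173)] (nat_lit 6871653)) p15_34_2 (nat_lit 3) (nat_lit 41) (nat_lit 42) = true := by decide +kernel
def p15_34_2_42 : pfC (piC [(nat_lit 38632330), (nat_lit 24534081), (nat_lit 15702173)] (nat_lit 6871653)) p15_34_2 (nat_lit 3) (nat_lit 42) (nat_lit 43) = true := by decide +kernel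
def p15_34_2_43 : pfC (piC [(nat_lit 38632330), (nat_lit 24534081), (nat_lit 15702173)] (nat_lit 6871653)) p15_34_2 (nat_lit 3) (nat_lit 43) (nat_lit 44) = true := by decide +kernel
def p15_34_2_44 : pfC (piC [(nat_lit 38632330), (nat_lit 24534081), (nat_lit 15702173)] (nat_lit 6871653)) p15_34_2 (nat_lit 3) (nat_lit 44) (nat_lit 45) = true := by decide +kernel
def p15_34_2_45 : pfC (piC [(nat_lit 38632330), (nat_lit 24534081), (nat_lit 15702173)] (nat_lit 6871653)) p15_34_2 (nat_lit 3) (nat_lit 45) (nat_lit 46) = true := by decide +kernel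
def p15_34_2_46 : pfC (piC [(nat_lit 38632330), (nat_lit 24534081), (nat_lit 15702173)] (nat_lit 6871653)) p15_34_2 (nat_lit 3) (nat_lit 46) (nat_lit 47) = true := by decide +kernel
def p15_34_2_47 : pfC (piC [(nat_lit 38632330), (nat_lit 24534081), (nat_lit 15702173)] (nat_lit 6871653)) p15_34_2 (nat_lit 3) (nat_lit 47) (nat_lit 48) = true := by decide +kernel
def p15_34_2_48 : pfC (piC [(nat_lit 38632330), (nat_lit 24534081), (nat_lit 15702173)] (nat_lit 6871653)) p15_34_2 (nat_lit 3) (nat_lit 48) (nat_lit 49) = true := by decide +kernel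
def p15_34_2_49 : pfC (piC [(nat_lit 38632330), (nat_lit 24534081), (nat_lit 15702173)] (nat_lit 6871653)) p15_34_2 (nat_lit 3) (nat_lit 49) (nat_lit 50) = true := by decide +kernel
def p15_34_2_50 : pfC (piC [(nat_lit 38632330), (nat_lit 24534081), (nat_lit 15702173)] (nat_lit 6871653)) p15_34_2 (nat_lit 3) (nat_lit 50) (nat_lit 51) = true := by decide +kernel
def p15_34_2_51 : pfC (piC [(nat_lit 38632330), (nat_lit 24534081), (nat_lit 15702173)] (nat_lit 6871653)) p15_34_2 (nat_lit 3) (nat_lit 51) (nat_lit 52) = true := by decide +kernel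
def p15_34_2_52 : pfC (piC [(nat_lit 38632330), (nat_lit 24534081), (nat_lit 15702173)] (nat_lit 6871653)) p15_34_2 (nat_lit 3) (nat_lit 52) (nat_lit 53) = true := by decide +kernel
def p15_34_2_53 : pfC (piC [(nat_lit 38632330), (nat_lit 24534081), (nat_lit 15702173)] (nat_lit 6871653)) p15_34_2 (nat_lit 3) (nat_lit 53) (nat_lit 54) = true := by decide +kernel
def p15_34_2_54 : pfC (piC [(nat_lit 38632330), (nat_lit 24534081), (nat_lit 15702173)] (nat_lit 6871653)) p15_34_2 (nat_lit 3) (nat_lit 54) (nat_lit 55) = true := by decide +kernel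
def p15_34_2_55 : pfC (piC [(nat_lit 38632330), (nat_lit 24534081), (nat_lit 15702173)] (nat_lit 6871653)) p15_34_2 (nat_lit 3) (nat_lit 55) (nat_lit 56) = true := by decide +kernel
def p15_34_2_56 : pfC (piC [(nat_lit 38632330), (nat_lit 24534081), (nat_lit 15702173)] (nat_lit 6871653)) p15_34_2 (nat_lit 3) (nat_lit 56) (nat_lit 57) = true := by decide +kernel
def p15_34_2_57 : pfC (piC [(nat_lit 38632330), (nat_lit 24534081), (nat_lit 15702173)] (nat_lit 6871653)) p15_34_2 (nat_lit 3) (nat_lit 57) (nat_lit 58) = true := by decide +kernel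
def p15_34_2_58 : pfC (piC [(nat_lit 38632330), (nat_lit 24534081), (nat_lit 15702173)] (nat_lit 6871653)) p15_34_2 (nat_lit 3) (nat_lit 58) (nat_lit 59) = true := by decide +kernel
def p15_34_2_59 : pfC (piC [(nat_lit 38632330), (nat_lit 24534081), (nat_lit 15702173)] (nat_lit 6871653)) p15_34_2 (nat_lit 3) (nat_lit 59) (nat_lit 60) = true := by decide +kernel
def p15_34_2_60 : pfC (piC [(nat_lit 38632330), (nat_lit 24534081), (nat_lit 15702173)] (nat_lit 6871653)) p15_34_2 (nat_lit 3) (nat_lit 60) (nat_lit 61) = true := by decide +kernel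
def p15_34_2_61 : pfC (piC [(nat_lit 38632330), (nat_lit 24534081), (nat_lit 15702173)] (nat_lit 6871653)) p15_34_2 (nat_lit 3) (nat_lit 61) (nat_lit 62) = true := by decide +kernel
def p15_34_2_62 : pfC (piC [(nat_lit 38632330), (nat_lit 24534081), (nat_lit 15702173)] (nat_lit 6871653)) p15_34_2 (nat_lit 3) (nat_lit 62) (nat_lit 63) = true := by decide +kernel
def p15_34_2_63 : pfC (piC [(nat_lit 38632330), (nat_lit 24534081), (nat_lit 15702173)] (nat_lit 6871653)) p15_34_2 (nat_lit 3) (nat_lit 63) (nat_lit 64) = true := by decide +kernel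
def p15_34_2_64 : pfC (piC [(nat_lit 38632330), (nat_lit 24534081), (nat_lit 15702173)] (nat_lit 6871653)) p15_34_2 (nat_lit 3) (nat_lit 64) (nat_lit 65) = true := by decide +kernel
def p15_34_2_65 : pfC (piC [(nat_lit 38632330), (nat_lit 24534081), (nat_lit 15702173)] (nat_lit 6871653)) p15_34_2 (nat_lit 3) (nat_lit 65) (nat_lit 66) = true := by decide +kernel
def p15_34_2_66 : pfC (piC [(nat_lit 38632330), (nat_lit 24534081), (nat_lit 15702173)] (nat_lit 6871653)) p15_34_2 (nat_lit 3) (nat_lit 66) (nat_lit 67) = true := by decide +kernel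
def p15_34_2_67 : pfC (piC [(nat_lit 38632330), (nat_lit 24534081), (nat_lit 15702173)] (nat_lit 6871653)) p15_34_2 (nat_lit 3) (nat_lit 67) (nat_lit 68) = true := by decide +kernel
def p15_34_2_68 : pfC (piC [(nat_lit 38632330), (nat_lit 24534081), (nat_lit 15702173)] (nat_lit 6871653)) p15_34_2 (nat_lit 3) (nat_lit 68) (nat_lit 69) = true := by decide +kernel
def p15_34_2_69 : pfC (piC [(nat_lit 38632330), (nat_lit 24534081), (nat_lit 15702173)] (nat_lit 6871653)) p15_34_2 (nat_lit 3) (nat_lit 69) (nat_lit 70) = true := by decide +kernel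
def p15_34_2_70 : pfC (piC [(nat_lit 38632330), (nat_lit 24534081), (nat_lit 15702173)] (nat_lit 6871653)) p15_34_2 (nat_lit 3) (nat_lit 70) (nat_lit 71) = true := by decide +kernel
def p15_34_2_71 : pfC (piC [(nat_lit 38632330), (nat_lit 24534081), (nat_lit 15702173)] (nat_lit 6871653)) p15_34_2 (nat_lit 3) (nat_lit 71) (nat_lit 72) = true := by decide +kernel
def p15_34_2_72 : pfC (piC [(nat_lit 38632330), (nat_lit 24534081), (nat_lit 15702173)] (nat_lit 6871653)) p15_34_2 (nat_lit 3) (nat_lit 72) (nat_lit 73) = true := by decide +kernel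
def p15_34_2_73 : pfC (piC [(nat_lit 38632330), (nat_lit 24534081), (nat_lit 15702173)] (nat_lit 6871653)) p15_34_2 (nat_lit 3) (nat_lit 73) (nat_lit 74) = true := by decide +kernel
def p15_34_2_74 : pfC (piC [(nat_lit 38632330), (nat_lit 24534081), (nat_lit 15702173)] (nat_lit 6871653)) p15_34_2 (nat_lit 3) (nat_lit 74) (nat_lit 75) = true := by decide +kernel
def p15_34_2_75 : pfC (piC [(nat_lit 38632330), (nat_lit 24534081), (nat_lit 15702173)] (nat_lit 6871653)) p15_34_2 (nat_lit 3) (nat_lit 75) (nat_lit 76) = true := by decide +kernel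
def p15_34_2_76 : pfC (piC [(nat_lit 38632330), (nat_lit 24534081), (nat_lit 15702173)] (nat_lit 6871653)) p15_34_2 (nat_lit 3) (nat_lit 76) (nat_lit 77) = true := by decide +kernel
def p15_34_2_77 : pfC (piC [(nat_lit 38632330), (nat_lit 24534081), (nat_lit 15702173)] (nat_lit 6871653)) p15_34_2 (nat_lit 3) (nat_lit 77) (nat_lit 78) = true := by decide +kernel
def p15_34_2_78 : pfC (piC [(nat_lit 38632330), (nat_lit 24534081), (nat_lit 15702173)] (nat_lit 6871653)) p15_34_2 (nat_lit 3) (nat_lit 78) (nat_lit 79) = true := by decide +kernel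
def p15_34_2_79 : pfC (piC [(nat_lit 38632330), (nat_lit 24534081), (nat_lit 15702173)] (nat_lit 6871653)) p15_34_2 (nat_lit 3) (nat_lit 79) (nat_lit 80) = true := by decide +kernel
def p15_34_2_80 : pfC (piC [(nat_lit 38632330), (nat_lit 24534081), (nat_lit 15702173)] (nat_lit 6871653)) p15_34_2 (nat_lit 3) (nat_lit 80) (nat_lit 81) = true := by decide +kernel
def p15_34_2_81 : pfC (piC [(nat_lit 38632330), (nat_lit 24534081), (nat_lit 15702173)] (nat_lit 6871653)) p15_34_2 (nat_lit 3) (nat_lit 81) (nat_lit 82) = true := by decide +kernel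
def p15_34_2_82 : pfC (piC [(nat_lit 38632330), (nat_lit 24534081), (nat_lit 15702173)] (nat_lit 6871653)) p15_34_2 (nat_lit 3) (nat_lit 82) (nat_lit 83) = true := by decide +kernel
def p15_34_2_83 : pfC (piC [(nat_lit 38632330), (nat_lit 24534081), (nat_lit 15702173)] (nat_lit 6871653)) p15_34_2 (nat_lit 3) (nat_lit 83) (nat_lit 84) = true := by decide +kernel
def p15_34_2_84 : pfC (piC [(nat_lit 38632330), (nat_lit 24534081), (nat_lit 15702173)] (nat_lit 6871653)) p15_34_2 (nat_lit 3) (nat_lit 84) (nat_lit 85) = true := by decide +kernel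
def p15_34_2_85 : pfC (piC [(nat_lit 38632330), (nat_lit 24534081), (nat_lit 15702173)] (nat_lit 6871653)) p15_34_2 (nat_lit 3) (nat_lit 85) (nat_lit 86) = true := by decide +kernel
def p15_34_2_86 : pfC (piC [(nat_lit 38632330), (nat_lit 24534081), (nat_lit 15702173)] (nat_lit 6871653)) p15_34_2 (nat_lit 3) (nat_lit 86) (nat_lit 87) = true := by decide +kernel
def p15_34_2_87 : pfC (piC [(nat_lit 38632330), (nat_lit 24534081), (nat_lit 15702173)] (nat_lit 6871653)) p15_34_2 (nat_lit 3) (nat_lit 87) (nat_lit 88) = true := by decide +kernel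
def p15_34_2_88 : pfC (piC [(nat_lit 38632330), (nat_lit 24534081), (nat_lit 15702173)] (nat_lit 6871653)) p15_34_2 (nat_lit 3) (nat_lit 88) (nat_lit 89) = true := by decide +kernel
def p15_34_2_89 : pfC (piC [(nat_lit 38632330), (nat_lit 24534081), (nat_lit 15702173)] (nat_lit 6871653)) p15_34_2 (nat_lit 3) (nat_lit 89) (nat_lit 90) = true := by decide +kernel
def p15_34_2_90 : pfC (piC [(nat_lit 38632330), (nat_lit 24534081), (nat_lit 15702173)] (nat_lit 6871653)) p15_34_2 (nat_lit 3) (nat_lit 90) (nat_lit 91) = true := by decide +kernel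
def p15_34_2_91 : pfC (piC [(nat_lit 38632330), (nat_lit 24534081), (nat_lit 15702173)] (nat_lit 6871653)) p15_34_2 (nat_lit 3) (nat_lit 91) (nat_lit 92) = true := by decide +kernel
def p15_34_2_92 : pfC (piC [(nat_lit 38632330), (nat_lit 24534081), (nat_lit 15702173)] (nat_lit 6871653)) p15_34_2 (nat_lit 3) (nat_lit 92) (nat_lit 93) = true := by decide +kernel
def p15_34_2_93 : pfC (piC [(nat_lit 38632330), (nat_lit 24534081), (nat_lit 15702173)] (nat_lit 6871653)) p15_34_2 (nat_lit 3) (nat_lit 93) (nat_lit 94) = true := by decide +kernel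
def p15_34_2_94 : pfC (piC [(nat_lit 38632330), (nat_lit 24534081), (nat_lit 15702173)] (nat_lit 6871653)) p15_34_2 (nat_lit 3) (nat_lit 94) (nat_lit 95) = true := by decide +kernel
def p15_34_2_95 : pfC (piC [(nat_lit 38632330), (nat_lit 24534081), (nat_lit 15702173)] (nat_lit 6871653)) p15_34_2 (nat_lit 3) (nat_lit 95) (nat_lit 96) = true := by decide +kernel
def p15_34_2_96 : pfC (piC [(nat_lit 38632330), (nat_lit 24534081), (nat_lit 15702173)] (nat_lit 6871653)) p15_34_2 (nat_lit 3) (nat_lit 96) (nat_lit 97) = true := by decide +kernel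
def p15_34_2_97 : pfC (piC [(nat_lit 38632330), (nat_lit 24534081), (nat_lit 15702173)] (nat_lit 6871653)) p15_34_2 (nat_lit 3) (nat_lit 97) (nat_lit 98) = true := by decide +kernel
def p15_34_2_98 : pfC (piC [(nat_lit 38632330), (nat_lit 24534081), (nat_lit 15702173)] (nat_lit 6871653)) p15_34_2 (nat_lit 3) (nat_lit 98) (nat_lit 99) = true := by decide +kernel
def p15_34_2_99 : pfC (piC [(nat_lit 38632330), (nat_lit 24534081), (nat_lit 15702173)] (nat_lit 6871653)) p15_34_2 (nat_lit 3) (nat_lit 99) (nat_lit 100) = true := by decide +kernel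
def p15_34_2_100 : pfC (piC [(nat_lit 38632330), (nat_lit 24534081), (nat_lit 15702173)] (nat_lit 6871653)) p15_34_2 (nat_lit 3) (nat_lit 100) (nat_lit 101) = true := by decide +kernel
def p15_34_2_101 : pfC (piC [(nat_lit 38632330), (nat_lit 24534081), (nat_lit 15702173)] (nat_lit 6871653)) p15_34_2 (nat_lit 3) (nat_lit 101) (nat_lit 102) = true := by decide +kernel
def p15_34_2_102 : pfC (piC [(nat_lit 38632330), (nat_lit 24534081), (nat_lit 15702173)] (nat_lit 6871653)) p15_34_2 (nat_lit 3) (nat_lit 102) (nat_lit 103) = true := by decide +kernel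
def p15_34_2_103 : pfC (piC [(nat_lit 38632330), (nat_lit 24534081), (nat_lit 15702173)] (nat_lit 6871653)) p15_34_2 (nat_lit 3) (nat_lit 103) (nat_lit 104) = true := by decide +kernel
def p15_34_2_104 : pfC (piC [(nat_lit 38632330), (nat_lit 24534081), (nat_lit 15702173)] (nat_lit 6871653)) p15_34_2 (nat_lit 3) (nat_lit 104) (nat_lit 105) = true := by decide +kernel
def p15_34_2_105 : pfC (piC [(nat_lit 38632330), (nat_lit 24534081), (nat_lit 15702173)] (nat_lit 6871653)) p15_34_2 (nat_lit 3) (nat_lit 105) (nat_lit 106) = true := by decide +kernel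
def p15_34_2_106 : pfC (piC [(nat_lit 38632330), (nat_lit 24534081), (nat_lit 15702173)] (nat_lit 6871653)) p15_34_2 (nat_lit 3) (nat_lit 106) (nat_lit 107) = true := by decide +kernel
def p15_34_2_107 : pfC (piC [(nat_lit 38632330), (nat_lit 24534081), (nat_lit 15702173)] (nat_lit 6871653)) p15_34_2 (nat_lit 3) (nat_lit 107) (nat_lit 108) = true := by decide +kernel
def p15_34_2_108 : pfC (piC [(nat_lit 38632330), (nat_lit 24534081), (nat_lit 15702173)] (nat_lit 6871653)) p15_34_2 (nat_lit 3) (nat_lit 108) (nat_lit 109) = true := by decide +kernel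
def p15_34_2_109 : pfC (piC [(nat_lit 38632330), (nat_lit 24534081), (nat_lit 15702173)] (nat_lit 6871653)) p15_34_2 (nat_lit 3) (nat_lit 109) (nat_lit 110) = true := by decide +kernel
def p15_34_2_110 : pfC (piC [(nat_lit 38632330), (nat_lit 24534081), (nat_lit 15702173)] (nat_lit 6871653)) p15_34_2 (nat_lit 3) (nat_lit 110) (nat_lit 111) = true := by decide +kernel
def p15_34_2_111 : pfC (piC [(nat_lit 38632330), (nat_lit 24534081), (nat_lit 15702173)] (nat_lit 6871653)) p15_34_2 (nat_lit 3) (nat_lit 111) (nat_lit 112) = true := by decide +kernel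
def p15_34_2_112 : pfC (piC [(nat_lit 38632330), (nat_lit 24534081), (nat_lit 15702173)] (nat_lit 6871653)) p15_34_2 (nat_lit 3) (nat_lit 112) (nat_lit 113) = true := by decide +kernel
def p15_34_2_113 : pfC (piC [(nat_lit 38632330), (nat_lit 24534081), (nat_lit 15702173)] (nat_lit 6871653)) p15_34_2 (nat_lit 3) (nat_lit 113) (nat_lit 114) = true := by decide +kernel
def p15_34_2_114 : pfC (piC [(nat_lit 38632330), (nat_lit 24534081), (nat_lit 15702173)] (nat_lit 6871653)) p15_34_2 (nat_lit 3) (nat_lit 114) (nat_lit 115) = true := by decide +kernel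
def p15_34_2_115 : pfC (piC [(nat_lit 38632330), (nat_lit 24534081), (nat_lit 15702173)] (nat_lit 6871653)) p15_34_2 (nat_lit 3) (nat_lit 115) (nat_lit 116) = true := by decide +kernel
def p15_34_2_116 : pfC (piC [(nat_lit 38632330), (nat_lit 24534081), (nat_lit 15702173)] (nat_lit 6871653)) p15_34_2 (nat_lit 3) (nat_lit 116) (nat_lit 117) = true := by decide +kernel
def p15_34_2_117 : pfC (piC [(nat_lit 38632330), (nat_lit 24534081), (nat_lit 15702173)] (nat_lit 6871653)) p15_34_2 (nat_lit 3) (nat_lit 117) (nat_lit 118) = true := by decide +kernel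
def p15_34_2_118 : pfC (piC [(nat_lit 38632330), (nat_lit 24534081), (nat_lit 15702173)] (nat_lit 6871653)) p15_34_2 (nat_lit 3) (nat_lit 118) (nat_lit 119) = true := by decide +kernel
def p15_34_2_119 : pfC (piC [(nat_lit 38632330), (nat_lit 24534081), (nat_lit 15702173)] (nat_lit 6871653)) p15_34_2 (nat_lit 3) (nat_lit 119) (nat_lit 120) = true := by decide +kernel
def p15_34_2_120 : pfC (piC [(nat_lit 38632330), (nat_lit 24534081), (nat_lit 15702173)] (nat_lit 6871653)) p15_34_2 (nat_lit 3) (nat_lit 120) (nat_lit 121) = true := by decide +kernel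
def p15_34_2_121 : pfC (piC [(nat_lit 38632330), (nat_lit 24534081), (nat_lit 15702173)] (nat_lit 6871653)) p15_34_2 (nat_lit 3) (nat_lit 121) (nat_lit 122) = true := by decide +kernel
def p15_34_2_122 : pfC (piC [(nat_lit 38632330), (nat_lit 24534081), (nat_lit 15702173)] (nat_lit 6871653)) p15_34_2 (nat_lit 3) (nat_lit 122) (nat_lit 123) = true := by decide +kernel
def p15_34_2_123 : pfC (piC [(nat_lit 38632330), (nat_lit 24534081), (nat_lit 15702173)] (nat_lit 6871653)) p15_34_2 (nat_lit 3) (nat_lit 123) (nat_lit 124) = true := by decide +kernel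
def p15_34_2_124 : pfC (piC [(nat_lit 38632330), (nat_lit 24534081), (nat_lit 15702173)] (nat_lit 6871653)) p15_34_2 (nat_lit 3) (nat_lit 124) (nat_lit 125) = true := by decide +kernel
def p15_34_2_125 : pfC (piC [(nat_lit 38632330), (nat_lit 24534081), (nat_lit 15702173)] (nat_lit 6871653)) p15_34_2 (nat_lit 3) (nat_lit 125) (nat_lit 126) = true := by decide +kernel
def p15_34_2_126 : pfC (piC [(nat_lit 38632330), (nat_lit 24534081), (nat_lit 15702173)] (nat_lit 6871653)) p15_34_2 (nat_lit 3) (nat_lit 126) (nat_lit 127) = true := by decide +kernel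
def p15_34_2_127 : pfC (piC [(nat_lit 38632330), (nat_lit 24534081), (nat_lit 15702173)] (nat_lit 6871653)) p15_34_2 (nat_lit 3) (nat_lit 127) (nat_lit 128) = true := by decide +kernel
def p15_34_2_128 : pfC (piC [(nat_lit 38632330), (nat_lit 24534081), (nat_lit 15702173)] (nat_lit 6871653)) p15_34_2 (nat_lit 3) (nat_lit 128) (nat_lit 129) = true := by decide +kernel
def p15_34_2_129 : pfC (piC [(nat_lit 38632330), (nat_lit 24534081), (nat_lit 15702173)] (nat_lit 6871653)) p15_34_2 (nat_lit 3) (nat_lit 129) (nat_lit 130) = true := by decide +kernel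
def p15_34_2_130 : pfC (piC [(nat_lit 38632330), (nat_lit 24534081), (nat_lit 15702173)] (nat_lit 6871653)) p15_34_2 (nat_lit 3) (nat_lit 130) (nat_lit 131) = true := by decide +kernel
def p15_34_2_131 : pfC (piC [(nat_lit 38632330), (nat_lit 24534081), (nat_lit 15702173)] (nat_lit 6871653)) p15_34_2 (nat_lit 3) (nat_lit 131) (nat_lit 132) = true := by decide +kernel
def p15_34_2_132 : pfC (piC [(nat_lit 38632330), (nat_lit 24534081), (nat_lit 15702173)] (nat_lit 6871653)) p15_34_2 (nat_lit 3) (nat_lit 132) (nat_lit 133) = true := by decide +kernel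
def p15_34_2_133 : pfC (piC [(nat_lit 38632330), (nat_lit 24534081), (nat_lit 15702173)] (nat_lit 6871653)) p15_34_2 (nat_lit 3) (nat_lit 133) (nat_lit 134) = true := by decide +kernel
def p15_34_2_134 : pfC (piC [(nat_lit 38632330), (nat_lit 24534081), (nat_lit 15702173)] (nat_lit 6871653)) p15_34_2 (nat_lit 3) (nat_lit 134) (nat_lit 135) = true := by decide +kernel
def p15_34_2_135 : pfC (piC [(nat_lit 38632330), (nat_lit 24534081), (nat_lit 15702173)] (nat_lit 6871653)) p15_34_2 (nat_lit 3) (nat_lit 135) (nat_lit 136) = true := by decide +kernel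
def p15_34_2_136 : pfC (piC [(nat_lit 38632330), (nat_lit 24534081), (nat_lit 15702173)] (nat_lit 6871653)) p15_34_2 (nat_lit 3) (nat_lit 136) (nat_lit 137) = true := by decide +kernel
def p15_34_2_137 : pfC (piC [(nat_lit 38632330), (nat_lit 24534081), (nat_lit 15702173)] (nat_lit 6871653)) p15_34_2 (nat_lit 3) (nat_lit 137) (nat_lit 138) = true := by decide +kernel
def p15_34_2_138 : pfC (piC [(nat_lit 38632330), (nat_lit 24534081), (nat_lit 15702173)] (nat_lit 6871653)) p15_34_2 (nat_lit 3) (nat_lit 138) (nat_lit 139) = true := by decide +kernel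
def p15_34_2_139 : pfC (piC [(nat_lit 38632330), (nat_lit 24534081), (nat_lit 15702173)] (nat_lit 6871653)) p15_34_2 (nat_lit 3) (nat_lit 139) (nat_lit 140) = true := by decide +kernel
def p15_34_2_140 : pfC (piC [(nat_lit 38632330), (nat_lit 24534081), (nat_lit 15702173)] (nat_lit 6871653)) p15_34_2 (nat_lit 3) (nat_lit 140) (nat_lit 141) = true := by decide +kernel
def p15_34_2_141 : pfC (piC [(nat_lit 38632330), (nat_lit 24534081), (nat_lit 15702173)] (nat_lit 6871653)) p15_34_2 (nat_lit 3) (nat_lit 141) (nat_lit 142) = true := by decide +kernel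
def p15_34_2_142 : pfC (piC [(nat_lit 38632330), (nat_lit 24534081), (nat_lit 15702173)] (nat_lit 6871653)) p15_34_2 (nat_lit 3) (nat_lit 142) (nat_lit 143) = true := by decide +kernel
def p15_34_2_143 : pfC (piC [(nat_lit 38632330), (nat_lit 24534081), (nat_lit 15702173)] (nat_lit 6871653)) p15_34_2 (nat_lit 3) (nat_lit 143) (nat_lit 144) = true := by decide +kernel
def p15_34_2_144 : pfC (piC [(nat_lit 38632330), (nat_lit 24534081), (nat_lit 15702173)] (nat_lit 6871653)) p15_34_2 (nat_lit 3) (nat_lit 144) (nat_lit 145) = true := by decide +kernel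
def p15_34_2_145 : pfC (piC [(nat_lit 38632330), (nat_lit 24534081), (nat_lit 15702173)] (nat_lit 6871653)) p15_34_2 (nat_lit 3) (nat_lit 145) (nat_lit 146) = true := by decide +kernel
def p15_34_2_146 : pfC (piC [(nat_lit 38632330), (nat_lit 24534081), (nat_lit 15702173)] (nat_lit 6871653)) p15_34_2 (nat_lit 3) (nat_lit 146) (nat_lit 147) = true := by decide +kernel
def p15_34_2_147 : pfC (piC [(nat_lit 38632330), (nat_lit 24534081), (nat_lit 15702173)] (nat_lit 6871653)) p15_34_2 (nat_lit 3) (nat_lit 147) (nat_lit 148) = true := by decide +kernel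
def p15_34_2_148 : pfC (piC [(nat_lit 38632330), (nat_lit 24534081), (nat_lit 15702173)] (nat_lit 6871653)) p15_34_2 (nat_lit 3) (nat_lit 148) (nat_lit 149) = true := by decide +kernel
def p15_34_2_149 : pfC (piC [(nat_lit 38632330), (nat_lit 24534081), (nat_lit 15702173)] (nat_lit 6871653)) p15_34_2 (nat_lit 3) (nat_lit 149) (nat_lit 150) = true := by decide +kernel
def p15_34_2_150 : pfC (piC [(nat_lit 38632330), (nat_lit 24534081), (nat_lit 15702173)] (nat_lit 6871653)) p15_34_2 (nat_lit 3) (nat_lit 150) (nat_lit 151) = true := by decide +kernel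
def p15_34_2_151 : pfC (piC [(nat_lit 38632330), (nat_lit 24534081), (nat_lit 15702173)] (nat_lit 6871653)) p15_34_2 (nat_lit 3) (nat_lit 151) (nat_lit 152) = true := by decide +kernel
def p15_34_2_152 : pfC (piC [(nat_lit 38632330), (nat_lit 24534081), (nat_lit 15702173)] (nat_lit 6871653)) p15_34_2 (nat_lit 3) (nat_lit 152) (nat_lit 153) = true := by decide +kernel
def p15_34_2_153 : pfC (piC [(nat_lit 38632330), (nat_lit 24534081), (nat_lit 15702173)] (nat_lit 6871653)) p15_34_2 (nat_lit 3) (nat_lit 153) (nat_lit 154) = true := by decide +kernel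
def p15_34_2_154 : pfC (piC [(nat_lit 38632330), (nat_lit 24534081), (nat_lit 15702173)] (nat_lit 6871653)) p15_34_2 (nat_lit 3) (nat_lit 154) (nat_lit 155) = true := by decide +kernel
def p15_34_2_155 : pfC (piC [(nat_lit 38632330), (nat_lit 24534081), (nat_lit 15702173)] (nat_lit 6871653)) p15_34_2 (nat_lit 3) (nat_lit 155) (nat_lit 156) = true := by decide +kernel
def p15_34_2_156 : pfC (piC [(nat_lit 38632330), (nat_lit 24534081), (nat_lit 15702173)] (nat_lit 6871653)) p15_34_2 (nat_lit 3) (nat_lit 156) (nat_lit 157) = true := by decide +kernel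
def p15_34_2_157 : pfC (piC [(nat_lit 38632330), (nat_lit 24534081), (nat_lit 15702173)] (nat_lit 6871653)) p15_34_2 (nat_lit 3) (nat_lit 157) (nat_lit 158) = true := by decide +kernel
def p15_34_2_158 : pfC (piC [(nat_lit 38632330), (nat_lit 24534081), (nat_lit 15702173)] (nat_lit 6871653)) p15_34_2 (nat_lit 3) (nat_lit 158) (nat_lit 159) = true := by decide +kernel
def p15_34_2_159 : pfC (piC [(nat_lit 38632330), (nat_lit 24534081), (nat_lit 15702173)] (nat_lit 6871653)) p15_34_2 (nat_lit 3) (nat_lit 159) (nat_lit 160) = true := by decide +kernel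
def p15_34_2_160 : pfC (piC [(nat_lit 38632330), (nat_lit 24534081), (nat_lit 15702173)] (nat_lit 6871653)) p15_34_2 (nat_lit 3) (nat_lit 160) (nat_lit 161) = true := by decide +kernel
def p15_34_2_161 : pfC (piC [(nat_lit 38632330), (nat_lit 24534081), (nat_lit 15702173)] (nat_lit 6871653)) p15_34_2 (nat_lit 3) (nat_lit 161) (nat_lit 162) = true := by decide +kernel
def p15_34_2_162 : pfC (piC [(nat_lit 38632330), (nat_lit 24534081), (nat_lit 15702173)] (nat_lit 6871653)) p15_34_2 (nat_lit 3) (nat_lit 162) (nat_lit 163) = true := by decide +kernel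
def p15_34_2_163 : pfC (piC [(nat_lit 38632330), (nat_lit 24534081), (nat_lit 15702173)] (nat_lit 6871653)) p15_34_2 (nat_lit 3) (nat_lit 163) (nat_lit 164) = true := by decide +kernel
def p15_34_2_164 : pfC (piC [(nat_lit 38632330), (nat_lit 24534081), (nat_lit 15702173)] (nat_lit 6871653)) p15_34_2 (nat_lit 3) (nat_lit 164) (nat_lit 165) = true := by decide +kernel
def p15_34_2_165 : pfC (piC [(nat_lit 38632330), (nat_lit 24534081), (nat_lit 15702173)] (nat_lit 6871653)) p15_34_2 (nat_lit 3) (nat_lit 165) (nat_lit 166) = true := by decide +kernel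
def p15_34_2_166 : pfC (piC [(nat_lit 38632330), (nat_lit 24534081), (nat_lit 15702173)] (nat_lit 6871653)) p15_34_2 (nat_lit 3) (nat_lit 166) (nat_lit 167) = true := by decide +kernel
def p15_34_2_167 : pfC (piC [(nat_lit 38632330), (nat_lit 24534081), (nat_lit 15702173)] (nat_lit 6871653)) p15_34_2 (nat_lit 3) (nat_lit 167) (nat_lit 168) = true := by decide +kernel
def p15_34_2_168 : pfC (piC [(nat_lit 38632330), (nat_lit 24534081), (nat_lit 15702173)] (nat_lit 6871653)) p15_34_2 (nat_lit 3) (nat_lit 168) (nat_lit 169) = true := by decide +kernel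
def p15_34_2_169 : pfC (piC [(nat_lit 38632330), (nat_lit 24534081), (nat_lit 15702173)] (nat_lit 6871653)) p15_34_2 (nat_lit 3) (nat_lit 169) (nat_lit 170) = true := by decide +kernel
def p15_34_2_170 : pfC (piC [(nat_lit 38632330), (nat_lit 24534081), (nat_lit 15702173)] (nat_lit 6871653)) p15_34_2 (nat_lit 3) (nat_lit 170) (nat_lit 171) = true := by decide +kernel
def p15_34_2_171 : pfC (piC [(nat_lit 38632330), (nat_lit 24534081), (nat_lit 15702173)] (nat_lit 6871653)) p15_34_2 (nat_lit 3) (nat_lit 171) (nat_lit 172) = true := by decide +kernel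
def p15_34_2_172 : pfC (piC [(nat_lit 38632330), (nat_lit 24534081), (nat_lit 15702173)] (nat_lit 6871653)) p15_34_2 (nat_lit 3) (nat_lit 172) (nat_lit 173) = true := by decide +kernel
def p15_34_2_173 : pfC (piC [(nat_lit 38632330), (nat_lit 24534081), (nat_lit 15702173)] (nat_lit 6871653)) p15_34_2 (nat_lit 3) (nat_lit 173) (nat_lit 174) = true := by decide +kernel
def p15_34_2_174 : pfC (piC [(nat_lit 38632330), (nat_lit 24534081), (nat_lit 15702173)] (nat_lit 6871653)) p15_34_2 (nat_lit 3) (nat_lit 174) (nat_lit 175) = true := by decide +kernel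
def p15_34_2_175 : pfC (piC [(nat_lit 38632330), (nat_lit 24534081), (nat_lit 15702173)] (nat_lit 6871653)) p15_34_2 (nat_lit 3) (nat_lit 175) (nat_lit 176) = true := by decide +kernel
def p15_34_2_176 : pfC (piC [(nat_lit 38632330), (nat_lit 24534081), (nat_lit 15702173)] (nat_lit 6871653)) p15_34_2 (nat_lit 3) (nat_lit 176) (nat_lit 177) = true := by decide +kernel
def p15_34_2_177 : pfC (piC [(nat_lit 38632330), (nat_lit 24534081), (nat_lit 15702173)] (nat_lit 6871653)) p15_34_2 (nat_lit 3) (nat_lit 177) (nat_lit 178) = true := by decide +kernel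
def p15_34_2_178 : pfC (piC [(nat_lit 38632330), (nat_lit 24534081), (nat_lit 15702173)] (nat_lit 6871653)) p15_34_2 (nat_lit 3) (nat_lit 178) (nat_lit 179) = true := by decide +kernel
def p15_34_2_179 : pfC (piC [(nat_lit 38632330), (nat_lit 24534081), (nat_lit 15702173)] (nat_lit 6871653)) p15_34_2 (nat_lit 3) (nat_lit 179) (nat_lit 180) = true := by decide +kernel
def p15_34_2_180 : pfC (piC [(nat_lit 38632330), (nat_lit 24534081), (nat_lit 15702173)] (nat_lit 6871653)) p15_34_2 (nat_lit 3) (nat_lit 180) (nat_lit 181) = true := by decide +kernel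
def p15_34_2_181 : pfC (piC [(nat_lit 38632330), (nat_lit 24534081), (nat_lit 15702173)] (nat_lit 6871653)) p15_34_2 (nat_lit 3) (nat_lit 181) (nat_lit 182) = true := by decide +kernel
def p15_34_2_182 : pfC (piC [(nat_lit 38632330), (nat_lit 24534081), (nat_lit 15702173)] (nat_lit 6871653)) p15_34_2 (nat_lit 3) (nat_lit 182) (nat_lit 183) = true := by decide +kernel
def p15_34_2_183 : pfC (piC [(nat_lit 38632330), (nat_lit 24534081), (nat_lit 15702173)] (nat_lit 6871653)) p15_34_2 (nat_lit 3) (nat_lit 183) (nat_lit 184) = true := by decide +kernel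
def p15_34_2_184 : pfC (piC [(nat_lit 38632330), (nat_lit 24534081), (nat_lit 15702173)] (nat_lit 6871653)) p15_34_2 (nat_lit 3) (nat_lit 184) (nat_lit 185) = true := by decide +kernel
def p15_34_2_185 : pfC (piC [(nat_lit 38632330), (nat_lit 24534081), (nat_lit 15702173)] (nat_lit 6871653)) p15_34_2 (nat_lit 3) (nat_lit 185) (nat_lit 186) = true := by decide +kernel
def p15_34_2_186 : pfC (piC [(nat_lit 38632330), (nat_lit 24534081), (nat_lit 15702173)] (nat_lit 6871653)) p15_34_2 (nat_lit 3) (nat_lit 186) (nat_lit 187) = true := by decide +kernel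
def p15_34_2_187 : pfC (piC [(nat_lit 38632330), (nat_lit 24534081), (nat_lit 15702173)] (nat_lit 6871653)) p15_34_2 (nat_lit 3) (nat_lit 187) (nat_lit 188) = true := by decide +kernel
theorem p15_34_2_T : PfS (PiF n15_34.reverse (nat_lit 6871653)) p15_34_2 (nat_lit 3) [] 0 :=
  pftab_of (los := [(nat_lit 38632330), (nat_lit 24534081), (nat_lit 15702173)]) (by decide +kernel) (hi := (nat_lit 188)) (PfP.trans (PfP.trans (PfP.trans (PfP.trans (PfP.trans (PfP.trans (PfP.trans (PfP.trans (PfP.trans (PfP.trans (PfP.trans (PfP.trans (PfP.trans (PfP.trans (PfP.trans (PfP.trans (PfP.trans (PfP.trans (PfP.trans (PfP.trans (PfP.trans (PfP.trans (PfP.trans (PfP.trans (PfP.trans (PfP.trans (PfP.trans (PfP.trans (PfP.trans (PfP.trans (PfP.trans (PfP.trans (PfP.trans (PfP.trans (PfP.trans (PfP.trans (PfP.trans (PfP.trans (PfP.trans (PfP.trans (PfP.trans (PfP.trans (PfP.trans (PfP.trans (PfP.trans (PfP.trans (PfP.trans (PfP.trans (PfP.trans (PfP.trans (PfP.trans (PfP.trans (PfP.trans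 (PfP.trans (PfP.trans (PfP.trans (PfP.trans (PfP.trans (PfP.trans (PfP.trans (PfP.trans (PfP.trans (PfP.trans (PfP.trans (PfP.trans (PfP.trans (PfP.trans (PfP.trans (PfP.trans (PfP.trans (PfP.trans (PfP.trans (PfP.trans (PfP.trans (PfP.trans (PfP.trans (PfP.trans (PfP.trans (PfP.trans (PfP.trans (PfP.trans (PfP.trans (PfP.trans (PfP.trans (PfP.trans (PfP.trans (PfP.trans (PfP.trans (PfP.trans (PfP.trans (PfP.trans (PfP.trans (PfP.trans (PfP.trans (PfP.trans (PfP.trans (PfP.trans (PfP.trans (PfP.trans (PfP.trans (PfP.trans (PfP.trans (PfP.trans (PfP.trans (PfP.trans (PfP.trans (PfP.trans (PfP.trans (PfP.trans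
 (PfP.trans (PfP.trans (PfP.trans (PfP.trans (PfP.trans (PfP.trans (PfP.trans (PfP.trans (PfP.trans (PfP.trans (PfP.trans (PfP.trans (PfP.trans (PfP.trans (PfP.trans (PfP.trans (PfP.trans (PfP.trans (PfP.trans (PfP.trans (PfP.trans (PfP.trans (PfP.trans (PfP.trans (PfP.trans (PfP.trans (PfP.trans (PfP.trans (PfP.trans (PfP.trans (PfP.trans (PfP.trans (PfP.trans (PfP.trans (PfP.trans (PfP.trans (PfP.trans (PfP.trans (PfP.trans (PfP.trans (PfP.trans (PfP.trans (PfP.trans (PfP.trans (PfP.trans (PfP.trans (PfP.trans (PfP.trans (PfP.trans (PfP.trans (PfP.trans (PfP.trans (PfP.trans (PfP.trans (PfP.trans (PfP.trans (PfP.trans (PfP.trans (PfP.trans (PfP.trans (PfP.trans (PfP.trans (PfP.trans (PfP.trans (PfP.trans (PfP.trans (PfP.trans (PfP.trans (PfP.trans (PfP.trans (PfP.trans (PfP.trans (PfP.trans (PfP.trans (PfP.trans (PfP.trans (PfP.trans (PfP.trans (pfC_sound p15_34_2_0) (pfC_sound p15_34_2_1)) (pfC_sound p15_34_2_2)) (pfC_sound p15_34_2_3)) (pfC_sound p15_34_2_4)) (pfC_sound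 p15_34_2_5)) (pfC_sound p15_34_2_6)) (pfC_sound p15_34_2_7)) (pfC_sound p15_34_2_8)) (pfC_sound p15_34_2_9)) (pfC_sound p15_34_2_10)) (pfC_sound p15_34_2_11)) (pfC_sound p15_34_2_12)) (pfC_sound p15_34_2_13))
 (pfC_sound p15_34_2_14)) (pfC_sound p15_34_2_15)) (pfC_sound p15_34_2_16)) (pfC_sound p15_34_2_17)) (pfC_sound p15_34_2_18)) (pfC_sound p15_34_2_19)) (pfC_sound p15_34_2_20)) (pfC_sound p15_34_2_21)) (pfC_sound p15_34_2_22)) (pfC_sound p15_34_2_23)) (pfC_sound p15_34_2_24)) (pfC_sound p15_34_2_25)) (pfC_sound p15_34_2_26)) (pfC_sound p15_34_2_27)) (pfC_sound p15_34_2_28)) (pfC_sound p15_34_2_29)) (pfC_sound p15_34_2_30)) (pfC_sound p15_34_2_31)) (pfC_sound p15_34_2_32)) (pfC_sound p15_34_2_33)) (pfC_sound p15_34_2_34)) (pfC_sound p15_34_2_35)) (pfC_sound p15_34_2_36)) (pfC_sound p15_34_2_37)) (pfC_sound p15_34_2_38)) (pfC_sound p15_34_2_39)) (pfC_sound p15_34_2_40)) (pfC_sound p15_34_2_41)) (pfC_sound p15_34_2_42)) (pfC_sound p15_34_2_43)) (pfC_sound p15_34_2_44))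 (pfC_sound p15_34_2_45)) (pfC_sound p15_34_2_46)) (pfC_sound p15_34_2_47)) (pfC_sound p15_34_2_48)) (pfC_sound p15_34_2_49)) (pfC_sound p15_34_2_50)) (pfC_sound p15_34_2_51)) (pfC_sound p15_34_2_52)) (pfC_sound p15_34_2_53)) (pfC_sound p15_34_2_54)) (pfC_sound p15_34_2_55)) (pfC_sound p15_34_2_56)) (pfC_sound p15_34_2_57)) (pfC_sound p15_34_2_58)) (pfC_sound p15_34_2_59)) (pfC_sound p15_34_2_60)) (pfC_sound p15_34_2_61))
 (pfC_sound p15_34_2_62)) (pfC_sound p15_34_2_63)) (pfC_sound p15_34_2_64)) (pfC_sound p15_34_2_65)) (pfC_sound p15_34_2_66)) (pfC_sound p15_34_2_67)) (pfC_sound p15_34_2_68)) (pfC_sound p15_34_2_69)) (pfC_sound p15_34_2_70)) (pfC_sound p15_34_2_71)) (pfC_sound p15_34_2_72)) (pfC_sound p15_34_2_73)) (pfC_sound p15_34_2_74)) (pfC_sound p15_34_2_75)) (pfC_sound p15_34_2_76)) (pfC_sound p15_34_2_77)) (pfC_sound p15_34_2_78)) (pfC_sound p15_34_2_79)) (pfC_sound p15_34_2_80)) (pfC_sound p15_34_2_81)) (pfC_sound p15_34_2_82)) (pfC_sound p15_34_2_83)) (pfC_sound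 p15_34_2_84)) (pfC_sound p15_34_2_85)) (pfC_sound p15_34_2_86)) (pfC_sound p15_34_2_87)) (pfC_sound p15_34_2_88)) (pfC_sound p15_34_2_89)) (pfC_sound p15_34_2_90)) (pfC_sound p15_34_2_91)) (pfC_sound p15_34_2_92)) (pfC_sound p15_34_2_93)) (pfC_sound p15_34_2_94)) (pfC_sound p15_34_2_95)) (pfC_sound p15_34_2_96)) (pfC_sound p15_34_2_97)) (pfC_sound p15_34_2_98)) (pfC_sound p15_34_2_99)) (pfC_sound p15_34_2_100)) (pfC_sound p15_34_2_101)) (pfC_sound p15_34_2_102)) (pfC_sound p15_34_2_103)) (pfC_sound p15_34_2_104)) (pfC_sound p15_34_2_105)) (pfC_sound p15_34_2_106)) (pfC_sound p15_34_2_107)) (pfC_sound p15_34_2_108)) (pfC_sound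
 p15_34_2_109)) (pfC_sound p15_34_2_110)) (pfC_sound p15_34_2_111)) (pfC_sound p15_34_2_112)) (pfC_sound p15_34_2_113)) (pfC_sound p15_34_2_114)) (pfC_sound p15_34_2_115)) (pfC_sound p15_34_2_116)) (pfC_sound p15_34_2_117)) (pfC_sound p15_34_2_118)) (pfC_sound p15_34_2_119)) (pfC_sound p15_34_2_120)) (pfC_sound p15_34_2_121)) (pfC_sound p15_34_2_122)) (pfC_sound p15_34_2_123)) (pfC_sound p15_34_2_124)) (pfC_sound p15_34_2_125)) (pfC_sound p15_34_2_126)) (pfC_sound p15_34_2_127)) (pfC_sound p15_34_2_128)) (pfC_sound p15_34_2_129)) (pfC_sound p15_34_2_130)) (pfC_sound p15_34_2_131)) (pfC_sound p15_34_2_132)) (pfC_sound p15_34_2_133)) (pfC_sound p15_34_2_134)) (pfC_sound p15_34_2_135)) (pfC_sound p15_34_2_136)) (pfC_sound p15_34_2_137)) (pfC_sound p15_34_2_138)) (pfC_sound p15_34_2_139)) (pfC_sound p15_34_2_140)) (pfC_sound p15_34_2_141)) (pfC_sound p15_34_2_142)) (pfC_sound p15_34_2_143)) (pfC_sound p15_34_2_144)) (pfC_sound p15_34_2_145)) (pfC_sound p15_34_2_146)) (pfC_sound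 p15_34_2_147)) (pfC_sound p15_34_2_148)) (pfC_sound p15_34_2_149)) (pfC_sound p15_34_2_150)) (pfC_sound p15_34_2_151)) (pfC_sound p15_34_2_152)) (pfC_sound p15_34_2_153)) (pfC_sound p15_34_2_154)) (pfC_sound
 p15_34_2_155)) (pfC_sound p15_34_2_156)) (pfC_sound p15_34_2_157)) (pfC_sound p15_34_2_158)) (pfC_sound p15_34_2_159)) (pfC_sound p15_34_2_160)) (pfC_sound p15_34_2_161)) (pfC_sound p15_34_2_162)) (pfC_sound p15_34_2_163)) (pfC_sound p15_34_2_164)) (pfC_sound p15_34_2_165)) (pfC_sound p15_34_2_166)) (pfC_sound p15_34_2_167)) (pfC_sound p15_34_2_168)) (pfC_sound p15_34_2_169)) (pfC_sound p15_34_2_170)) (pfC_sound p15_34_2_171)) (pfC_sound p15_34_2_172)) (pfC_sound p15_34_2_173)) (pfC_sound p15_34_2_174)) (pfC_sound p15_34_2_175)) (pfC_sound p15_34_2_176)) (pfC_sound p15_34_2_177)) (pfC_sound p15_34_2_178)) (pfC_sound p15_34_2_179)) (pfC_sound p15_34_2_180)) (pfC_sound p15_34_2_181)) (pfC_sound p15_34_2_182)) (pfC_sound p15_34_2_183)) (pfC_sound p15_34_2_184)) (pfC_sound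 p15_34_2_185)) (pfC_sound p15_34_2_186)) (pfC_sound p15_34_2_187)) (by decide +kernel)

def z15_34_2 : zOK yB15_34 (nat_lit 2) (nat_lit 600) (nat_lit 743) (nat_lit 6871653) (nat_lit 5378544) = true := by decide +kernel
def g15_34_2 : gOK yB15_34.x P15_34 (nat_lit 1394) (q15_34 :: r15_34) (nat_lit 2) (nat_lit 600) (nat_lit 3) (nat_lit 743) (nat_lit 12712500) (nat_lit 12712500) (nat_lit 12712500) (nat_lit 12712500) [(nat_lit 800)] = true := by decide +kernel
def v15_34_2 : ivC P15_34 s15_34 w15_34 n15_34 (nat_lit 3) (nat_lit 4700) (nat_lit 2) (nat_lit 600) f176_0_600 f184_0_600 (nat_lit 3) (nat_lit 743) f176_0_743 f184_0_743 (nat_lit 6871653) (nat_lit 5378544) p15_34_2 = true := by decide +kernel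
end CB
end Pool.Agent.Lib.MP_6947cd_al
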