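import Pool.Agent.Lib.MP_6947cd_al.T.WhatLB
import Pool.Agent.Lib.Interval.Fast

/-!
Problem MP_6947cd_al (Chollet).  Tables of the row value `What`: piecewise linear lower bounds with nodes
at the multiples of `1 / 50`, checked by the kernel.
-/

set_option autoImplicit false

namespace Pool.Agent.Lib.MP_6947cd_al
namespace Fr
namespace WT

open CholB.WM

section
open IA IA.F

/-- a linear function with coefficients over `10^7` -/
def linE (s : E) (p q : ℤ) : E := .add (.mul (.cst p 10000000) s) (.cst q 10000000)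

/-- the check of one entry -/
noncomputable def entOK (L : Lv) (f s : E) (num den st : ℕ) (tr : T) (k a b : ℕ) : Bool :=
  fI ⟨Int.ofNat (Nat.div (Nat.mul (Nat.mul num k) 1099511627776) den),
      Int.ofNat (Nat.add (Nat.div (Nat.mul (Nat.mul num (Nat.add k st)) 1099511627776) den) 1)⟩ fun X =>
  fz (Int.mul (Int.ofNat 50) (Int.sub (Int.ofNat b) (Int.ofNat a))) fun c =>
  fz (Int.sub (Int.ofNat (Nat.mul a (Nat.add k st))) (Int.ofNat (Nat.mul b k))) fun d =>
    chkF L [.sub (.div (linE s c d) (.cst (Int.ofNat st) 1)) f] tr X ⟨0, 0⟩ ⟨0, 0⟩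

/-- the check of a list of entries, from the index `k` on with step `st` -/
noncomputable def tabOK (L : Lv) (f s : E) (num den st : ℕ) (tr : T) (l : List (ℕ × ℕ)) : ℕ → Bool :=
  @List.rec (ℕ × ℕ) (fun _ => ℕ → Bool) (fun _ => true)
    (fun p _ ih k => cond (entOK L f s num den st tr k p.1 p.2) (fn (Nat.add k st) ih) false) l

theorem rng_mem (num den k st : ℕ) (hden : 0 < den) (ξ : ℝ) (h1 : (num : ℝ) * k / den ≤ ξ)
    (h2 : ξ ≤ (num : ℝ) * (k + st) / den) :
    (⟨Int.ofNat (Nat.div (Nat.mul (Nat.mul num k) 1099511627776) den),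
      Int.ofNat (Nat.add (Nat.div (Nat.mul (Nat.mul num (Nat.add k st)) 1099511627776) den) 1)⟩ : I).Mem ξ := by
  have hd : (0 : ℝ) < den := by exact_mod_cast hden
  rw [div_le_iff₀ hd] at h1
  rw [le_div_iff₀ hd] at h2
  constructor
  · have h3 : num * k * 1099511627776 / den * den ≤ num * k * 1099511627776 := Nat.div_mul_le_self _ _
    have h4 : ((num * k * 1099511627776 / den : ℕ) : ℝ) * den ≤ (num : ℝ) * k * 1099511627776 := by
      exact_mod_cast h3
    have h5 : ((num * k * 1099511627776 / den : ℕ) : ℝ) * den ≤ ξ * 1099511627776 * den := by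
      nlinarith
    have h6 := le_of_mul_le_mul_right h5 hd
    show (((num * k * 1099511627776 / den : ℕ) : ℤ) : ℝ) ≤ _
    rw [Int.cast_natCast]
    exact h6
  · have h3 := (Nat.lt_div_mul_add (a := num * (k + st) * 1099511627776) (b := den) hden).le
    have h4 : (num : ℝ) * (k + st) * 1099511627776
        ≤ ((num * (k + st) * 1099511627776 / den + 1 : ℕ) : ℝ) * den := by
      have h7 : num * (k + st) * 1099511627776 ≤ (num * (k + st) * 1099511627776 / den + 1) * den := by
        rw [add_mul, one_mul]; exact h3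
      exact_mod_cast h7
    have h5 : ξ * 1099511627776 * den
        ≤ ((num * (k + st) * 1099511627776 / den + 1 : ℕ) : ℝ) * den := by nlinarith
    have h6 := le_of_mul_le_mul_right h5 hd
    show _ ≤ (((num * (k + st) * 1099511627776 / den + 1 : ℕ) : ℤ) : ℝ)
    rw [Int.cast_natCast]
    exact h6

theorem ent_sound (L : Lv) (f s : E) (num den st : ℕ) (hden : 0 < den) (hst : 0 < st) (tr : T)
    (k a b : ℕ) (h : entOK L f s num den st tr k a b = true) (ξ : ℝ)
    (h1 : (num : ℝ) * k / den ≤ ξ) (h2 : ξ ≤ (num : ℝ) * (k + st) / den) :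
    (((k : ℝ) + st - 50 * evF L s ξ 0 0) * a + (50 * evF L s ξ 0 0 - k) * b) / (st * 10000000)
      ≤ evF L f ξ 0 0 := by
  unfold entOK at h
  rw [fI_eq, fz_eq, fz_eq] at h
  obtain ⟨e, he, h⟩ := chkF_sound _ _ _ _ _ _ h ξ 0 0 (rng_mem num den k st hden ξ h1 h2)
    ⟨by simp, by simp⟩ ⟨by simp, by simp⟩
  simp only [List.mem_singleton] at he
  rw [he] at h
  unfold evF at h ⊢
  simp only [linE, E.ev] at h
  have hs : (0 : ℝ) < st := by exact_mod_cast hst
  have e1 : ((Int.mul (Int.ofNat 50) (Int.sub (Int.ofNat b) (Int.ofNat a)) : ℤ) : ℝ)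
      = 50 * ((b : ℝ) - a) := by
    have : Int.mul (Int.ofNat 50) (Int.sub (Int.ofNat b) (Int.ofNat a)) = 50 * ((b : ℤ) - a) := rfl
    rw [this]; push_cast; ring
  have e2 : ((Int.sub (Int.ofNat (Nat.mul a (Nat.add k st))) (Int.ofNat (Nat.mul b k)) : ℤ) : ℝ)
      = (a : ℝ) * (k + st) - b * k := by
    have : Int.sub (Int.ofNat (Nat.mul a (Nat.add k st))) (Int.ofNat (Nat.mul b k))
      = ((a * (k + st) : ℕ) : ℤ) - ((b * k : ℕ) : ℤ) := rfl
    rw [this]; push_cast; ring
  rw [e1, e2] at h
  generalize s.ev (evL L ξ 0 0).1 (evL L ξ 0 0).2.1 (evL L ξ 0 0).2.2 = v at h ⊢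
  have e3 : (((Int.ofNat st : ℤ) : ℝ) / ((1 : ℕ) : ℝ)) = st := by simp
  rw [e3] at h
  push_cast at h
  have e4 : (((k : ℝ) + st - 50 * v) * a + (50 * v - k) * b) / (st * 10000000)
      = (50 * ((b : ℝ) - a) / 10000000 * v + ((a : ℝ) * (k + st) - b * k) / 10000000) / st := by
    field_simp
    ring
  rw [e4]
  linarith

theorem tab_sound (L : Lv) (f s : E) (num den st : ℕ) (tr : T)
    (l : List (ℕ × ℕ)) (k : ℕ) (h : tabOK L f s num den st tr l k = true) (i : ℕ)
    (hi : i < l.length) : entOK L f s num den st tr (k + i * st) l[i].1 l[i].2 = true := by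
  induction l generalizing k i with
  | nil => simp at hi
  | cons p l ih =>
    obtain ⟨h3, h4⟩ := IA.cond_and (show cond (entOK L f s num den st tr k p.1 p.2)
      (fn (Nat.add k st) (tabOK L f s num den st tr l)) false = true from h)
    rw [fn_eq] at h4
    cases i with
    | zero => simpa using h3
    | succ i =>
      have h5 := ih (k + st) h4 i (by simpa using hi)
      have e : k + (i + 1) * st = k + st + i * st := by ring
      rw [e]
      simpa using h5

/-! ### the expressions -/

/-- `Pd` -/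
def pdH (s : E) : E := .mul s (.sub (.cst 1 1) (.mul s (.sub (.cst 1 4) (.mul s (.sub (.cst 1 18)
  (.div s (.cst 96 1)))))))

/-- `2 WxL` minus a linear term; the variables are `ξ`, `sx`, `rx` -/
def outE (t k c : E) : E :=
  .sub (.mul (.cst 2 1) (.sub (.add (.add (.add (.add (.log (.sub (.cst 1 1) t)) (.sub (.cst 1 1) t))
    (.mul (.add (.sub (.cst 1 1) .x1) (.mul .x2 (.mul .x1 .x1)))
      (.mul (.exp .x1) (.add (.sub (.cst (-577216) 1000000) (.log .x1)) (pdH .x1)))))
    (.mul .x2 (.sub (.cst 1 1) .x1)))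
    (.mul (.div (.cst 2 1) (.add (.cst 1 1) .x0)) (.log (KxE t)))) k)) (.mul c (.mul t .x0))

/-- the level -/
def lv (t u : E) : Lv := [(.x0, sxE t u, rxE u)]

theorem out_ev (t u k c : E) (θ τ κ γ : ℝ) (ht : ∀ x y z, t.ev x y z = θ) (hu : ∀ x y z, u.ev x y z = τ)
    (hk : ∀ x y z, k.ev x y z = κ) (hc : ∀ x y z, c.ev x y z = γ) (ξ : ℝ) :
    evF (lv t u) (outE t k c) ξ 0 0 = 2 * WxL θ τ κ ξ - γ * (θ * ξ) := by
  unfold evF
  simp only [lv, evL, sxE_ev, rxE_ev, outE, pdH, E.ev, KxE_ev, ht, hu, hk, hc]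
  unfold WxL Pd
  push_cast
  simp only [div_one]
  ring

theorem out_s (t u : E) (θ : ℝ) (ht : ∀ x y z, t.ev x y z = θ) (ξ : ℝ) :
    evF (lv t u) (.mul t .x0) ξ 0 0 = θ * ξ := by
  unfold evF
  simp only [lv, evL, E.ev, ht]

end

/-! ### the data: lower bounds over `10^7` at the two ends of the intervals `[j/50, (j+1)/50]` -/

def p2 : List (ℕ × ℕ) :=
    [(441178, 484000), (484005, 527156), (527160, 570603), (570607, 614309), (614312, 658243),
    (658247, 702380)]

def p3 : List (ℕ × ℕ) :=
    [(711901, 765434), (765438, 819142), (819145, 872997), (873000, 926978), (926980, 981064),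
    (981066, 1035236), (1035238, 1089479), (1089481, 1143775), (1143777, 1198111)]

def p4 : List (ℕ × ℕ) :=
    [(1198709, 1254742), (1254742, 1310718), (1310718, 1366629), (1366629, 1422469),
    (1422469, 1478231), (1478231, 1533910), (1533910, 1589500), (1589500, 1644995),
    (1644995, 1700392), (1700392, 1755686)]

def p5 : List (ℕ × ℕ) :=
    [(1774453, 1834659), (1834659, 1894740), (1894740, 1954692), (1954692, 2014512),
    (2014512, 2074198), (2074198, 2133745), (2133745, 2193153), (2193153, 2252419),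
    (2252419, 2311540), (2311540, 2370515), (2370515, 2429342), (2429342, 2488020),
    (2488020, 2546547), (2546547, 2604923), (2604923, 2663145), (2663145, 2721213),
    (2721213, 2779126), (2779126, 2836884), (2836884, 2894485), (2894485, 2951929)]

def p6 : List (ℕ × ℕ) :=
    [(2942201, 3000773), (3000773, 3059150), (3059150, 3117334), (3117334, 3175325),
    (3175325, 3233124), (3233124, 3290733), (3290733, 3348153), (3348153, 3405385),
    (3405385, 3462430), (3462430, 3519288), (3519288, 3575962), (3575962, 3632452),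
    (3632452, 3688759), (3688759, 3744884), (3744884, 3800829), (3800829, 3856594),
    (3856594, 3912181), (3912181, 3967590), (3967590, 4022823), (4022823, 4077881),
    (4077881, 4132764), (4132764, 4187474), (4187474, 4242013), (4242013, 4296380),
    (4296380, 4350577), (4350577, 4404605), (4404605, 4458464), (4458464, 4512157),
    (4512157, 4565684), (4565684, 4619046), (4619046, 4672244), (4672244, 4725279),
    (4725279, 4778151), (4778151, 4830863), (4830863, 4883415), (4883415, 4935807),
    (4935807, 4988041), (4988041, 5040118), (5040118, 5092039), (5092039, 5143804),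
    (5143804, 5195415), (5195415, 5246873), (5246873, 5298178), (5298178, 5349331),
    (5349331, 5400333), (5400333, 5451186), (5451186, 5501890), (5501890, 5552445),
    (5552445, 5602853), (5602853, 5653115), (5653115, 5703231), (5703231, 5753203)]

/-- coarse entries `[j/50, (j+5)/50]` -/
def p7 : List (ℕ × ℕ) :=
    [(2932501, 3223424), (3223424, 3509588), (3509588, 3791129), (3791129, 4068181),
    (4068181, 4340877), (4340877, 4609346), (4609346, 4873715), (4873715, 5134104),
    (5134104, 5390633), (5390633, 5643415), (5643415, 5892558), (5892558, 6138169),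
    (6138169, 6380348), (6380348, 6619192), (6619192, 6854795), (6854795, 7087246),
    (7087246, 7316632), (7316632, 7543036), (7543036, 7766536), (7766536, 7987209),
    (7987209, 8205130), (8205130, 8420368), (8420368, 8632992), (8632992, 8843067),
    (8843067, 9050657), (9050657, 9255821), (9255821, 9458619), (9458619, 9659107),
    (9659107, 9857340), (9857340, 10053369), (10053369, 10247246), (10247246, 10439019),
    (10439019, 10628736), (10628736, 10816442), (10816442, 11002182), (11002182, 11185998),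
    (11185998, 11367931), (11367931, 11548021), (11548021, 11726308), (11726308, 11902827),
    (11902827, 12077616), (12077616, 12250710), (12250710, 12422142), (12422142, 12591946),
    (12591946, 12760154), (12760154, 12926797), (12926797, 13091904), (13091904, 13255506),
    (13255506, 13417630), (13417630, 13578304), (13578304, 13737555), (13737555, 13895409),
    (13895409, 14051892), (14051892, 14207027), (14207027, 14360840), (14360840, 14513352),
    (14513352, 14664588), (14664588, 14814569), (14814569, 14963316), (14963316, 15110851),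
    (15110851, 15257194), (15257194, 15402365)]

section
open IA T

def D1 : T := s0 (d 0) (d 0)
def D2 : T := s0 D1 D1
def D3 : T := s0 D2 D2
def D4 : T := s0 D3 D3

theorem c2 : tabOK (lv (.cst 17 20) (.cst 3 5)) (outE (.cst 17 20) (.cst 612 100000) (.cst 93 2000))
    (.mul (.cst 17 20) .x0) 2 85 1 D4 p2 15 = true := by decide +kernel

theorem c3 : tabOK (lv (.cst 19 20) (.cst 3 5)) (outE (.cst 19 20) (.cst 612 100000) (.cst 31 2000))
    (.mul (.cst 19 20) .x0) 2 95 1 D3 p3 21 = true := by decide +kernel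

theorem c4 : tabOK (lv (.cst 19 20) (.cst 1 2)) (outE (.cst 19 20) (.cst 3141 1000000) (.cst 31 2000))
    (.mul (.cst 19 20) .x0) 2 95 1 D3 p4 30 = true := by decide +kernel

theorem c5 : tabOK [] (W5E .x0) .x0 1 50 1 D2 p5 40 = true := by decide +kernel

theorem c6 : tabOK [] (W6E .x0) .x0 1 50 1 D2 p6 60 = true := by decide +kernel

theorem c7 : tabOK [] (W6E .x0) .x0 1 50 5 D2 p7 60 = true := by decide +kernel

end

/-- the value of the linear function with the values `a`, `b` over `10^7` at `k/50`, `(k+st)/50` -/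
noncomputable def lin (k st a b : ℕ) (s : ℝ) : ℝ :=
  (((k : ℝ) + st - 50 * s) * a + (50 * s - k) * b) / (st * 10000000)

/-- use of the tables for `θ < 1` -/
theorem use_lt (t u κ c : IA.E) (θ τ k γ : ℝ) (num den : ℕ) (hden : 0 < den) (tr : IA.T) (k0 : ℕ)
    (l : List (ℕ × ℕ)) (hc : tabOK (lv t u) (outE t κ c) (.mul t .x0) num den 1 tr l k0 = true)
    (ht : ∀ x y z, t.ev x y z = θ) (hu : ∀ x y z, u.ev x y z = τ) (hκ : ∀ x y z, κ.ev x y z = k)
    (hγ : ∀ x y z, c.ev x y z = γ) (hθ : 0 < θ)
    (hnd : (num : ℝ) / den * θ = 1 / 50) (i : ℕ) (hi : i < l.length) (s : ℝ)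
    (hs1 : (((k0 + i : ℕ) : ℝ)) / 50 ≤ s) (hs2 : s ≤ (((k0 + i : ℕ) : ℝ) + 1) / 50) :
    lin (k0 + i) 1 l[i].1 l[i].2 s ≤ 2 * WxL θ τ k (s / θ) - γ * s := by
  have hnd' : (num : ℝ) / den = 1 / 50 / θ := by
    rw [eq_div_iff hθ.ne']
    exact hnd
  have e1 : ∀ m : ℝ, (num : ℝ) * m / den = m / 50 / θ := by
    intro m
    rw [mul_div_right_comm, hnd']
    ring
  have h0 := tab_sound _ _ _ num den 1 tr l k0 hc i hi
  rw [mul_one] at h0
  have h := ent_sound _ _ _ num den 1 hden (by norm_num) tr (k0 + i) _ _ h0 (s / θ)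
    (by rw [e1]; exact div_le_div_of_nonneg_right hs1 hθ.le)
    (by rw [Nat.cast_one, e1]; exact div_le_div_of_nonneg_right hs2 hθ.le)
  rw [out_ev t u κ c θ τ k γ ht hu hκ hγ, out_s t u θ ht] at h
  have e2 : θ * (s / θ) = s := by field_simp
  rw [e2] at h
  exact h

/-- use of the tables for `θ = 1` -/
theorem use_one (f : IA.E) (W : ℝ → ℝ) (hf : ∀ x y z : ℝ, f.ev x y z = W x) (st : ℕ) (hst : 0 < st)
    (tr : IA.T) (k0 : ℕ) (l : List (ℕ × ℕ)) (hc : tabOK [] f .x0 1 50 st tr l k0 = true)
    (i : ℕ) (hi : i < l.length) (s : ℝ)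
    (hs1 : (((k0 + i * st : ℕ) : ℝ)) / 50 ≤ s) (hs2 : s ≤ (((k0 + i * st : ℕ) : ℝ) + st) / 50) :
    lin (k0 + i * st) st l[i].1 l[i].2 s ≤ W s := by
  have h0 := tab_sound _ _ _ 1 50 st tr l k0 hc i hi
  have h := ent_sound _ _ _ 1 50 st (by norm_num) hst tr (k0 + i * st) _ _ h0 s
    (by push_cast at hs1 ⊢; linarith) (by push_cast at hs2 ⊢; linarith)
  have e1 : IA.F.evF [] f s 0 0 = W s := hf s 0 0
  have e2 : IA.F.evF [] IA.E.x0 s 0 0 = s := rfl
  rw [e1, e2] at h
  exact h

theorem l2 : p2.length = 6 := by decide +kernel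
theorem l3 : p3.length = 9 := by decide +kernel
theorem l4 : p4.length = 10 := by decide +kernel
theorem l5 : p5.length = 20 := by decide +kernel
theorem l6 : p6.length = 52 := by decide +kernel
theorem l7 : p7.length = 62 := by decide +kernel

/-- the fine table, indices `15 ≤ j < 112` -/
def pr : List (ℕ × ℕ) := p2 ++ (p3 ++ (p4 ++ (p5 ++ p6)))

theorem lpr : pr.length = 97 := by decide +kernel

/-- THE FINE TABLE. -/
theorem What_fine (i : ℕ) (hi : i < pr.length) (s : ℝ) (hs1 : ((15 + i : ℕ) : ℝ) / 50 < s)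
    (hs2 : s ≤ (((15 + i : ℕ) : ℝ) + 1) / 50) : lin (15 + i) 1 pr[i].1 pr[i].2 s ≤ What s := by
  have hle := hs1.le
  have hi97 : i < 97 := by rw [lpr] at hi; exact hi
  by_cases a2 : i < 6
  · have hk1 : (((15 + i : ℕ) : ℝ) + 1) ≤ 21 := by
      have : 15 + i + 1 ≤ 21 := by omega
      exact_mod_cast this
    have hk0 : (15 : ℝ) ≤ ((15 + i : ℕ) : ℝ) := by
      have : 15 ≤ 15 + i := by omega
      exact_mod_cast this
    have h := use_lt _ _ _ _ (17 / 20) (3 / 5) (612 / 100000) (93 / 2000) 2 85 (by norm_num) _ _ _ c2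
      (fun x y z => by simp [IA.E.ev]) (fun x y z => by simp [IA.E.ev]) (fun x y z => by simp [IA.E.ev])
      (fun x y z => by simp [IA.E.ev]) (by norm_num) (by norm_num) i (by rw [l2]; exact a2) s hle hs2
    have e : pr[i]'hi = p2[i]'(by rw [l2]; exact a2) := by
      rw [List.getElem_eq_iff]
      unfold pr
      rw [List.getElem?_append_left (by rw [l2]; exact a2)]
      exact List.getElem?_eq_getElem _
    rw [e]
    exact h.trans (What_two s (by linarith) (by linarith))
  push Not at a2
  obtain ⟨i, rfl⟩ := Nat.exists_eq_add_of_le a2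
  by_cases a3 : i < 9
  · have hk1 : (((15 + (6 + i) : ℕ) : ℝ) + 1) ≤ 30 := by
      have : 15 + (6 + i) + 1 ≤ 30 := by omega
      exact_mod_cast this
    have hk0 : (21 : ℝ) ≤ ((15 + (6 + i) : ℕ) : ℝ) := by
      have : 21 ≤ 15 + (6 + i) := by omega
      exact_mod_cast this
    have e0 : 15 + (6 + i) = 21 + i := by omega
    rw [e0] at hle hs2 ⊢
    have h := use_lt _ _ _ _ (19 / 20) (3 / 5) (612 / 100000) (31 / 2000) 2 95 (by norm_num) _ _ _ c3
      (fun x y z => by simp [IA.E.ev]) (fun x y z => by simp [IA.E.ev]) (fun x y z => by simp [IA.E.ev])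
      (fun x y z => by simp [IA.E.ev]) (by norm_num) (by norm_num) i (by rw [l3]; exact a3) s hle hs2
    have e : pr[6 + i]'hi = p3[i]'(by rw [l3]; exact a3) := by
      rw [List.getElem_eq_iff]
      unfold pr
      rw [List.getElem?_append_right (by rw [l2]; omega), l2, Nat.add_sub_cancel_left,
        List.getElem?_append_left (by rw [l3]; omega)]
      exact List.getElem?_eq_getElem _
    rw [e]
    rw [e0] at hk0 hk1 hs1
    exact h.trans (What_three s (by linarith) (by linarith))
  push Not at a3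
  obtain ⟨i, rfl⟩ := Nat.exists_eq_add_of_le a3
  by_cases a4 : i < 10
  · have e0 : 15 + (6 + (9 + i)) = 30 + i := by omega
    rw [e0] at hle hs1 hs2 ⊢
    have hk1 : (((30 + i : ℕ) : ℝ) + 1) ≤ 40 := by
      have : 30 + i + 1 ≤ 40 := by omega
      exact_mod_cast this
    have hk0 : (30 : ℝ) ≤ ((30 + i : ℕ) : ℝ) := by
      have : 30 ≤ 30 + i := by omega
      exact_mod_cast this
    have h := use_lt _ _ _ _ (19 / 20) (1 / 2) (3141 / 1000000) (31 / 2000) 2 95 (by norm_num) _ _ _ c4
      (fun x y z => by simp [IA.E.ev]) (fun x y z => by simp [IA.E.ev]) (fun x y z => by simp [IA.E.ev])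
      (fun x y z => by simp [IA.E.ev]) (by norm_num) (by norm_num) i (by rw [l4]; exact a4) s hle hs2
    have e : pr[6 + (9 + i)]'hi = p4[i]'(by rw [l4]; exact a4) := by
      rw [List.getElem_eq_iff]
      unfold pr
      rw [List.getElem?_append_right (by rw [l2]; omega), l2, Nat.add_sub_cancel_left,
        List.getElem?_append_right (by rw [l3]; omega), l3, Nat.add_sub_cancel_left,
        List.getElem?_append_left (by rw [l4]; omega)]
      exact List.getElem?_eq_getElem _
    rw [e]
    exact h.trans (What_four s (by linarith) (by linarith))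
  push Not at a4
  obtain ⟨i, rfl⟩ := Nat.exists_eq_add_of_le a4
  by_cases a5 : i < 20
  · have e0 : 15 + (6 + (9 + (10 + i))) = 40 + i := by omega
    rw [e0] at hle hs1 hs2 ⊢
    have hk1 : (((40 + i : ℕ) : ℝ) + 1) ≤ 60 := by
      have : 40 + i + 1 ≤ 60 := by omega
      exact_mod_cast this
    have hk0 : (40 : ℝ) ≤ ((40 + i : ℕ) : ℝ) := by
      have : 40 ≤ 40 + i := by omega
      exact_mod_cast this
    have h := use_one (W5E .x0) W5 (fun x y z => W5E_ev .x0 x y z) 1 (by norm_num) _ _ _ c5 i
      (by rw [l5]; exact a5) s (by rw [mul_one]; exact hle) (by rw [mul_one]; push_cast at hs2 ⊢; linarith)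
    rw [mul_one] at h
    have e : pr[6 + (9 + (10 + i))]'hi = p5[i]'(by rw [l5]; exact a5) := by
      rw [List.getElem_eq_iff]
      unfold pr
      rw [List.getElem?_append_right (by rw [l2]; omega), l2, Nat.add_sub_cancel_left,
        List.getElem?_append_right (by rw [l3]; omega), l3, Nat.add_sub_cancel_left,
        List.getElem?_append_right (by rw [l4]; omega), l4, Nat.add_sub_cancel_left,
        List.getElem?_append_left (by rw [l5]; omega)]
      exact List.getElem?_eq_getElem _
    rw [e]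
    exact h.trans (What_five s (by linarith) (by linarith))
  push Not at a5
  obtain ⟨i, rfl⟩ := Nat.exists_eq_add_of_le a5
  have a6 : i < 52 := by omega
  have e0 : 15 + (6 + (9 + (10 + (20 + i)))) = 60 + i := by omega
  rw [e0] at hle hs1 hs2 ⊢
  have hk0 : (60 : ℝ) ≤ ((60 + i : ℕ) : ℝ) := by
    have : 60 ≤ 60 + i := by omega
    exact_mod_cast this
  have h := use_one (W6E .x0) W6 (fun x y z => W6E_ev .x0 x y z) 1 (by norm_num) _ _ _ c6 i
    (by rw [l6]; exact a6) s (by rw [mul_one]; exact hle) (by rw [mul_one]; push_cast at hs2 ⊢; linarith)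
  rw [mul_one] at h
  have e : pr[6 + (9 + (10 + (20 + i)))]'hi = p6[i]'(by rw [l6]; exact a6) := by
    rw [List.getElem_eq_iff]
    unfold pr
    rw [List.getElem?_append_right (by rw [l2]; omega), l2, Nat.add_sub_cancel_left,
      List.getElem?_append_right (by rw [l3]; omega), l3, Nat.add_sub_cancel_left,
      List.getElem?_append_right (by rw [l4]; omega), l4, Nat.add_sub_cancel_left,
      List.getElem?_append_right (by rw [l5]; omega), l5, Nat.add_sub_cancel_left]
    exact List.getElem?_eq_getElem _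
  rw [e]
  exact h.trans (What_six s (by linarith))

/-- THE COARSE TABLE. -/
theorem What_coarse (i : ℕ) (hi : i < p7.length) (s : ℝ) (hs0 : 6 / 5 < s)
    (hs1 : ((60 + i * 5 : ℕ) : ℝ) / 50 ≤ s) (hs2 : s ≤ (((60 + i * 5 : ℕ) : ℝ) + 5) / 50) :
    lin (60 + i * 5) 5 p7[i].1 p7[i].2 s ≤ What s :=
  (use_one (W6E .x0) W6 (fun x y z => W6E_ev .x0 x y z) 5 (by norm_num) _ _ _ c7 i hi s hs1
    (by push_cast at hs2 ⊢; linarith)).trans (What_six s hs0)

end WT
end Fr
end Pool.Agent.Lib.MP_6947cd_al
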